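import Pool.Agent.Helper77.PPB.Goals

/-!
# Project PPB (MP_fc6b1e_nt, density theorem for general base characters): existence of `a₀`, from classes to
# characters, the final statement
-/

namespace Pool.Agent.Helper77.PPB

open NumberField Polynomial Module IsDedekindDomain TensorProduct Pool.Agent.Helper51.SigLeo
open Pool.Agent.Helper51.RP Pool.Agent.Helper42.RD Pool.Agent.Helper11.LE Pool.Agent.Helper11.PP
open Pool.Agent.Helper38.FD (Chr CutsOut LeopoldtFor IsOrdinary)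
open Pool.Agent.Helper42.PP (LocS)
open Pool.Agent.Helper42.PP1 (SitW NTV)
open Pool.Agent.Helper42.PB (SitB SitBs)

/-- **B_KU2** (local `p`-th powers above `p`). `F₀/K` is Galois, with trivial decomposition groups above `p`;
`s ∈ M₂ F₀`, `s^p = a ∈ M₂`.

PROOF (the first half of the proof of `PP.D_NIC`, `Pool/Agent/Helper14/PP/DNIC.lean`). Let `H = M₂ ⊔ F₀`, a number
field, Galois over `M₂`; `Gal(H/M₂)` embeds in `Gal(F₀/K)` by restriction. Let `W` be a prime of `M₂` above `p`, `𝔓`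
a prime of `H` above `W`, `V` the prime of `F₀` below `𝔓`. An element of `Gal(H/M₂)` which preserves the valuation
of `𝔓` restricts to one of `Gal(F₀/K)` which preserves the valuation of `V`, which is trivial; so
`e(𝔓/W) = f(𝔓/W) = 1` (`Pool/Agent/Helper2/RL/EF1.lean`: `ef_free`, `residue_surj`): `ord_𝔓 = ord_W` on `M₂`, and for
every `y ∈ H` with `ord_𝔓(y) ≥ 0` and every `n` there is `c ∈ M₂` with `ord_𝔓(y - c) ≥ n`. So for every `n` there is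
`y_W ∈ M₂` with `ord_W(a y_W^p - 1) ≥ n`. By weak approximation choose `y ∈ M₂ˣ` so close to `y_W` at all the `W`
above `p` that `ord_W(a y^p - 1) ≥ 3 ord_W(p)`, `≥ 1`. -/
def B_KU2 : Prop :=
  ∀ (p : ℕ) [Fact p.Prime] (K : Type) [Field K] [NumberField K]
    (M₂ F₀ : IntermediateField K (AlgebraicClosure K)) [NumberField M₂] [NumberField F₀]
    [IsGalois K F₀],
    (∀ v : HeightOneSpectrum (𝓞 K), (p : 𝓞 K) ∈ v.asIdeal →
      ∀ V : HeightOneSpectrum (𝓞 F₀), Above V v → FreeP K V) →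
  ∀ (a : (M₂)ˣ) (s : AlgebraicClosure K), s ^ p = ((a : M₂) : AlgebraicClosure K) →
    s ∈ M₂ ⊔ F₀ → LocS p {W : HeightOneSpectrum (𝓞 M₂) | W.valuation M₂ (p : M₂) < 1} a

/-- **B_KU3** (ramification). `F₀/K` is Galois, `s ∈ M₂ F₀`, `s^p = a ∈ M₂`. If the prime `v` of `K` is not ramified
in `F₀` then `p ∣ ord_W(a)` for the primes `W` of `M₂` above `v`.

PROOF. Let `H = M₂ ⊔ F₀`, a number field, Galois over `M₂`, `𝔓` a prime of `H` above `W`, `V` the prime of `F₀` below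
`𝔓`, above `v`. An element of the inertia group of `𝔓` in `Gal(H/M₂)` restricts to the inertia group of `V` in
`Gal(F₀/K)`, which is trivial (`inertia_iff` in `Pool/Agent/Helper22/PP/DPRD.lean`), and it is trivial on `M₂`; so
`e(𝔓/W) = 1`, `ord_𝔓 = ord_W` on `M₂` (`ord_ee`, `map_le_iff` in `Pool/Agent/Helper58/PP/DTAM.lean`), and
`p ord_𝔓(s) = ord_𝔓(a) = ord_W(a)`. -/
def B_KU3 : Prop :=
  ∀ (p : ℕ) [Fact p.Prime] (K : Type) [Field K] [NumberField K]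
    (M₂ F₀ : IntermediateField K (AlgebraicClosure K)) [NumberField M₂] [NumberField F₀]
    [IsGalois K F₀] (a : (M₂)ˣ) (s : AlgebraicClosure K), s ^ p = ((a : M₂) : AlgebraicClosure K) →
    s ∈ M₂ ⊔ F₀ →
  ∀ v : HeightOneSpectrum (𝓞 K), ¬ RamIn F₀ v →
  ∀ W : HeightOneSpectrum (𝓞 M₂), Above W v → (p : ℤ) ∣ ordv W (a : M₂)

/-- **B_KU1** (Kummer theory over `M₂`). `ψ₀` is a character with field `F₀` such that `ψ₀^p = 1` on `Gal(Ω/M₂)`.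

PROOF. *Case 1:* `ψ₀ g = 1` for all `g` fixing `M₂`. Take `a₀ = 1`, `s₀ = 1`; if `1 = ε^i` then `p ∣ i` and
`εk^i = 1 = ψ₀ g`. *Case 2:* there is `g₁` fixing `M₂` with `ψ₀ g₁ ≠ 1`; then `ψ₀ g₁` is a primitive `p`-th root of unity
of `ℂ_p`, and a power `g₀` of `g₁` has `ψ₀ g₀ = εk`. `H = M₂ ⊔ F₀` is Galois over `M₂` (`F₀/K` is Galois:
`isGalois_of_cutsOut`, `Pool/Agent/Helper38/FD/Twist.lean`), and `Gal(H/M₂)` embeds by `ψ₀` in the `p`-th roots of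
unity (an automorphism `g` which fixes `M₂` with `ψ₀ g = 1` fixes `F₀`), so it is cyclic of order `p`, generated by
`g₀|_H`. By Kummer theory (Mathlib `exists_root_adjoin_eq_top_of_isCyclic`; compare `PP.D_CNV`,
`Pool/Agent/Helper74/PP/DCNV.lean`) there is `s ∈ H`, `s ∉ M₂`, `s^p ∈ M₂`. `g₀ s = ε^t s` with `p ∤ t` (`s ∉ M₂`, and `g₀`
generates the group), `u t ≡ 1 mod p`, `s₀ = s^u`, `g₀ s₀ = ε s₀`, `a₀ = s₀^p`. *Relation:* let `g` fix `M₂`;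
`ψ₀ g = εk^t` for some `t`, so `ψ₀ (g₀^(-t) g) = 1`, `g₀^(-t) g` fixes `H`, `g s₀ = g₀^t s₀ = ε^t s₀`. If also
`g s₀ = ε^i s₀` then `ε^i = ε^t`, `i ≡ t mod p`, `ψ₀ g = εk^i`. -/
def B_KU1 : Prop :=
  ∀ (p : ℕ) [Fact p.Prime] (K : Type) [Field K] [NumberField K]
    (M₂ F₀ : IntermediateField K (AlgebraicClosure K)) [NumberField M₂] [FiniteDimensional K F₀]
    (ψ₀ : Chr K (AlgebraicClosure K) ℂ_[p]), CutsOut ψ₀ F₀ →
    (∀ g, (∀ x ∈ M₂, g x = x) → ψ₀ g ^ p = 1) →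
  ∀ ε : M₂, IsPrimitiveRoot ε p → ∀ εk : ℂ_[p]ˣ, IsPrimitiveRoot εk p →
  ∃ (a₀ : (M₂)ˣ) (s₀ : AlgebraicClosure K), s₀ ∈ M₂ ⊔ F₀ ∧
    s₀ ^ p = ((a₀ : M₂) : AlgebraicClosure K) ∧
    ∀ g : AlgebraicClosure K ≃ₐ[K] AlgebraicClosure K, (∀ x ∈ M₂, g x = x) → ∀ i : ℕ,
      g s₀ = (ε : AlgebraicClosure K) ^ i * s₀ → ψ₀ g = εk ^ i

/-- **B_KU4** (type `ω`). `M₂/K`, `F₀/K` are Galois and the automorphisms of `Ω/K` commute on `M₂ ⊔ F₀`.

PROOF. Let `τ ∈ Gal(M₂/K)`, `τ' ∈ Gal(Ω/K)` an extension, `τ ε = ε^n`. Let `g` fix `M₂`: `g s₀ = ε^i s₀` for some `i`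
(`(g s₀)^p = s₀^p`, `s₀ ≠ 0`), so `g τ' s₀ = τ' g s₀ = ε^(n i) τ' s₀` (`s₀ ∈ M₂ ⊔ F₀`), and
`g (s₀^n) = ε^(n i) s₀^n`. So `c = τ'(s₀)/s₀^n` is fixed by all `g` which fix `M₂`, it is in `M₂` (`Ω/M₂` is Galois), and
`τ a₀ = a₀^n c^p`. -/
def B_KU4 : Prop :=
  ∀ (p : ℕ) [Fact p.Prime] (K : Type) [Field K] [NumberField K]
    (M₂ F₀ : IntermediateField K (AlgebraicClosure K)) [NumberField M₂] [IsGalois K M₂]
    [IsGalois K F₀],
    (∀ (g h : AlgebraicClosure K ≃ₐ[K] AlgebraicClosure K), ∀ x ∈ M₂ ⊔ F₀,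
      g (h x) = h (g x)) →
  ∀ ε : M₂, IsPrimitiveRoot ε p → ∀ (a₀ : (M₂)ˣ) (s₀ : AlgebraicClosure K), s₀ ∈ M₂ ⊔ F₀ →
    s₀ ^ p = ((a₀ : M₂) : AlgebraicClosure K) → OmType p K ε (a₀ : M₂)

/-- **B_KU5** (the condition `cyc` of `SitB`). `M₂ = E₁ ⊔ J`, `J` is the field of `ψ₀^p`, `ψ₀` is of `p`-power order.

PROOF. Let `n` be the order of `σ`, `σ' ∈ Gal(Ω/K)` an extension of `σ`. `σ'(s₀) = s₀ c ε^j` for some `j`
(`(σ' s₀)^p = σ a₀ = (s₀ c)^p`), and `σ' ε = ε` (`ε ∈ E₁`), so `σ'^n s₀ = s₀ ∏_{i < n} σ^i(c) · ε^(j n)`. Let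
`x = ψ₀(σ')`, a root of unity of order `p^b`. The order of `x^p = ψ₀^p(σ')` is the smallest `r ≥ 1` such that `σ'^r`
fixes `J` (`CutsOut`), that is such that `σ^r` fixes `J`; as `σ` fixes `E₁` and `M₂ = E₁ ⊔ J`, it is `n`. As `σ ≠ 1`,
`n > 1`, so `b ≥ 2` and `n = p^(b-1)`, `p ∣ n`, `ε^(j n) = 1`. If the product were `1` then `σ'^n` would fix `s₀` and `M₂`
(`σ^n = 1`), so `x^n = ψ₀(σ'^n) = 1` by the Kummer relation with `i = 0`, a contradiction to the order `p^b` of `x`. -/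
def B_KU5 : Prop :=
  ∀ (p : ℕ) [Fact p.Prime] (K : Type) [Field K] [NumberField K]
    (E₁ J M₂ : IntermediateField K (AlgebraicClosure K)) [NumberField M₂] [IsGalois K M₂],
    M₂ = E₁ ⊔ J → ∀ (ψ₀ : Chr K (AlgebraicClosure K) ℂ_[p]), CutsOut (ψ₀ ^ p) J →
    (∃ l : ℕ, ψ₀ ^ p ^ l = 1) →
  ∀ ε : M₂, IsPrimitiveRoot ε p → (ε : AlgebraicClosure K) ∈ E₁ → ∀ εk : ℂ_[p]ˣ,
  ∀ (a₀ : (M₂)ˣ) (s₀ : AlgebraicClosure K), s₀ ^ p = ((a₀ : M₂) : AlgebraicClosure K) →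
    (∀ g : AlgebraicClosure K ≃ₐ[K] AlgebraicClosure K, (∀ x ∈ M₂, g x = x) → ∀ i : ℕ,
      g s₀ = (ε : AlgebraicClosure K) ^ i * s₀ → ψ₀ g = εk ^ i) →
  ∀ σ : M₂ ≃ₐ[K] M₂, (∀ x : M₂, (x : AlgebraicClosure K) ∈ E₁ → σ x = x) → σ ≠ 1 →
  ∀ c : M₂, σ (a₀ : M₂) = (a₀ : M₂) * c ^ p → ∏ i ∈ Finset.range (orderOf σ), (σ ^ i) c ≠ 1

/-- **B_KUM** (the Kummer generator `a₀` of `ψ₀`). `ψ₀` is a character of `p`-power order with field `F₀`, in which the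
primes above `p` split completely, `J` is the field of `ψ₀^p`, `M₂ = M₁ J` (`M₁` embedded in `Ω` by `j₁`, with image
`E₁`). There is `a₀ ∈ M₂` which is the Kummer generator of `ψ₀` over `M₂` with respect to the roots of unity `ε` of
`K₁` and `εk` of `ℂ_p`.

PROOF (from `B_KU1`, `B_KU2`, `B_KU4`, `B_KU5`). `Gal(F₀/K)` embeds by `ψ₀` in `ℂ_pˣ`, it is cyclic of order `p^l`, and
`ψ₀^(p^l) = 1`. `J ⊆ F₀` (`ψ₀ g = 1` implies `ψ₀^p g = 1`), `J/K` is Galois (`isGalois_of_cutsOut`,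
`Pool/Agent/Helper38/FD/Twist.lean`), `Gal(J/K)` is cyclic (`cycJ`: it embeds by `ψ₀^p` in `ℂ_pˣ`) of order dividing
`p^l` (`degJ`). `E₁` is Galois over `K` (image of `M₁`), so is `M₂ = E₁ ⊔ J` (`gM₂`). `t1`-`t4`: the compatibilities.
`lin₂` is clear (`M₂ = E₁ ⊔ J`). `splJ`: let `V` be a prime of `J` above `p`, `v` below it, `V'` a prime of `F₀` above
`V`. If `g ∈ Gal(J/K)` preserves the valuation of `V`, extend it to `g' ∈ Gal(F₀/K)`; `g' V'` is above `V`, so it is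
`h V'` with `h ∈ Gal(F₀/J)`, and `h⁻¹ g'` preserves the valuation of `V'`, so it is trivial (`free_of_splits`,
`Pool/Agent/Helper38/FD/Split.lean`) and `g = 1` (this is `free_bel` in `Pool/Agent/Helper79/PP/PVIS.lean`).
*Commuting:* `Gal(M₂ ⊔ F₀/K)` embeds in `Gal(M/K) × Gal(K₁/K) × Gal(F₀/K)` (`lin` of `SitW`; `M₂ ⊔ F₀ = E₁ ⊔ F₀`), a
product of abelian groups (`ord`: `Gal(M/K) = ⟨δ⟩`; `gen`: `Gal(K₁/K)` embeds in `(ZMod p)ˣ`; `ψ₀`). For `g` fixing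
`M₂ ⊇ J`, `ψ₀ g^p = 1`. `B_KU1` gives `a₀`, `s₀`, `B_KU4` gives `om`, `B_KU5` gives `cyc`, `B_KU2` gives `powp`
(`FreeP` for the primes of `F₀` above `p`: `free_of_splits`). -/
def B_KUM : Prop :=
  ∀ (p : ℕ) [Fact p.Prime] (K M K₁ M₁ : Type) [Field K] [NumberField K] [Field M] [NumberField M]
    [Field K₁] [NumberField K₁] [Field M₁] [NumberField M₁] [Algebra K M] [Algebra K K₁]
    [Algebra K M₁] [Algebra M M₁] [Algebra K₁ M₁] (ε : K₁) (δ : M ≃ₐ[K] M) (P : (ZMod p)[X]),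
    SitW p K M K₁ M₁ ε δ P →
  ∀ (j₁ : M₁ →+* AlgebraicClosure K) (E₁ : IntermediateField K (AlgebraicClosure K)),
    (∀ x : K, j₁ (algebraMap K M₁ x) = algebraMap K (AlgebraicClosure K) x) →
    (∀ y, y ∈ E₁ ↔ ∃ x, j₁ x = y) →
  ∀ εk : ℂ_[p]ˣ, IsPrimitiveRoot εk p →
  ∀ (ψ₀ : Chr K (AlgebraicClosure K) ℂ_[p]) (F₀ : IntermediateField K (AlgebraicClosure K)),
    CutsOut ψ₀ F₀ → (∃ l : ℕ, finrank K F₀ = p ^ l) →
    (∀ v : HeightOneSpectrum (𝓞 K), (p : 𝓞 K) ∈ v.asIdeal → SplitsIn (finrank K F₀) F₀ v) →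
  ∀ (J M₂ : IntermediateField K (AlgebraicClosure K)) [NumberField J] [NumberField M₂]
    [Algebra M M₂] [Algebra K₁ M₂] [Algebra M₁ M₂] [Algebra J M₂],
    (∀ x : M, ((algebraMap M M₂ x : M₂) : AlgebraicClosure K) = j₁ (algebraMap M M₁ x)) →
    (∀ x : K₁, ((algebraMap K₁ M₂ x : M₂) : AlgebraicClosure K) = j₁ (algebraMap K₁ M₁ x)) →
    (∀ x : M₁, ((algebraMap M₁ M₂ x : M₂) : AlgebraicClosure K) = j₁ x) →
    (∀ x : J, ((algebraMap J M₂ x : M₂) : AlgebraicClosure K) = x) →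
    CutsOut (ψ₀ ^ p) J → M₂ = E₁ ⊔ J →
  ∃ (a₀ : (M₂)ˣ) (s₀ : AlgebraicClosure K), SitBs p K M K₁ M₁ J M₂ ε δ P a₀ ∧ s₀ ∈ M₂ ⊔ F₀ ∧
    s₀ ^ p = ((a₀ : M₂) : AlgebraicClosure K) ∧
    ∀ g : AlgebraicClosure K ≃ₐ[K] AlgebraicClosure K, (∀ x ∈ M₂, g x = x) → ∀ i : ℕ,
      g s₀ = j₁ (algebraMap K₁ M₁ ε) ^ i * s₀ → ψ₀ g = εk ^ i

/-- **B_SWT** (the tower `K ⊆ M, K(ε) ⊆ M(ε)` for all `M`). Compare `tower_of` in
`Pool/Agent/Helper77/PPL/DENF.lean` and `sitW_tower` in `Pool/Agent/Helper42/PP1/BSM.lean`.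

PROOF. `K₁ = K(ε)`, `M₁ = M ⊔ K₁`, as in `tower_of`. `lin`, `gen`, `prim`: there. `c1`, `c2`: `[M₁ : M]` divides
`[K₁ : K]`, which divides `p - 1`, and `[M₁ : K₁]` divides `[M : K]` (`finrank_dvd`, `finrank_dvd_pred` in
`Pool/Agent/Helper14/RD/TOW.lean`). `vis`: the proof of `p_vis` (`Pool/Agent/Helper79/PP/PVIS.lean`) uses only `lin` and
`prim` of the tower (copy it). `irr`, `dvdP`, `copm`, `ord`, `nsp` are hypotheses. -/
def B_SWT : Prop :=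
  ∀ (p : ℕ) [Fact p.Prime] (K : Type) [Field K] [NumberField K]
    (M : IntermediateField K (AlgebraicClosure K)) [NumberField M] [IsGalois K M],
    (finrank K M).Coprime p → ∀ ε : AlgebraicClosure K, IsPrimitiveRoot ε p →
  ∀ (δ : M ≃ₐ[K] M) (P : (ZMod p)[X]), orderOf δ = finrank K M → Irreducible P →
    P ∣ X ^ finrank K M - 1 →
    (∀ w : HeightOneSpectrum (𝓞 M), ¬ FreeP K w → ∀ x : (M)ˣ, Pw p (pol P δ x) →
      (p : ℤ) ∣ ordv w (x : M)) →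
  ∃ (K₁ M₁ : IntermediateField K (AlgebraicClosure K)) (_ : NumberField K₁) (_ : NumberField M₁)
    (_ : Algebra M M₁) (_ : Algebra K₁ M₁) (ε₁ : K₁),
    IsScalarTower K M M₁ ∧ IsScalarTower K K₁ M₁ ∧
    (∀ x : M, ((algebraMap M M₁ x : M₁) : AlgebraicClosure K) = x) ∧
    (∀ x : K₁, ((algebraMap K₁ M₁ x : M₁) : AlgebraicClosure K) = x) ∧
    (ε₁ : AlgebraicClosure K) = ε ∧ K₁ = IntermediateField.adjoin K {ε} ∧ M₁ = M ⊔ K₁ ∧
    Cyc p K K₁ ε₁ ∧ SitW p K M K₁ M₁ ε₁ δ P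

/-- **B_NTV** (`χ₀` is not congruent to the cyclotomic character). If `χ₀(g)` is not congruent to `r` for some `g`
which acts on the `p`-th roots of unity as the `r`-th power then `TorOK P δ` and `NTV` hold.

PROOF (from `ntv_gen`, a theorem, `Pool/Agent/Helper76/PP/NTVG.lean`). Let `ζ = χ₀(δ)`, `‖ζ‖ = 1`, and `g|_M = δ^t`
(`δ` generates `Gal(M/K)`: its order is `[M : K]`), so `χ₀(g) = ζ^t`, `‖ζ^t - r‖ = 1`. (0) If `U ∈ ℤ[X]` and `P`
divides the reduction of `U` then `‖U(ζ)‖ < 1`: lift the cofactor: `U = Φ V + p W` in `ℤ_p[X]` (`PhiData.map`), `Φ(ζ) = 0`,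
`‖W(ζ)‖ ≤ 1`, `‖p‖ < 1`. So `P` does not divide `X^t - r`: `root^t ≠ r` in `AdjoinRoot P`. (1) *NTV*: `ntv_gen` with
the restriction of `g` to `M₁`, `i = t`, `σ` the restriction to `K₁`; `nsig p ε σ = r` (`nsig_eq`: `σ ε = ε^r`).
(2) *TorOK*: if `M` contains no primitive `p`-th root of unity then the `ξ` with `ξ^(p^n) = 1` are `1`, and every `i`
with `P(i) ≠ 0` works; there is one: `P` is irreducible, so it has at most one root in `ZMod p` (if it has a root `c`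
it is associated to `X - c`), and `ZMod p` has at least two elements. Otherwise the `ξ ∈ M` with `ξ^(p^n) = 1` form a
cyclic group of order `p^b`, `b ≥ 1`, on which `δ` acts as `ξ ↦ ξ^i`. If `P(i) = 0`, then `P` is associated to `X - i`,
so it divides `X^t - i^t`; for a primitive `p`-th root of unity `ξ ∈ M`, `ξ^r = g ξ = δ^t ξ = ξ^(i^t)`, so
`r ≡ i^t mod p` and `P` divides `X^t - r`, a contradiction. -/
def B_NTV : Prop :=
  ∀ (p : ℕ) [Fact p.Prime] (K : Type) [Field K] [NumberField K]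
    (M K₁ M₁ : IntermediateField K (AlgebraicClosure K)) [NumberField M] [NumberField K₁]
    [NumberField M₁] [IsGalois K M] [Algebra M M₁] [Algebra K₁ M₁],
    (∀ x : M, ((algebraMap M M₁ x : M₁) : AlgebraicClosure K) = x) →
    (∀ x : K₁, ((algebraMap K₁ M₁ x : M₁) : AlgebraicClosure K) = x) →
  ∀ (ε : K₁) (δ : M ≃ₐ[K] M) (P : (ZMod p)[X]), SitW p K M K₁ M₁ ε δ P →
  ∀ (χ₀ : (M ≃ₐ[K] M) →* ℂ_[p]ˣ) (Φ : ℤ_[p][X]), orderOf δ = finrank K M →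
    PhiData p (finrank K M) ((χ₀ δ : ℂ_[p]ˣ) : ℂ_[p]) Φ P →
    (∃ (g : AlgebraicClosure K ≃ₐ[K] AlgebraicClosure K) (r : ℕ),
      (∀ ξ : AlgebraicClosure K, ξ ^ p = 1 → g ξ = ξ ^ r) ∧
      ‖((χ₀ (AlgEquiv.restrictNormalHom M g) : ℂ_[p]ˣ) : ℂ_[p]) - r‖ = 1) →
  TorOK P δ ∧ NTV p M₁ ε δ P

/-- **B_CHR** (classes and characters). `nf` is a map as in `PP.D_MAP`. The classes `c` of type `ω`, `c ≠ 1`,
correspond one-to-one to the characters of order `p`, by the Kummer relation with respect to the roots of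
unity `ε` of `K₁` and `εk` of `ℂ_p`.

PROOF. `ε' = j ε`, `K₁' = j(K₁)`, `[K₁' : K]` is prime to `p` (`LE.L_CYC`). Let `c ∈ BSet`, `N = nf c`. *Existence of
`cf c`:* choose `a₁` with `clp a₁ = c`, not a `p`-th power, `s₁^p = j(a₁)`; `s₁ ∉ K₁'`, and `K₁'(s₁) = N K₁'` has degree
`p` over `K₁'` (`Gen`; see `PP.D_UNQ`, `Pool/Agent/Helper46/PP/DUNQ.lean`); let `g₁` fix `K₁'` with `g₁ s₁ = ε' s₁`
(`X^p - j(a₁)` is irreducible over `K₁'`). By `Gen` the restriction of `g₁` to `N` is not trivial, so it generates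
`Gal(N/K)`, of order `p`. There is exactly one character of `Gal(N/K)` with value `εk` at it (the homomorphism
`ZMod p → Gal(N/K)` is an isomorphism); `cf c` is its composition with the restriction. `CutsOut (cf c) N`, because it
is injective on `Gal(N/K)`. *Kummer relation:* let `clp a = c`, `a = a₁ y^p`, `s^p = j(a)`; `s = s₁ j(y) ε'^e`, so
`g s/s = g s₁/s₁` for `g` fixing `K₁'`. If `g s₁ = ε'^i s₁` then `g₁^(-i) g` fixes `s₁` and `K₁'`, hence `N ⊆ K₁'(s₁)`,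
so `cf c g = cf c (g₁^i) = εk^i`. (For `c ∉ BSet` let `cf c = 1`.) *Bijection:* (i) `cf` is injective on the set
`A_N` of the `c ∈ BSet` with `nf c = N`: let `cf c = cf c'`, `a`, `a'` in the classes, `s`, `s'`, `g₁` as above for
`a`; `cf c' g₁ = εk`, so by the Kummer relation for `c'` `g₁ s' = ε' s'` (`g₁ s' = ε'^i s'` for some `i`, and
`εk^i = εk`). So `s'/s ∈ N K₁' = K₁'(s)` is fixed by `g₁` (and by the automorphisms fixing `N K₁'`), so it is in `K₁'`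
(`Gal(N K₁'/K₁')` is generated by `g₁`), `a' = a z^p`, `c = c'`. (ii) The characters which cut out `N` are the
injective characters of the cyclic group `Gal(N/K)` of order `p`, determined by the value at a generator, a
primitive `p`-th root of unity of `ℂ_p`: there are `p - 1` of them; `A_N` has `p - 1` elements. So `cf : A_N → {φ : CutsOut
φ N}` is bijective. (iii) If `c ∈ BSet` and `cf c = φ` with `CutsOut φ N` then `nf c = N`: both are the fixed field of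
the kernel of `φ` (`Ω/K` is Galois). -/
def B_CHR : Prop :=
  ∀ (p : ℕ) [Fact p.Prime] (K K₁ : Type) [Field K] [NumberField K] [Field K₁] [NumberField K₁]
    [Algebra K K₁] (ε : K₁), Cyc p K K₁ ε → ∀ (j : K₁ →+* AlgebraicClosure K),
    (∀ x : K, j (algebraMap K K₁ x) = algebraMap K (AlgebraicClosure K) x) →
  ∀ εk : ℂ_[p]ˣ, IsPrimitiveRoot εk p →
  ∀ nf : ClP p K₁ → IntermediateField K (AlgebraicClosure K),
    (∀ c ∈ BSet p K ε, nf c ∈ CycN p K ∧ ∀ a : K₁ˣ, clp p a = c → Gen p j a (nf c)) →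
    (∀ N ∈ CycN p K, {c | c ∈ BSet p K ε ∧ nf c = N}.ncard = p - 1) →
  ∃ cf : ClP p K₁ → Chr K (AlgebraicClosure K) ℂ_[p],
    (∀ c ∈ BSet p K ε, CutsOut (cf c) (nf c) ∧ ∀ a : K₁ˣ, clp p a = c →
      ∀ s : AlgebraicClosure K, s ^ p = j (a : K₁) →
      ∀ g : AlgebraicClosure K ≃ₐ[K] AlgebraicClosure K, (∀ x : K₁, g (j x) = j x) → ∀ i : ℕ,
        g s = j ε ^ i * s → cf c g = εk ^ i) ∧
    ∀ N ∈ CycN p K, ∀ φ : Chr K (AlgebraicClosure K) ℂ_[p], CutsOut φ N →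
      ∃! c, c ∈ BSet p K ε ∧ nf c = N ∧ cf c = φ

/-- The characters of order `p`: the pairs `(N, φ)`, `N/K` cyclic of degree `p`, `φ` a character which cuts
out `N`. -/
def ChN (p : ℕ) [Fact p.Prime] (K : Type) [Field K] :
    Set (IntermediateField K (AlgebraicClosure K) × Chr K (AlgebraicClosure K) ℂ_[p]) :=
  {x | x.1 ∈ CycN p K ∧ CutsOut x.2 x.1}

/-- The pairs `(N, φ)` in `ChN` for which the primes above `p` split completely in `N`. -/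
def ChF (p : ℕ) [Fact p.Prime] (K : Type) [Field K] :
    Set (IntermediateField K (AlgebraicClosure K) × Chr K (AlgebraicClosure K) ℂ_[p]) :=
  {x | x.1 ∈ CycF p K ∧ CutsOut x.2 x.1}

/-- **B_ASM** (from classes to characters; compare `PPO.O_ASM`). `Bd r` are sets of classes, `G` is a set of
characters, `Z` a finite set of classes; the classes `c ∈ ASet`, `c ∉ Z`, whose character is not in `G` are in some
`Bd r`.

PROOF (from `PP.D_CMP`, `PP.D_NAT`, `PP.D_BFN`; compare `Pool/Agent/Helper30/PPO/OASM.lean`). The map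
`c ↦ (nf c, cf c)` is a bijection from `ASet` to `ChF` and from `BSet` to `ChN`, and `cond K (nf c) = condC K c` for
`c ∈ ASet`. (1) Summability is transported by this bijection. (2) The sum over the `x ∈ ChF`, `x ∉ G`, is at most
`#Z` plus the sum over `r` of the sums over the `c ∈ ASet ∩ Bd r`. Let `A(X) = ∑_{c ∈ ASet} e^(-condC c/X)`; it tends
to infinity: `ASet` has more than `2 m` elements for every `m`, and for these finitely many `c` the terms are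
`≥ 1/2` for large `X`. Let `η' = η/(n + 1)`; for large `X` the sum is at most `#Z + n (θ + η') A(X)` and
`#Z ≤ η' A(X)`; the total is at most `(n θ + η) A(X)`. (3) `D_BFN`, and for every `N` there are finitely many `φ`
(`{c ∈ BSet : nf c = N}` has `p - 1` elements, so it is finite; the bijection). (4) As in `O_ASM`: `D_NAT` for
`ι = ChF`, `f x = cond K x.1`, gives `c₀ A'(X) ≤ #{x ∈ ChF : x ∈ G, f ≤ X}` with `A'(X) = #{x ∈ ChF : f ≤ X}`;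
`#{x ∈ ChN : cond ≤ X} = (p - 1) #{N ∈ CycN : cond ≤ X} ≤ (p - 1) C (#{N ∈ CycF : cond ≤ C X} + 1)` by `D_CMP`, and
`#{N ∈ CycF : cond ≤ C X} ≤ A'(C X) ≤ C' A'(X)` for large `X` by the doubling property. -/
def B_ASM : Prop :=
  ∀ (p : ℕ) [Fact p.Prime] (K K₁ : Type) [Field K] [NumberField K] [Field K₁] [NumberField K₁]
    [Algebra K K₁] (ε : K₁) (nf : ClP p K₁ → IntermediateField K (AlgebraicClosure K))
    (cf : ClP p K₁ → Chr K (AlgebraicClosure K) ℂ_[p]),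
    (∀ c ∈ BSet p K ε, nf c ∈ CycN p K) →
    (∀ N ∈ CycN p K, {c | c ∈ BSet p K ε ∧ nf c = N}.ncard = p - 1) →
    (∀ c ∈ BSet p K ε, (c ∈ ASet p K ε ↔ nf c ∈ CycF p K)) →
    (∀ c ∈ ASet p K ε, cond K (nf c) = condC K c) →
    (∀ c ∈ BSet p K ε, CutsOut (cf c) (nf c)) →
    (∀ N ∈ CycN p K, ∀ φ : Chr K (AlgebraicClosure K) ℂ_[p], CutsOut φ N →
      ∃! c, c ∈ BSet p K ε ∧ nf c = N ∧ cf c = φ) →
  ∀ (n : ℕ) (Bd : Fin n → Set (ClP p K₁))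
    (G : Set (IntermediateField K (AlgebraicClosure K) × Chr K (AlgebraicClosure K) ℂ_[p]))
    (Z : Set (ClP p K₁)) (θ : ℝ), 0 ≤ θ → Z.Finite →
    (∀ c ∈ ASet p K ε, c ∉ Z → (nf c, cf c) ∉ G → ∃ r, c ∈ Bd r) →
    (∀ X : ℝ, 0 < X → Summable fun c : ASet p K ε ↦ Real.exp (-(condC K c.1 : ℝ) / X)) →
    (∀ X : ℝ, {c | c ∈ ASet p K ε ∧ (condC K c : ℝ) ≤ X}.Finite) →
    (∃ C X₀ : ℝ, 0 < X₀ ∧ ∀ X : ℝ, X₀ ≤ X →
      ({c | c ∈ ASet p K ε ∧ (condC K c : ℝ) ≤ 2 * X}.ncard : ℝ) ≤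
        C * {c | c ∈ ASet p K ε ∧ (condC K c : ℝ) ≤ X}.ncard) →
    (ASet p K ε).Infinite →
    (∀ r, ∀ η : ℝ, 0 < η → ∀ᶠ X : ℝ in Filter.atTop,
      ∑' c : {c | c ∈ ASet p K ε ∧ c ∈ Bd r}, Real.exp (-(condC K c.1 : ℝ) / X) ≤
        (θ + η) * ∑' c : ASet p K ε, Real.exp (-(condC K c.1 : ℝ) / X)) →
  (∀ X : ℝ, 0 < X → Summable fun x : ChF p K ↦ Real.exp (-(cond K x.1.1 : ℝ) / X)) ∧
  (∀ η : ℝ, 0 < η → ∀ᶠ X : ℝ in Filter.atTop,
    ∑' x : {x | x ∈ ChF p K ∧ x ∉ G}, Real.exp (-(cond K x.1.1 : ℝ) / X) ≤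
      (n * θ + η) * ∑' x : ChF p K, Real.exp (-(cond K x.1.1 : ℝ) / X)) ∧
  (∀ X : ℕ, {x | x ∈ ChN p K ∧ cond K x.1 ≤ X}.Finite) ∧
  (n * θ < 1 → ∃ c : ℝ, 0 < c ∧ ∀ᶠ X : ℕ in Filter.atTop,
    0 < {x | x ∈ ChN p K ∧ cond K x.1 ≤ X}.ncard ∧
    c * {x | x ∈ ChN p K ∧ cond K x.1 ≤ X}.ncard ≤
      {x | x ∈ ChF p K ∧ cond K x.1 ≤ X ∧ x ∈ G}.ncard)

/-- `E` is a companion of `N` for the base character `χ₀ ψ₀` with fields `M`, `F₀`. -/
structure CompB (p : ℕ) {K : Type} [Field K]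
    (M F₀ N E : IntermediateField K (AlgebraicClosure K)) : Prop where
  deg : ∃ l : ℕ, finrank K E = p ^ l
  split : ∀ v : HeightOneSpectrum (𝓞 K), (p : 𝓞 K) ∈ v.asIdeal ∨ RamIn N v ∨ RamIn F₀ v →
    SplitsIn (finrank K E) E v
  unr : ∀ v : HeightOneSpectrum (𝓞 K), SplitsIn (finrank K M) M v → ¬ RamIn E v

/-- The `Σ`-Leopoldt statement holds for `χ₀ ψ₀ φ ψ`, for all the characters `ψ` which cut out a companion. -/
def GoodB {p : ℕ} [Fact p.Prime] {K : Type} [Field K] [NumberField K]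
    (ιinf : AlgebraicClosure K →+* ℂ) (ιp : AlgebraicClosure K →+* ℂ_[p]) (Lg : IwasawaLog p ℂ_[p])
    (S : Set (K →+* ℂ)) (M F₀ : IntermediateField K (AlgebraicClosure K))
    (χ₀ ψ₀ : Chr K (AlgebraicClosure K) ℂ_[p])
    (x : IntermediateField K (AlgebraicClosure K) × Chr K (AlgebraicClosure K) ℂ_[p]) : Prop :=
  ∀ (E : IntermediateField K (AlgebraicClosure K)) (ψ : Chr K (AlgebraicClosure K) ℂ_[p]),
    CompB p M F₀ x.1 E → CutsOut ψ E → LeopoldtFor ιinf ιp Lg S (χ₀ * ψ₀ * x.2 * ψ)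

/-- **B_DEN** (the density theorem for general base characters). Family of data: `p`-ordinary CM types `S i`,
characters `χ₀ i` of order prime to `p` (field `M i`), not congruent to the cyclotomic character `ω` modulo the
maximal ideal, characters `ψ₀ i` of `p`-power order, with field `F₀ i` in which the primes above `p` split
completely; `χ₀ i = 1` and `[F₀ i : K] ≤ p²`, or `χ₀ i ≠ 1` and (`M i` is not contained in `K(μ_p)` or
`[F₀ i : K] ≥ p²`); at most `n` classes.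

PROOF (from `MOMB`, `MOMB1`, `B_KUM`, `B_SWT`, `B_NTV`, `B_CHR`, `B_KU3`, `B_GL1`, `B_GL0`, `B_ASM`, `PP.D_MAP`,
`PP.D_NLS`, `RP.S_PHI`, `RP.S_NSP`, `RD.E_FRB`). As the proof of `PPL.D_DENF`, `Pool/Agent/Helper77/PPL/DENF.lean`. Let
`K₁ = K(ε) ⊆ Ω`, `j` the inclusion, `εk` a primitive `p`-th root of unity of `ℂ_p`, `nf`, `cf` given by `D_MAP`,
`B_CHR`. For every class `r` with an element choose one, `i_r`, and let `M₁`, `δ`, `P` be as in `D_DENF` (case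
`χ₀ ≠ 1`, `B_SWT`, `B_NTV`) or `M := K`, `M₁ = K₁`, `δ = 1`, `P = X - 1` (case `χ₀ = 1`; `sitW_one`), `J` the field of
`ψ₀^p`, `M₂ = M₁ J`, and `a₀`, `s₀` given by `B_KUM`. `Bd r` is the set `BdB` of `MOMB`, `MOMB1`; the constants are at
most `θ = Q/(p (Q - 1))` (`t ↦ t/(t - 1)` is decreasing; `Q ≤ p^(deg P)`; `1 < [M₂ : K₁]`: if `M ⊄ K₁` clear; otherwise
`J ≠ K`, `[J : K]` is a power of `p` and `[K₁ : K]` is prime to `p`). `Z` is the union over `r` of the sets of the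
`c ∈ ASet` such that every `v` ramified in `nf c` is ramified in `F₀ (i_r)`; it is finite: `cond K (nf c)` divides
`∏ N(v)` over the finitely many `v` ramified in `F₀ (i_r)` (`ram_finite`, `cond_eq` in
`Pool/Agent/Helper95/PP/DCMP.lean`), and the `c ∈ ASet` with `condC ≤ X` are finitely many. CLAIM: let `c ∈ ASet`,
`c ∉ Z`, `i ∈ ι`, `r = c i`, and suppose `c ∉ Bd r`. Then `(nf c, cf c)` satisfies `GoodB` for `i`. Let `φ = cf c`,
`N = nf c`, `ψ₁ = ψ₀ φ`, `E`, `ψ` as in `GoodB`, `a` of class `c` of type `ω` and `NiceU`, `α = a₀ a`, `s^p = a`.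
`OmType α`: product of elements of type `ω` (`om` of `SitB`, and `OmType a` for the restriction to `K₁`). `NiceU α`:
`powp` and `NiceU a`, `D_NLS`. *Automorphisms:* `s₁ = s₀ s` (and the other `p`-th roots of `α`, `ε^t s₀ s`); if `g`
fixes `M₂` and `ψ₁ g = 1`, `g s₀ = ε^i s₀`, `g s = ε^l s`, then `εk^(i + l) = ψ₀ g φ g = 1`, `p ∣ i + l`,
`g (s₀ s) = s₀ s`. *The last hypothesis of `B_GL1`, `B_GL0`:* let `q` be a prime ramified in `N` and not in `F₀`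
(`c ∉ Z`). `q` is not ramified in `E` (it splits completely, see `D_UNR`), so it is not ramified in any subfield of
`F₀ E` (`ram_sup` in `Pool/Agent/Helper22/PP/DPRD.lean`), so `N ⊄ F₀ ⊔ E` and there is `g` fixing `F₀ ⊔ E ⊇ J ⊔ E` with
`φ g ≠ 1`, `ψ₀ g = 1`. *`¬ Pw α`:* this `g`, raised to the power `[M₁ : K]`, fixes `M₂` and has `ψ₁ ≠ 1`; if `α = y^p`,
`y ∈ M₂`, then `s₀ s = ε^t y ∈ M₂` is fixed by it, so `g s₀ = ε^i s₀`, `g s = ε^(-i) s`, and `ψ₁ g = 1`, a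
contradiction. *Primes:* if `p ∤ ord_W(α)`, `W` above `v`, then `p ∤ ord_W(a₀)` or `p ∤ ord_W(a)`, so `v` is
ramified in `F₀` (`B_KU3`) or in `N` (`B_KU3` for `N`; `s ∈ M₂ ⊔ N` by `Gen`), and `FreeP` by `free_of_splits`.
`unr`: `splits_of_free`, `ordv_of_unram` (`Pool/Agent/Helper38/FD/Split.lean`). The characters: `χ₀ i = (χ₀ i_r)^(p^l)`:
the same `P` (`E_FRB`); `M i = M i_r`, because the `p^l`-th power of a character of order prime to `p` has the same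
kernel. -/
def B_DEN : Prop :=
  ∀ (p : ℕ) [Fact p.Prime] (K : Type) [Field K] [NumberField K] (ιinf : AlgebraicClosure K →+* ℂ)
    (ιp : AlgebraicClosure K →+* ℂ_[p]) (Lg : IwasawaLog p ℂ_[p]) (ι : Type) [Nonempty ι] (n : ℕ)
    (c : ι → Fin n) (S : ι → Set (K →+* ℂ))
    (M F₀ : ι → IntermediateField K (AlgebraicClosure K))
    (χ₀ ψ₀ : ι → Chr K (AlgebraicClosure K) ℂ_[p]),
    (∀ i, IsCMType (S i)) → (∀ i, IsOrdinary ιinf ιp (S i)) →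
    (∀ i, FiniteDimensional K (M i)) → (∀ i, CutsOut (χ₀ i) (M i)) →
    (∀ i, (finrank K (M i)).Coprime p) →
    (∀ i, ∃ (g : AlgebraicClosure K ≃ₐ[K] AlgebraicClosure K) (r : ℕ),
      (∀ ξ : AlgebraicClosure K, ξ ^ p = 1 → g ξ = ξ ^ r) ∧
      ‖((χ₀ i g : ℂ_[p]ˣ) : ℂ_[p]) - r‖ = 1) →
    (∀ i, (M i = ⊥ ∧ finrank K (F₀ i) ≤ p ^ 2) ∨ (M i ≠ ⊥ ∧ (p ^ 2 ≤ finrank K (F₀ i) ∨
      ∀ ξ : AlgebraicClosure K, IsPrimitiveRoot ξ p →
        ¬ M i ≤ IntermediateField.adjoin K {ξ}))) →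
    (∀ i, CutsOut (ψ₀ i) (F₀ i)) → (∀ i, ∃ l : ℕ, finrank K (F₀ i) = p ^ l) →
    (∀ i, ∀ v : HeightOneSpectrum (𝓞 K), (p : 𝓞 K) ∈ v.asIdeal →
      SplitsIn (finrank K (F₀ i)) (F₀ i) v) →
    (∀ i j, c i = c j → S i = S j ∧ (∃ r : ℕ, χ₀ i = χ₀ j ^ p ^ r) ∧ ψ₀ i = ψ₀ j) →
  ∀ Q : ℕ, 1 < Q → (∀ i, Q ≤ p ^ orderOf (p : ZMod (finrank K (M i)))) →
  (∀ X : ℝ, 0 < X → Summable fun x : ChF p K ↦ Real.exp (-(cond K x.1.1 : ℝ) / X)) ∧
  (∀ η : ℝ, 0 < η → ∀ᶠ X : ℝ in Filter.atTop,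
    ∑' x : {x | x ∈ ChF p K ∧
        ∃ i, ¬ GoodB ιinf ιp Lg (S i) (M i) (F₀ i) (χ₀ i) (ψ₀ i) x},
      Real.exp (-(cond K x.1.1 : ℝ) / X) ≤
    ((n : ℝ) * Q / (p * (Q - 1)) + η) * ∑' x : ChF p K, Real.exp (-(cond K x.1.1 : ℝ) / X)) ∧
  (∀ X : ℕ, {x | x ∈ ChN p K ∧ cond K x.1 ≤ X}.Finite) ∧
  (n * Q < p * (Q - 1) → ∃ c : ℝ, 0 < c ∧ ∀ᶠ X : ℕ in Filter.atTop,
    0 < {x | x ∈ ChN p K ∧ cond K x.1 ≤ X}.ncard ∧
    c * {x | x ∈ ChN p K ∧ cond K x.1 ≤ X}.ncard ≤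
      {x | x ∈ ChF p K ∧ cond K x.1 ≤ X ∧
        ∀ i, GoodB ιinf ιp Lg (S i) (M i) (F₀ i) (χ₀ i) (ψ₀ i) x}.ncard)

end Pool.Agent.Helper77.PPB
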