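import Pool.Agent.Helper77.PPB.BASM1
import Pool.Agent.Helper11.PB.Goals2
import Pool.Agent.Helper32.LE.FSIG

/-!
# Project PPB (MP_fc6b1e_nt): the density theorem for general base characters
-/

namespace Pool.Agent.Helper77.PPB

open NumberField Polynomial Module IsDedekindDomain TensorProduct Pool.Agent.Helper51.SigLeo
open Pool.Agent.Helper51.RP Pool.Agent.Helper42.RD Pool.Agent.Helper11.LE Pool.Agent.Helper11.PP
open Pool.Agent.Helper38.FD (Chr CutsOut LeopoldtFor IsOrdinary isGalois_of_cutsOut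
  free_of_splits splits_of_free ordv_of_unram exists_cutsOut exists_faithful fix_sup pow_card_desc
  Restricts)
open Pool.Agent.Helper11.PB (MomC BdB MOMB MOMB1A)

/-- **B_DEN2** (the density theorem for general base characters). As `B_DEN`, for all `ψ₀` if `χ₀ = 1`: the
base characters are `χ₀ i ψ₀ i`, `χ₀ i` of order prime to `p`, not congruent to `ω`, with field `M i`, `ψ₀ i` of
`p`-power order with field `F₀ i`, in which the primes above `p` split completely; `M i = K`, or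
`[F₀ i : K] ≥ p²`, or `M i` is not contained in `K(μ_p)`. -/
def B_DEN2 : Prop :=
  ∀ (p : ℕ) [Fact p.Prime] (K : Type) [Field K] [NumberField K] (ιinf : AlgebraicClosure K →+* ℂ)
    (ιp : AlgebraicClosure K →+* ℂ_[p]) (Lg : IwasawaLog p ℂ_[p]) (ι : Type) [Nonempty ι] (n : ℕ)
    (c : ι → Fin n) (S : ι → Set (K →+* ℂ))
    (M F₀ : ι → IntermediateField K (AlgebraicClosure K))
    (χ₀ ψ₀ : ι → Chr K (AlgebraicClosure K) ℂ_[p]),
    (∀ i, IsCMType (S i)) → (∀ i, IsOrdinary ιinf ιp (S i)) →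
    (∀ i, FiniteDimensional K (M i)) → (∀ i, CutsOut (χ₀ i) (M i)) →
    (∀ i, (finrank K (M i)).Coprime p) →
    (∀ i, ∃ (g : AlgebraicClosure K ≃ₐ[K] AlgebraicClosure K) (r : ℕ),
      (∀ ξ : AlgebraicClosure K, ξ ^ p = 1 → g ξ = ξ ^ r) ∧
      ‖((χ₀ i g : ℂ_[p]ˣ) : ℂ_[p]) - r‖ = 1) →
    (∀ i, M i = ⊥ ∨ p ^ 2 ≤ finrank K (F₀ i) ∨ ∀ ξ : AlgebraicClosure K, IsPrimitiveRoot ξ p →
      ¬ M i ≤ IntermediateField.adjoin K {ξ}) →
    (∀ i, CutsOut (ψ₀ i) (F₀ i)) → (∀ i, ∃ l : ℕ, finrank K (F₀ i) = p ^ l) →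
    (∀ i, ∀ v : HeightOneSpectrum (𝓞 K), (p : 𝓞 K) ∈ v.asIdeal →
      SplitsIn (finrank K (F₀ i)) (F₀ i) v) →
    (∀ i j, c i = c j → S i = S j ∧ (∃ r : ℕ, χ₀ i = χ₀ j ^ p ^ r) ∧ ψ₀ i = ψ₀ j) →
  ∀ Q : ℕ, 1 < Q → (∀ i, Q ≤ p ^ orderOf (p : ZMod (finrank K (M i)))) →
  (∀ X : ℝ, 0 < X → Summable fun x : ChF p K ↦ Real.exp (-(cond K x.1.1 : ℝ) / X)) ∧
  (∀ η : ℝ, 0 < η → ∀ᶠ X : ℝ in Filter.atTop,
    ∑' x : {x | x ∈ ChF p K ∧
        ∃ i, ¬ GoodB ιinf ιp Lg (S i) (M i) (F₀ i) (χ₀ i) (ψ₀ i) x},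
      Real.exp (-(cond K x.1.1 : ℝ) / X) ≤
    ((n : ℝ) * Q / (p * (Q - 1)) + η) * ∑' x : ChF p K, Real.exp (-(cond K x.1.1 : ℝ) / X)) ∧
  (∀ X : ℕ, {x | x ∈ ChN p K ∧ cond K x.1 ≤ X}.Finite) ∧
  (n * Q < p * (Q - 1) → ∃ c : ℝ, 0 < c ∧ ∀ᶠ X : ℕ in Filter.atTop,
    0 < {x | x ∈ ChN p K ∧ cond K x.1 ≤ X}.ncard ∧
    c * {x | x ∈ ChN p K ∧ cond K x.1 ≤ X}.ncard ≤
      {x | x ∈ ChF p K ∧ cond K x.1 ≤ X ∧
        ∀ i, GoodB ιinf ιp Lg (S i) (M i) (F₀ i) (χ₀ i) (ψ₀ i) x}.ncard)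

/-- If `χ₀ = 1` is not congruent to `ω` then `K` contains no primitive `p`-th root of unity. -/
theorem no_root {p : ℕ} [hpF : Fact p.Prime] {K : Type} [Field K] [NumberField K]
    {χ₀ : Chr K (AlgebraicClosure K) ℂ_[p]} (h1 : χ₀ = 1)
    (h : ∃ (g : AlgebraicClosure K ≃ₐ[K] AlgebraicClosure K) (r : ℕ),
      (∀ ξ : AlgebraicClosure K, ξ ^ p = 1 → g ξ = ξ ^ r) ∧
      ‖((χ₀ g : ℂ_[p]ˣ) : ℂ_[p]) - r‖ = 1) : ¬ ∃ ξ : K, IsPrimitiveRoot ξ p := by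
  have hp : p.Prime := hpF.out
  rintro ⟨ξ, hξ⟩
  obtain ⟨g, r, hg, hn⟩ := h
  have hξ' : IsPrimitiveRoot (algebraMap K (AlgebraicClosure K) ξ) p :=
    hξ.map_of_injective (algebraMap K (AlgebraicClosure K)).injective
  have h2 := hg _ hξ'.pow_eq_one
  rw [g.commutes] at h2
  -- `r ≡ 1 mod p`
  have h3 : (algebraMap K (AlgebraicClosure K) ξ) ^ ((r : ℤ) - 1) = 1 := by
    rw [zpow_sub₀ (hξ'.ne_zero hp.ne_zero), zpow_natCast, zpow_one, ← h2,
      div_self (hξ'.ne_zero hp.ne_zero)]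
  obtain ⟨k, hk⟩ := (hξ'.zpow_eq_one_iff_dvd _).1 h3
  rw [h1, MonoidHom.one_apply, Units.val_one] at hn
  have h4 : (1 : ℂ_[p]) - (r : ℂ_[p]) = algebraMap ℚ_[p] ℂ_[p] (((-(p * k) : ℤ) : ℤ_[p]) : ℚ_[p]) := by
    have h5 : (1 : ℤ) - r = -(p * k) := by rw [← hk]; ring
    have h6 : ((1 : ℤ) - (r : ℤ) : ℤ) = ((1 - r : ℤ)) := rfl
    rw [PadicInt.coe_intCast, map_intCast, ← h5]
    push_cast
    ring
  rw [h4, norm_algebraMap'] at hn
  have h7 : ‖(((-(p * k) : ℤ) : ℤ_[p]) : ℚ_[p])‖ < 1 := by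
    rw [PadicInt.coe_intCast, Padic.norm_intCast_lt_one_iff]
    exact dvd_neg.2 (dvd_mul_right _ _)
  rw [hn] at h7
  exact lt_irrefl _ h7

/-- `t ↦ t/(t - 1)` is decreasing. -/
theorem theta_le {p : ℝ} (hp : 0 < p) {Q R : ℝ} (hQ : 1 < Q) (h : Q ≤ R) :
    R / (p * (R - 1)) ≤ Q / (p * (Q - 1)) := by
  rw [div_le_div_iff₀ (mul_pos hp (by linarith)) (mul_pos hp (by linarith))]
  nlinarith

theorem b_den2 (hMB : MOMB) (hMB1 : MOMB1A) (hKU : B_KUM) (hSW : B_SWT) (hNT : B_NTV)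
    (h3 : B_KU3) (hG1 : B_GL1) (hG0 : B_GL0) (hMAP : D_MAP) (hCHR : B_CHR) (hASM : B_ASM)
    (hPH : S_PHI) (hNS : S_NSP) (hFR : Pool.Agent.Helper76.RD.E_FRB) : B_DEN2 := by
  classical
  intro p hpF K _ _ ιinf ιp Lg ι hι n c S M F₀ χ₀ ψ₀ hCM hord hfM hχ hcop hω hcase hψ hF hspl hc
    Q hQ1 hQ
  have hp : p.Prime := hpF.out
  obtain ⟨i₀⟩ := id hι
  have htc : IsTotallyComplex K := Pool.Agent.Helper35.RD.totallyComplex_of_cm (hCM i₀)
  have hcl : ∀ i, PlaceClosed (TSet ιinf ιp (S i)) := fun i =>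
    Pool.Agent.Helper35.RD.tset_closed ιinf ιp (S i) (hord i)
  have hcard : ∀ i, finrank ℚ K = 2 * (TSet ιinf ιp (S i)).ncard := fun i => by
    rw [Pool.Agent.Helper35.RD.tset_ncard, Pool.Agent.Helper35.RD.two_mul_ncard_cm (hCM i)]
  have hrk : ∀ i, Units.rank K + 1 ≤ (TSet ιinf ιp (S i)).ncard := fun i ↦
    Pool.Agent.Helper32.LE.rank_cm ιinf ιp (S i) (hCM i)
  have hp0 : (0 : ℝ) < p := by exact_mod_cast hp.pos
  have hp1 : (1 : ℝ) < p := by exact_mod_cast hp.one_lt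
  have hQR : (1 : ℝ) < Q := by exact_mod_cast hQ1
  have hθ : (0 : ℝ) ≤ (Q : ℝ) / (p * (Q - 1)) :=
    div_nonneg (by linarith) (mul_nonneg hp0.le (by linarith))
  have hall := asm hMAP hCHR hASM p K ιinf ιp Lg ι n c S M F₀ χ₀ ψ₀ hfM hχ hcop hψ hF hc
    ((Q : ℝ) / (p * (Q - 1))) hθ ?_
  · obtain ⟨q1, q2, q3, q4⟩ := hall
    refine ⟨q1, ?_, q3, ?_⟩
    · intro η hη
      rw [mul_div_assoc]
      exact q2 η hη
    · intro hnQ
      apply q4
      have h11 : (n : ℝ) * Q < p * (Q - 1) := by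
        have h12 : ((n * Q : ℕ) : ℝ) < ((p * (Q - 1) : ℕ) : ℝ) := by exact_mod_cast hnQ
        push_cast [hQ1.le] at h12
        exact h12
      rw [← mul_div_assoc, div_lt_one (mul_pos hp0 (by linarith))]
      exact h11
  · intro K₁ _ ε ε₁ εk nf cf hε hK₁ hε₁ hC hεk n1 n5 i
    by_cases hM : M i = ⊥
    · -- `χ₀ = 1`
      have hχ1 : χ₀ i = 1 := by
        ext g
        have h1 : χ₀ i g = 1 := by
          rw [(hχ i) g, hM]
          intro x hx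
          obtain ⟨y, rfl⟩ := IntermediateField.mem_bot.1 hx
          exact g.commutes y
        rw [h1]
        rfl
      have hμ := no_root hχ1 (hω i)
      obtain ⟨Bd, hBd, hgd⟩ := cls0 hKU h3 hG0 p K ιinf ιp Lg hμ K₁ ε₁ hC εk hεk nf cf n1 n5
        (S i) (hcl i) (F₀ i) (ψ₀ i) (hψ i) (hF i) (hspl i)
        (fun Bd => MomC p K ε₁ Bd ((Q : ℝ) / (p * (Q - 1)))) (by
          intro J M₂ _ _ _ _ a₀ hB
          refine momC_mono ?_ (hMB1 p Lg K K₁ J M₂ ε₁ a₀ hB hμ (TSet ιinf ιp (S i)) (hcl i) (hrk i))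
          have h1 : (p : ℝ) ^ (Units.rank K + 1) / (p ^ (TSet ιinf ιp (S i)).ncard * (p - 1)) ≤
              p / (p * (p - 1)) := by
            have h9 : (p : ℝ) ^ (Units.rank K + 1) ≤ (p : ℝ) ^ (TSet ιinf ιp (S i)).ncard :=
              pow_le_pow_right₀ hp1.le (hrk i)
            rw [div_le_div_iff₀ (mul_pos (pow_pos hp0 _) (by linarith))
              (mul_pos hp0 (by linarith))]
            have h10 : (0 : ℝ) ≤ p * (p - 1) := mul_nonneg hp0.le (by linarith)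
            calc _ ≤ (p : ℝ) ^ (TSet ιinf ιp (S i)).ncard * (p * (p - 1)) :=
                  mul_le_mul_of_nonneg_right h9 h10
              _ = _ := by ring
          refine h1.trans (theta_le hp0 hQR ?_)
          have h2 := hQ i
          rw [hM, IntermediateField.finrank_bot] at h2
          have h3 : orderOf (p : ZMod 1) = 1 := by
            rw [orderOf_eq_one_iff]
            exact Subsingleton.elim _ _
          rw [h3, pow_one] at h2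
          exact_mod_cast h2)
      refine ⟨Bd, hBd, fun c' hc' hv hcB l => ?_⟩
      have h4 : χ₀ i ^ p ^ l = 1 := by
        rw [hχ1]
        ext g
        rw [MonoidHom.pow_apply, MonoidHom.one_apply, one_pow]
      rw [h4, hM]
      exact hgd c' hc' hv hcB
    · -- `χ₀ ≠ 1`
      have := hfM i
      refine cls1 hKU hSW hNT h3 hG1 hPH hNS hFR p K ιinf ιp Lg K₁ ε hε hK₁ ε₁ hε₁ εk hεk nf cf
        n1 n5 (S i) (hcl i) (M i) (F₀ i) (χ₀ i) (ψ₀ i) (hχ i) (hcop i) (hω i) hM (hψ i) (hF i)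
        (hspl i) (fun Bd => MomC p K ε₁ Bd ((Q : ℝ) / (p * (Q - 1)))) ?_
      intro M₁ J M₂ _ _ _ _ _ _ _ _ _ _ _ χM δ Φ P a₀ _ hb
      have hfM₂ : FiniteDimensional K M₂ := Module.Finite.of_restrictScalars_finite ℚ K M₂
      have hlt : 1 < finrank K₁ M₂ := by
        refine one_lt_deg (M := M i) hb.w2 hb.leM hb.leK hb.eq2 hb.copK hb.degJ ?_
        rcases hcase i with h | h | h
        · exact absurd h hM
        · exact Or.inr (hb.neJ h)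
        · left; rw [hK₁]; exact h ε hε
      refine momC_mono ?_ (hMB p Lg K (M i) K₁ M₁ J M₂ ε₁ δ P a₀ hb.sit hb.ntv hlt _ _ Φ hb.phi rfl
        hb.tor (TSet ιinf ιp (S i)) (hcl i) (hcard i))
      rw [Pool.Agent.Helper77.PPL.phi_deg hb.phi]
      refine theta_le hp0 hQR ?_
      exact_mod_cast hQ i

end Pool.Agent.Helper77.PPB
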