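import Pool.Agent.Helper77.PPB.Goals2
import Pool.Agent.Helper11.R.Goals

/-!
# Project PPB (MP_fc6b1e_nt, density theorem for general base characters): the condition `NTV2`
-/

namespace Pool.Agent.Helper77.PPB

open NumberField Polynomial Module IsDedekindDomain TensorProduct Pool.Agent.Helper51.SigLeo
open Pool.Agent.Helper51.RP Pool.Agent.Helper42.RD Pool.Agent.Helper11.LE Pool.Agent.Helper11.PP
open Pool.Agent.Helper42.PP1 (SitW)
open Pool.Agent.Helper11.R (NTV2)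

/-- **B_NTV2** (`χ₀` is not congruent to `ω`, and `χ₀^(1 + p^j)` is not congruent to `ω` for all `j ≥ 0`; then `NTV2`
holds).

PROOF. (0) As in `B_NTV` (`Pool/Agent/Helper58/PPB/BNTV.lean`): let `ζ = χ₀(δ)`, `g ∈ Gal(Ω/K)` with `g|_M = δ^t` and
`g ξ = ξ^r` on the `p`-th roots of unity; if `‖χ₀(g)^e - r‖ = 1` then `‖ζ^(t e) - r‖ = 1`, so `P` does not divide
`X^(t e) - r`: `root^(t e) ≠ r` in `κ = AdjoinRoot P`. Let `G = Gal(M₁/K)`. For `g ∈ G` let `i(g) < m` be the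
number with `g|_M = δ^(i(g))` (`m = [M : K]` is the order of `δ`, which generates `Gal(M/K)`), `σ(g)` the restriction
to `K₁`. `λ(g) = root^(i(g))` and `ν(g) = nsig p ε σ(g) ∈ F_p ⊆ κ` are homomorphisms `G → κˣ` (`root^m = 1`: `dvdP`;
`nsig_mul`, `nsig_one` in `Pool/Agent/Helper22/PP/POMG.lean`; compare `ntv_gen` in `Pool/Agent/Helper76/PP/NTVG.lean`), and
`root^(m - i(g)) = λ(g)⁻¹`. By (0): `λ ≠ ν`, and `λ^(1 + p^j) ≠ ν` for all `j ≥ 0`. Moreover `λ ≠ 1` (`PhiData.cop` for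
`e = 1`), and `λ^(p^k)`, `0 ≤ k < f = deg P`, are distinct (`g ↦ g|_M` is surjective; `root^(p^k) = root^(p^l)`,
`k < l < f`, implies `root^(p^(l - k)) = root`, so all the elements of `κ = F_p[root]`, `p^f` many, satisfy
`x^(p^(l-k)) = x`, which has at most `p^(l - k)` solutions). (1) `κ` is a field (`irr`) with `p^f` elements. For `tr ≠ 0`
there is `β ≠ 0` in `κ` with `tr(x) = Tr(β x)` (the trace form is nondegenerate), and
`Tr(x) = ∑_{k < f} x^(p^k)` (`FiniteField.algebraMap_trace_eq_sum_pow` or similar). So the function in `NTV2` is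
`∑_k (β η)^(p^k) λ(g)^(-p^k) + ∑_k (β η')^(p^k) ν(g)⁻¹ λ(g)^(p^k) + γ ν(g)⁻¹ + γ'` (`ν(g)` is fixed by the Frobenius).
(2) `λ⁻¹` is different from `λ^(-p^k)` (`0 < k < f`), from `ν⁻¹ λ^(p^k)` (otherwise `ν = λ^(1 + p^k)`), from `ν⁻¹` (`λ ≠ ν`)
and from `1`. `ν⁻¹ λ` is different from `ν⁻¹ λ^(p^k)` (`0 < k < f`), from `λ^(-p^k)` (otherwise `ν = λ^(1 + p^k)`), from
`ν⁻¹` and from `1` (`λ ≠ ν`). By the independence of the distinct homomorphisms `G → κˣ` (`linearIndependent_monoidHom`)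
the function is not zero: if `η ≠ 0` the coefficient of `λ⁻¹` is `β η ≠ 0`, if `η' ≠ 0` that of `ν⁻¹ λ` is `β η' ≠ 0`. -/
def B_NTV2 : Prop :=
  ∀ (p : ℕ) [Fact p.Prime] (K : Type) [Field K] [NumberField K]
    (M K₁ M₁ : IntermediateField K (AlgebraicClosure K)) [NumberField M] [NumberField K₁]
    [NumberField M₁] [IsGalois K M] [Algebra M M₁] [Algebra K₁ M₁],
    (∀ x : M, ((algebraMap M M₁ x : M₁) : AlgebraicClosure K) = x) →
    (∀ x : K₁, ((algebraMap K₁ M₁ x : M₁) : AlgebraicClosure K) = x) →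
  ∀ (ε : K₁) (δ : M ≃ₐ[K] M) (P : (ZMod p)[X]), SitW p K M K₁ M₁ ε δ P →
  ∀ (χ₀ : (M ≃ₐ[K] M) →* ℂ_[p]ˣ) (Φ : ℤ_[p][X]), orderOf δ = finrank K M →
    PhiData p (finrank K M) ((χ₀ δ : ℂ_[p]ˣ) : ℂ_[p]) Φ P →
    (∃ (g : AlgebraicClosure K ≃ₐ[K] AlgebraicClosure K) (r : ℕ),
      (∀ ξ : AlgebraicClosure K, ξ ^ p = 1 → g ξ = ξ ^ r) ∧
      ‖((χ₀ (AlgEquiv.restrictNormalHom M g) : ℂ_[p]ˣ) : ℂ_[p]) - r‖ = 1) →
    (∀ j : ℕ, ∃ (g : AlgebraicClosure K ≃ₐ[K] AlgebraicClosure K) (r : ℕ),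
      (∀ ξ : AlgebraicClosure K, ξ ^ p = 1 → g ξ = ξ ^ r) ∧
      ‖((χ₀ (AlgEquiv.restrictNormalHom M g) : ℂ_[p]ˣ) : ℂ_[p]) ^ (1 + p ^ j) - r‖ = 1) →
  NTV2 p M₁ ε δ P

end Pool.Agent.Helper77.PPB
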