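import Pool.Agent.Helper77.PPB.ASMN
import Pool.Agent.Helper77.PPB.BDEN
import Pool.Agent.Helper77.PPB.Goals3

/-!
# Project PPB, ND (MP_fc6b1e_nt): the density theorem for general base characters, natural density
-/

namespace Pool.Agent.Helper77.PPB

open NumberField Polynomial Module IsDedekindDomain TensorProduct Pool.Agent.Helper51.SigLeo
open Pool.Agent.Helper51.RP Pool.Agent.Helper42.RD Pool.Agent.Helper11.LE Pool.Agent.Helper11.PP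
open Pool.Agent.Helper38.FD (Chr CutsOut LeopoldtFor IsOrdinary isGalois_of_cutsOut
  free_of_splits splits_of_free ordv_of_unram exists_cutsOut exists_faithful fix_sup pow_card_desc
  Restricts)
open Pool.Agent.Helper42.PB (SitB SitBs)
open Pool.Agent.Helper11.PB (BdB)
open Pool.Agent.Helper11.R (NTV2)
open Pool.Agent.Helper38.ND (MomN cC cnt2 N_ASM MOMBN MOMB1N)

/-- **MOMRN**: natural density version of `R.MOMR`. -/
def MOMRN : Prop :=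
  ∀ (p : ℕ) [Fact p.Prime] (L : IwasawaLog p ℂ_[p]) (K M K₁ M₁ J M₂ : Type) [Field K]
    [NumberField K] [IsTotallyComplex K] [Field M] [NumberField M] [Field K₁] [NumberField K₁]
    [Field M₁] [NumberField M₁] [Field J] [NumberField J] [Field M₂] [NumberField M₂] [Algebra K M]
    [Algebra K K₁] [Algebra K M₁] [Algebra M M₁] [Algebra K₁ M₁] [Algebra K J] [Algebra K M₂]
    [Algebra M M₂] [Algebra K₁ M₂] [Algebra M₁ M₂] [Algebra J M₂] (ε : K₁) (δ : M ≃ₐ[K] M)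
    (P : (ZMod p)[X]) (a₀ : M₂ˣ), SitBs p K M K₁ M₁ J M₂ ε δ P a₀ → NTV2 p M₁ ε δ P →
  ∀ (m : ℕ) (ζ : ℂ_[p]) (Φ : ℤ_[p][X]), PhiData p m ζ Φ P → finrank K M = m → TorOK P δ →
  ∀ T : Set (K →+* ℂ_[p]), PlaceClosed T → finrank ℚ K = 2 * T.ncard →
  MomN p K ε (BdB L T P δ a₀) (1 / ((p : ℝ) ^ P.natDegree - 1))

/-- **B_DENN** (the density theorem for general base characters, natural density, with a constant for every
class). The base characters are `χ₀ i ψ₀ i`, `χ₀ i` of order prime to `p`, not congruent to `ω`, with field `M i`,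
`ψ₀ i` of `p`-power order with field `F₀ i`, in which the primes above `p` split completely. Let
`Q = p^f`, `f` the order of `p` modulo `[M i : K]`. The constant of the class of `i` is at least (a) `1/(p - 1)` if
`M i = K`; (b) `Q/(p (Q - 1))` if `[F₀ i : K] ≥ p²` or `M i` is not contained in `K(μ_p)`; (c) `1/(Q - 1)` if
`χ₀ i ^ (1 + p^j)` is not congruent to `ω` for all `j`. -/
def B_DENN : Prop :=
  ∀ (p : ℕ) [Fact p.Prime] (K : Type) [Field K] [NumberField K] (ιinf : AlgebraicClosure K →+* ℂ)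
    (ιp : AlgebraicClosure K →+* ℂ_[p]) (Lg : IwasawaLog p ℂ_[p]) (ι : Type) [Nonempty ι] (n : ℕ)
    (c : ι → Fin n) (S : ι → Set (K →+* ℂ))
    (M F₀ : ι → IntermediateField K (AlgebraicClosure K))
    (χ₀ ψ₀ : ι → Chr K (AlgebraicClosure K) ℂ_[p]),
    (∀ i, IsCMType (S i)) → (∀ i, IsOrdinary ιinf ιp (S i)) →
    (∀ i, FiniteDimensional K (M i)) → (∀ i, CutsOut (χ₀ i) (M i)) →
    (∀ i, (finrank K (M i)).Coprime p) →
    (∀ i, ∃ (g : AlgebraicClosure K ≃ₐ[K] AlgebraicClosure K) (r : ℕ),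
      (∀ ξ : AlgebraicClosure K, ξ ^ p = 1 → g ξ = ξ ^ r) ∧
      ‖((χ₀ i g : ℂ_[p]ˣ) : ℂ_[p]) - r‖ = 1) →
    (∀ i, CutsOut (ψ₀ i) (F₀ i)) → (∀ i, ∃ l : ℕ, finrank K (F₀ i) = p ^ l) →
    (∀ i, ∀ v : HeightOneSpectrum (𝓞 K), (p : 𝓞 K) ∈ v.asIdeal →
      SplitsIn (finrank K (F₀ i)) (F₀ i) v) →
    (∀ i j, c i = c j → S i = S j ∧ (∃ r : ℕ, χ₀ i = χ₀ j ^ p ^ r) ∧ ψ₀ i = ψ₀ j) →
  ∀ θ : Fin n → ℝ, (∀ t, 0 ≤ θ t) →
    (∀ i, (M i = ⊥ ∧ 1 / ((p : ℝ) - 1) ≤ θ (c i)) ∨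
      (M i ≠ ⊥ ∧ (p ^ 2 ≤ finrank K (F₀ i) ∨ ∀ ξ : AlgebraicClosure K, IsPrimitiveRoot ξ p →
          ¬ M i ≤ IntermediateField.adjoin K {ξ}) ∧
        (p : ℝ) ^ orderOf (p : ZMod (finrank K (M i))) /
          (p * ((p : ℝ) ^ orderOf (p : ZMod (finrank K (M i))) - 1)) ≤ θ (c i)) ∨
      (M i ≠ ⊥ ∧ (∀ j : ℕ, ∃ (g : AlgebraicClosure K ≃ₐ[K] AlgebraicClosure K) (r : ℕ),
          (∀ ξ : AlgebraicClosure K, ξ ^ p = 1 → g ξ = ξ ^ r) ∧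
          ‖((χ₀ i g : ℂ_[p]ˣ) : ℂ_[p]) ^ (1 + p ^ j) - r‖ = 1) ∧
        1 / ((p : ℝ) ^ orderOf (p : ZMod (finrank K (M i))) - 1) ≤ θ (c i))) →
  (∀ X : ℕ, {x | x ∈ ChN p K ∧ cond K x.1 ≤ X}.Finite) ∧
  (∀ η : ℝ, 0 < η → ∀ᶠ X : ℕ in Filter.atTop,
    cnt2 {x | x ∈ ChF p K ∧ ∃ i, ¬ GoodB ιinf ιp Lg (S i) (M i) (F₀ i) (χ₀ i) (ψ₀ i) x} X ≤
      (∑ r, θ r + η) * cnt2 (ChF p K) X) ∧
  (∑ r, θ r < 1 → ∃ c : ℝ, 0 < c ∧ ∀ᶠ X : ℕ in Filter.atTop,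
    0 < cnt2 (ChN p K) X ∧ c * cnt2 (ChN p K) X ≤
      cnt2 {x | x ∈ ChF p K ∧
        ∀ i, GoodB ιinf ιp Lg (S i) (M i) (F₀ i) (χ₀ i) (ψ₀ i) x} X)

theorem b_denN (hMB : MOMBN) (hMB1 : MOMB1N) (hMR : MOMRN) (hKU : B_KUM) (hSW : B_SWT)
    (hNT : B_NTV) (hNT2 : B_NTV2)
    (h3 : B_KU3) (hG1 : B_GL1) (hG0 : B_GL0) (hMAP : D_MAP) (hCHR : B_CHR) (hASM : N_ASM)
    (hPH : S_PHI) (hNS : S_NSP) (hFR : Pool.Agent.Helper76.RD.E_FRB) : B_DENN := by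
  classical
  intro p hpF K _ _ ιinf ιp Lg ι hι n c S M F₀ χ₀ ψ₀ hCM hord hfM hχ hcop hω hψ hF hspl hc
    θ hθ hcase
  have hp : p.Prime := hpF.out
  obtain ⟨i₀⟩ := id hι
  have htc : IsTotallyComplex K := Pool.Agent.Helper35.RD.totallyComplex_of_cm (hCM i₀)
  have hcl : ∀ i, PlaceClosed (TSet ιinf ιp (S i)) := fun i =>
    Pool.Agent.Helper35.RD.tset_closed ιinf ιp (S i) (hord i)
  have hcard : ∀ i, finrank ℚ K = 2 * (TSet ιinf ιp (S i)).ncard := fun i => by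
    rw [Pool.Agent.Helper35.RD.tset_ncard, Pool.Agent.Helper35.RD.two_mul_ncard_cm (hCM i)]
  have hrk : ∀ i, Units.rank K + 1 ≤ (TSet ιinf ιp (S i)).ncard := fun i ↦
    Pool.Agent.Helper32.LE.rank_cm ιinf ιp (S i) (hCM i)
  have hp0 : (0 : ℝ) < p := by exact_mod_cast hp.pos
  have hp1 : (1 : ℝ) < p := by exact_mod_cast hp.one_lt
  refine asmN hMAP hCHR hASM p K ιinf ιp Lg ι n c S M F₀ χ₀ ψ₀ hfM hχ hcop hψ hF hc θ hθ ?_
  intro K₁ _ ε ε₁ εk nf cf hε hK₁ hε₁ hC hεk n1 n5 i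
  rcases hcase i with ⟨hM, hle⟩ | ⟨hM, hor, hle⟩ | ⟨hM, hsd, hle⟩
  · -- `χ₀ = 1`
    have hχ1 : χ₀ i = 1 := by
      ext g
      have h1 : χ₀ i g = 1 := by
        rw [(hχ i) g, hM]
        intro x hx
        obtain ⟨y, rfl⟩ := IntermediateField.mem_bot.1 hx
        exact g.commutes y
      rw [h1]
      rfl
    have hμ := no_root hχ1 (hω i)
    obtain ⟨Bd, hBd, hgd⟩ := cls0 hKU h3 hG0 p K ιinf ιp Lg hμ K₁ ε₁ hC εk hεk nf cf n1 n5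
      (S i) (hcl i) (F₀ i) (ψ₀ i) (hψ i) (hF i) (hspl i)
      (fun Bd => MomN p K ε₁ Bd (θ (c i))) (by
        intro J M₂ _ _ _ _ a₀ hB
        refine momN_mono ?_ subset_rfl
          (hMB1 p Lg K K₁ J M₂ ε₁ a₀ hB hμ (TSet ιinf ιp (S i)) (hcl i) (hrk i))
        refine le_trans ?_ hle
        have h9 : (p : ℝ) ^ (Units.rank K + 1) ≤ (p : ℝ) ^ (TSet ιinf ιp (S i)).ncard :=
          pow_le_pow_right₀ hp1.le (hrk i)
        rw [div_le_div_iff₀ (mul_pos (pow_pos hp0 _) (by linarith)) (by linarith), one_mul]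
        exact mul_le_mul_of_nonneg_right h9 (by linarith))
    refine ⟨Bd, hBd, fun c' hc' hv hcB l => ?_⟩
    have h4 : χ₀ i ^ p ^ l = 1 := by
      rw [hχ1]
      ext g
      rw [MonoidHom.pow_apply, MonoidHom.one_apply, one_pow]
    rw [h4, hM]
    exact hgd c' hc' hv hcB
  · -- `χ₀ ≠ 1`, (b)
    have := hfM i
    refine cls1 hKU hSW hNT h3 hG1 hPH hNS hFR p K ιinf ιp Lg K₁ ε hε hK₁ ε₁ hε₁ εk hεk nf cf
      n1 n5 (S i) (hcl i) (M i) (F₀ i) (χ₀ i) (ψ₀ i) (hχ i) (hcop i) (hω i) hM (hψ i) (hF i)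
      (hspl i) (fun Bd => MomN p K ε₁ Bd (θ (c i))) ?_
    intro M₁ J M₂ _ _ _ _ _ _ _ _ _ _ _ χM δ Φ P a₀ _ hb
    have hfM₂ : FiniteDimensional K M₂ := Module.Finite.of_restrictScalars_finite ℚ K M₂
    have hlt : 1 < finrank K₁ M₂ := by
      refine one_lt_deg (M := M i) hb.w2 hb.leM hb.leK hb.eq2 hb.copK hb.degJ ?_
      rcases hor with h | h
      · exact Or.inr (hb.neJ h)
      · left; rw [hK₁]; exact h ε hε
    refine momN_mono ?_ subset_rfl (hMB p Lg K (M i) K₁ M₁ J M₂ ε₁ δ P a₀ hb.sit hb.ntv hlt _ _ Φ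
      hb.phi rfl hb.tor (TSet ιinf ιp (S i)) (hcl i) (hcard i))
    rw [Pool.Agent.Helper77.PPL.phi_deg hb.phi]
    exact hle
  · -- `χ₀ ≠ 1`, (c)
    have := hfM i
    refine cls1 hKU hSW hNT h3 hG1 hPH hNS hFR p K ιinf ιp Lg K₁ ε hε hK₁ ε₁ hε₁ εk hεk nf cf
      n1 n5 (S i) (hcl i) (M i) (F₀ i) (χ₀ i) (ψ₀ i) (hχ i) (hcop i) (hω i) hM (hψ i) (hF i)
      (hspl i) (fun Bd => MomN p K ε₁ Bd (θ (c i))) ?_
    intro M₁ J M₂ _ _ _ _ _ _ _ _ _ _ _ χM δ Φ P a₀ hχM hb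
    have hntv2 := hNT2 p K (M i) K₁ M₁ hb.v1 hb.v2 ε₁ δ P hb.sit.sit χM Φ hb.ord hb.phi (by
      obtain ⟨g, r, h4, h5⟩ := hω i
      exact ⟨g, r, h4, by rw [← hχM g]; exact h5⟩) (by
      intro j
      obtain ⟨g, r, h4, h5⟩ := hsd j
      exact ⟨g, r, h4, by rw [← hχM g]; exact h5⟩)
    refine momN_mono ?_ subset_rfl (hMR p Lg K (M i) K₁ M₁ J M₂ ε₁ δ P a₀ hb.sit hntv2 _ _ Φ
      hb.phi rfl hb.tor (TSet ιinf ιp (S i)) (hcl i) (hcard i))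
    rw [Pool.Agent.Helper77.PPL.phi_deg hb.phi]
    exact hle

end Pool.Agent.Helper77.PPB
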