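import Pool.Agent.Helper77.PPL.Asm
import Pool.Agent.Helper77.PPB.BDEN
import Pool.Agent.Helper3.PPB.BTOR
import Pool.Agent.Helper8.PPB.BGL0
import Pool.Agent.Helper14.PPB.BKU2
import Pool.Agent.Helper30.PPB.BCO0
import Pool.Agent.Helper32.PPB.BCO1
import Pool.Agent.Helper39.PPB.BCHR
import Pool.Agent.Helper48.PPB.BGL1
import Pool.Agent.Helper50.PPB.BKUM
import Pool.Agent.Helper53.PPB.BPRM
import Pool.Agent.Helper56.PPB.BKU4
import Pool.Agent.Helper56.PPB.BSPA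
import Pool.Agent.Helper58.PPB.BNTV
import Pool.Agent.Helper59.PPB.BTRV
import Pool.Agent.Helper74.PPB.BSWT
import Pool.Agent.Helper81.PPB.BASM
import Pool.Agent.Helper82.PPB.BKU3
import Pool.Agent.Helper85.PPB.BNIN
import Pool.Agent.Helper96.PPB.BKU1
import Pool.Agent.Helper96.PPB.BSTB
import Pool.Agent.Helper98.PPB.BKU5

/-!
# Project PPB (MP_fc6b1e_nt): assembly
-/

namespace Pool.Agent.Helper77.PPB

open Pool.Agent.Helper11.PB (MOMB MOMB1A)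

theorem x_kum : B_KUM :=
  Pool.Agent.Helper50.PPB.b_kum Pool.Agent.Helper96.PPB.b_ku1 Pool.Agent.Helper14.PPB.b_ku2
    Pool.Agent.Helper56.PPB.b_ku4 Pool.Agent.Helper98.PPB.b_ku5

theorem x_co1 : B_CO1 := Pool.Agent.Helper32.PPB.b_co1 Pool.Agent.Helper3.PPB.b_tor

theorem x_gl1 : B_GL1 :=
  Pool.Agent.Helper48.PPB.b_gl1 Pool.Agent.Helper59.PPB.b_trv Pool.Agent.Helper53.PPB.b_prm
    Pool.Agent.Helper56.PPB.b_spa Pool.Agent.Helper85.PPB.b_nin Pool.Agent.Helper96.PPB.b_stb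
    Pool.Agent.Helper3.PPB.b_tor x_co1

theorem x_gl0 : B_GL0 :=
  Pool.Agent.Helper8.PPB.b_gl0 Pool.Agent.Helper59.PPB.b_trv Pool.Agent.Helper53.PPB.b_prm
    Pool.Agent.Helper56.PPB.b_spa Pool.Agent.Helper85.PPB.b_nin Pool.Agent.Helper96.PPB.b_stb
    Pool.Agent.Helper3.PPB.b_tor Pool.Agent.Helper30.PPB.b_co0

theorem x_asm : B_ASM :=
  Pool.Agent.Helper81.PPB.b_asm Pool.Agent.Helper77.PPL.d_cmp Pool.Agent.Helper64.PP.d_nat
    Pool.Agent.Helper77.PPL.d_bfn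

/-- The density theorem for general base characters, from the moment theorems `MOMB`, `MOMB1A`. -/
theorem a_den2 (hMB : MOMB) (hMB1 : MOMB1A) : B_DEN2 :=
  b_den2 hMB hMB1 x_kum Pool.Agent.Helper74.PPB.b_swt Pool.Agent.Helper58.PPB.b_ntv
    Pool.Agent.Helper82.PPB.b_ku3 x_gl1 x_gl0 Pool.Agent.Helper77.PPL.d_map
    Pool.Agent.Helper39.PPB.b_chr x_asm Pool.Agent.Helper22.RP.s_phi Pool.Agent.Helper11.RP.s_nsp
    Pool.Agent.Helper20.RD.e_frb

end Pool.Agent.Helper77.PPB
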