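import Pool.Agent.Helper77.PPB.Cls0

/-!
# Project PPB (MP_fc6b1e_nt): assembly of the classes
-/

namespace Pool.Agent.Helper77.PPB

open NumberField Polynomial Module IsDedekindDomain TensorProduct Pool.Agent.Helper51.SigLeo
open Pool.Agent.Helper51.RP Pool.Agent.Helper42.RD Pool.Agent.Helper11.LE Pool.Agent.Helper11.PP
open Pool.Agent.Helper38.FD (Chr CutsOut LeopoldtFor IsOrdinary isGalois_of_cutsOut
  free_of_splits splits_of_free ordv_of_unram exists_cutsOut exists_faithful fix_sup pow_card_desc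
  Restricts)
open Pool.Agent.Helper11.PB (MomC BdB MOMB MOMB1)

/-- There is a moment theorem with the constant `θ` for the class, whose bad set contains the classes for
which the statement is not known. -/
def ClsOK {p : ℕ} [Fact p.Prime] {K : Type} [Field K] [NumberField K]
    (ιinf : AlgebraicClosure K →+* ℂ) (ιp : AlgebraicClosure K →+* ℂ_[p]) (Lg : IwasawaLog p ℂ_[p])
    {K₁ : IntermediateField K (AlgebraicClosure K)} [NumberField K₁] (ε₁ : K₁)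
    (nf : ClP p K₁ → IntermediateField K (AlgebraicClosure K))
    (cf : ClP p K₁ → Chr K (AlgebraicClosure K) ℂ_[p]) (S : Set (K →+* ℂ))
    (M F₀ : IntermediateField K (AlgebraicClosure K)) (χ₀ ψ₀ : Chr K (AlgebraicClosure K) ℂ_[p])
    (θ : ℝ) : Prop :=
  ∃ Bd : Set (ClP p K₁), MomC p K ε₁ Bd θ ∧
    ∀ c ∈ ASet p K ε₁,
      (∃ v : HeightOneSpectrum (𝓞 K), RamIn (nf c) v ∧ ¬ RamIn F₀ v) → c ∉ Bd → ∀ l : ℕ,
      GoodB ιinf ιp Lg S M F₀ (χ₀ ^ p ^ l) ψ₀ (nf c, cf c)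

/-- The relation between the classes and the fields. -/
def NfRel (p : ℕ) {K : Type} [Field K] [NumberField K]
    {K₁ : IntermediateField K (AlgebraicClosure K)} (ε₁ : K₁)
    (nf : ClP p K₁ → IntermediateField K (AlgebraicClosure K)) : Prop :=
  ∀ c ∈ BSet p K ε₁, nf c ∈ CycN p K ∧
    ∀ a : (K₁)ˣ, clp p a = c → Gen p (K₁.val : K₁ →+* AlgebraicClosure K) a (nf c)

/-- The Kummer relation between the classes and the characters. -/
def CfRel {p : ℕ} [Fact p.Prime] {K : Type} [Field K] [NumberField K]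
    {K₁ : IntermediateField K (AlgebraicClosure K)} (ε₁ : K₁) (εk : ℂ_[p]ˣ)
    (nf : ClP p K₁ → IntermediateField K (AlgebraicClosure K))
    (cf : ClP p K₁ → Chr K (AlgebraicClosure K) ℂ_[p]) : Prop :=
  ∀ c ∈ BSet p K ε₁, CutsOut (cf c) (nf c) ∧ ∀ a : (K₁)ˣ, clp p a = c →
    ∀ s : AlgebraicClosure K, s ^ p = (K₁.val : K₁ →+* AlgebraicClosure K) (a : K₁) →
    ∀ g : AlgebraicClosure K ≃ₐ[K] AlgebraicClosure K,
      (∀ x : K₁, g ((K₁.val : K₁ →+* AlgebraicClosure K) x) =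
        (K₁.val : K₁ →+* AlgebraicClosure K) x) → ∀ i : ℕ,
      g s = (K₁.val : K₁ →+* AlgebraicClosure K) ε₁ ^ i * s → cf c g = εk ^ i

theorem asm (hMAP : D_MAP) (hCHR : B_CHR) (hASM : B_ASM)
    (p : ℕ) [hpF : Fact p.Prime] (K : Type) [Field K] [NumberField K]
    (ιinf : AlgebraicClosure K →+* ℂ) (ιp : AlgebraicClosure K →+* ℂ_[p])
    (Lg : IwasawaLog p ℂ_[p]) (ι : Type) [hι : Nonempty ι] (n : ℕ)
    (c : ι → Fin n) (S : ι → Set (K →+* ℂ))
    (M F₀ : ι → IntermediateField K (AlgebraicClosure K))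
    (χ₀ ψ₀ : ι → Chr K (AlgebraicClosure K) ℂ_[p])
    (hfM : ∀ i, FiniteDimensional K (M i)) (hχ : ∀ i, CutsOut (χ₀ i) (M i))
    (hcop : ∀ i, (finrank K (M i)).Coprime p)
    (hψ : ∀ i, CutsOut (ψ₀ i) (F₀ i)) (hF : ∀ i, ∃ l : ℕ, finrank K (F₀ i) = p ^ l)
    (hc : ∀ i j, c i = c j → S i = S j ∧ (∃ r : ℕ, χ₀ i = χ₀ j ^ p ^ r) ∧ ψ₀ i = ψ₀ j)
    (θ : ℝ) (hθ : 0 ≤ θ)
    (hcls : ∀ (K₁ : IntermediateField K (AlgebraicClosure K)) [NumberField K₁]
      (ε : AlgebraicClosure K) (ε₁ : K₁) (εk : ℂ_[p]ˣ)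
      (nf : ClP p K₁ → IntermediateField K (AlgebraicClosure K))
      (cf : ClP p K₁ → Chr K (AlgebraicClosure K) ℂ_[p]),
      IsPrimitiveRoot ε p → K₁ = IntermediateField.adjoin K {ε} →
      (ε₁ : AlgebraicClosure K) = ε → Cyc p K K₁ ε₁ → IsPrimitiveRoot εk p →
      NfRel p ε₁ nf → CfRel ε₁ εk nf cf →
      ∀ i, ClsOK ιinf ιp Lg ε₁ nf cf (S i) (M i) (F₀ i) (χ₀ i) (ψ₀ i) θ) :
  (∀ X : ℝ, 0 < X → Summable fun x : ChF p K ↦ Real.exp (-(cond K x.1.1 : ℝ) / X)) ∧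
  (∀ η : ℝ, 0 < η → ∀ᶠ X : ℝ in Filter.atTop,
    ∑' x : {x | x ∈ ChF p K ∧
        ∃ i, ¬ GoodB ιinf ιp Lg (S i) (M i) (F₀ i) (χ₀ i) (ψ₀ i) x},
      Real.exp (-(cond K x.1.1 : ℝ) / X) ≤
    (n * θ + η) * ∑' x : ChF p K, Real.exp (-(cond K x.1.1 : ℝ) / X)) ∧
  (∀ X : ℕ, {x | x ∈ ChN p K ∧ cond K x.1 ≤ X}.Finite) ∧
  (n * θ < 1 → ∃ c : ℝ, 0 < c ∧ ∀ᶠ X : ℕ in Filter.atTop,
    0 < {x | x ∈ ChN p K ∧ cond K x.1 ≤ X}.ncard ∧
    c * {x | x ∈ ChN p K ∧ cond K x.1 ≤ X}.ncard ≤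
      {x | x ∈ ChF p K ∧ cond K x.1 ≤ X ∧
        ∀ i, GoodB ιinf ιp Lg (S i) (M i) (F₀ i) (χ₀ i) (ψ₀ i) x}.ncard) := by
  classical
  have hp : p.Prime := hpF.out
  have hchar : CharZero (AlgebraicClosure K) :=
    charZero_of_injective_algebraMap (algebraMap K (AlgebraicClosure K)).injective
  have hpne : NeZero p := ⟨hp.ne_zero⟩
  obtain ⟨i₀⟩ := hι
  obtain ⟨ε, hε⟩ := HasEnoughRootsOfUnity.exists_primitiveRoot (AlgebraicClosure K) p
  -- the field `K₁`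
  obtain ⟨K₁, hK₁⟩ : ∃ K₁ : IntermediateField K (AlgebraicClosure K),
    K₁ = IntermediateField.adjoin K {ε} := ⟨_, rfl⟩
  have hfK₁ : FiniteDimensional K K₁ := by
    rw [hK₁]
    exact IntermediateField.adjoin.finiteDimensional (Algebra.IsIntegral.isIntegral ε)
  have hnK₁ : NumberField K₁ := NumberField.of_module_finite K K₁
  have hgK₁ : IsGalois K K₁ := by
    rw [hK₁]
    have : IsCyclotomicExtension {p} K (IntermediateField.adjoin K {ε}) :=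
      hε.intermediateField_adjoin_isCyclotomicExtension (K := K)
    exact IsCyclotomicExtension.isGalois {p} K _
  have hmem : ε ∈ K₁ := by rw [hK₁]; exact IntermediateField.mem_adjoin_simple_self K ε
  obtain ⟨ε₁, hε₁⟩ : ∃ ε₁ : K₁, (ε₁ : AlgebraicClosure K) = ε := ⟨⟨ε, hmem⟩, rfl⟩
  have hC : Cyc p K K₁ ε₁ := by
    refine ⟨IsPrimitiveRoot.of_map_of_injective (f := K₁.val) (by
      show IsPrimitiveRoot (ε₁ : AlgebraicClosure K) p
      rw [hε₁]; exact hε) K₁.val.injective, hgK₁, ?_⟩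
    intro σ hσ
    have h1 : (σ : K₁ →ₐ[K] K₁) = AlgHom.id K K₁ := by
      refine IntermediateField.algHom_ext_of_eq_adjoin K (S := K₁) (s := ({ε} : Set _)) hK₁ ?_
      intro x hx
      have hx' : x = ε := hx
      subst hx'
      have h2 : (⟨x, hmem⟩ : K₁) = ε₁ := Subtype.ext hε₁.symm
      show σ (⟨x, _⟩ : K₁) = (⟨x, _⟩ : K₁)
      rw [h2]
      exact hσ
    ext x
    have := congrArg (fun f ↦ f x) h1
    simpa using congrArg Subtype.val this
  -- the root of unity of `ℂ_p`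
  obtain ⟨εk, hεk⟩ : ∃ εk : ℂ_[p]ˣ, IsPrimitiveRoot εk p := by
    have h1 : IsPrimitiveRoot (ιp ε) p := hε.map_of_injective ιp.injective
    exact ⟨(h1.isUnit hp.ne_zero).unit, IsPrimitiveRoot.coe_units_iff.1 h1⟩
  obtain ⟨nf, n1, n2, n3, n4⟩ := hMAP p K K₁ ε₁ hC (K₁.val : K₁ →+* AlgebraicClosure K)
    (fun x => rfl)
  obtain ⟨cf, n5, n6⟩ := hCHR p K K₁ ε₁ hC (K₁.val : K₁ →+* AlgebraicClosure K)
    (fun x => rfl) εk hεk nf n1 n2
  -- the representatives of the classes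
  set r : Fin n → ι := fun t => if h : ∃ i, c i = t then h.choose else i₀ with hr
  have hrc : ∀ i, c (r (c i)) = c i := by
    intro i
    have h : ∃ i', c i' = c i := ⟨i, rfl⟩
    rw [hr]
    simp only [dif_pos h]
    exact h.choose_spec
  choose Bd hBd hgd using fun t : Fin n => hcls K₁ ε ε₁ εk nf cf hε hK₁ hε₁ hC hεk n1 n5 (r t)
  -- the exceptional set
  have hnF : ∀ i, NumberField (F₀ i) := by
    intro i
    obtain ⟨l, hl⟩ := hF i
    have : FiniteDimensional K (F₀ i) := FiniteDimensional.of_finrank_pos (by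
      rw [hl]; exact pow_pos hp.pos l)
    exact NumberField.of_module_finite K (F₀ i)
  have hAB : ∀ c ∈ ASet p K ε₁, c ∈ BSet p K ε₁ := by
    rintro c ⟨hc1, a, hac, hom, -⟩
    exact ⟨hc1, a, hac, hom⟩
  set Z : Set (ClP p K₁) := ⋃ t : Fin n, {c' | c' ∈ ASet p K ε₁ ∧
    ∀ v : HeightOneSpectrum (𝓞 K), RamIn (nf c') v → RamIn (F₀ (r t)) v} with hZ
  have hZf : Z.Finite := by
    rw [hZ]
    refine Set.finite_iUnion fun t => ?_
    refine ((hBd t).2.1 (cond K (F₀ (r t)))).subset ?_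
    rintro c' ⟨h1, h2⟩
    refine ⟨h1, ?_⟩
    obtain ⟨hNc, -⟩ := n1 c' (hAB c' h1)
    have hfN : FiniteDimensional K (nf c') := FiniteDimensional.of_finrank_pos (by
      rw [hNc.1]; exact hp.pos)
    have hnN : NumberField (nf c') := NumberField.of_module_finite K (nf c')
    have hnFr := hnF (r t)
    rw [← n4 c' h1, Pool.Agent.Helper95.PP.cond_eq, Pool.Agent.Helper95.PP.cond_eq]
    refine Nat.cast_le.2 (Finset.prod_le_prod_of_subset_of_one_le' ?_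
      fun v _ _ => Pool.Agent.Helper95.PP.norm_pos v)
    intro v hv
    rw [Set.Finite.mem_toFinset] at hv ⊢
    exact h2 v hv
  set G : Set (IntermediateField K (AlgebraicClosure K) × Chr K (AlgebraicClosure K) ℂ_[p]) :=
    {x | ∀ i, GoodB ιinf ιp Lg (S i) (M i) (F₀ i) (χ₀ i) (ψ₀ i) x} with hG
  -- the claim
  have hclaim : ∀ c' ∈ ASet p K ε₁, c' ∉ Z → (nf c', cf c') ∉ G → ∃ t, c' ∈ Bd t := by
    intro c' hc' hcZ hcG
    rw [hG, Set.mem_ofPred_eq] at hcG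
    push Not at hcG
    obtain ⟨i, hi⟩ := hcG
    refine ⟨c i, ?_⟩
    by_contra hcon
    apply hi
    obtain ⟨hS, ⟨r', hr'⟩, hψe⟩ := hc i (r (c i)) (hrc i).symm
    have hFe : F₀ i = F₀ (r (c i)) := by
      have h1 := hψ i
      rw [hψe] at h1
      exact cutsOut_unique h1 (hψ _)
    have hMe : M i = M (r (c i)) := by
      have h1 := hχ i
      rw [hr'] at h1
      have := hfM (r (c i))
      exact cutsOut_unique h1 (cutsOut_pow (hχ _) ((hcop _).pow_right r'))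
    rw [hS, hMe, hFe, hψe, hr']
    refine hgd (c i) c' hc' ?_ hcon r'
    by_contra h2
    apply hcZ
    rw [hZ, Set.mem_iUnion]
    refine ⟨c i, hc', ?_⟩
    intro v hv
    by_contra h3
    exact h2 ⟨v, hv, h3⟩
  obtain ⟨m1, m2, m3, m4, -⟩ := hBd (c i₀)
  obtain ⟨q1, q2, q3, q4⟩ := hASM p K K₁ ε₁ nf cf (fun c' h => (n1 c' h).1) n2 n3 n4
    (fun c' h => (n5 c' h).1) n6 n Bd G Z θ hθ hZf hclaim m1 m2 m3 m4
    (fun t => (hBd t).2.2.2.2)
  refine ⟨q1, ?_, q3, q4⟩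
  intro η hη
  filter_upwards [q2 η hη] with X hX
  have hset : {x | x ∈ ChF p K ∧ ∃ i, ¬ GoodB ιinf ιp Lg (S i) (M i) (F₀ i) (χ₀ i) (ψ₀ i) x} =
      {x | x ∈ ChF p K ∧ x ∉ G} := by
    ext x
    simp only [hG, Set.mem_ofPred_eq, not_forall]
  refine le_trans (le_of_eq ?_) hX
  exact tsum_congr_set_coe (fun x : IntermediateField K (AlgebraicClosure K) ×
    Chr K (AlgebraicClosure K) ℂ_[p] => Real.exp (-(Pool.Agent.Helper11.PP.cond K x.1 : ℝ) / X)) hset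

end Pool.Agent.Helper77.PPB
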