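import Pool.Agent.Helper77.PPB.Cls1
import Pool.Agent.Helper42.PP1.One

/-!
# Project PPB (MP_fc6b1e_nt): one class, `χ₀ = 1`
-/

namespace Pool.Agent.Helper77.PPB

open NumberField Polynomial Module IsDedekindDomain TensorProduct Pool.Agent.Helper51.SigLeo
open Pool.Agent.Helper51.RP Pool.Agent.Helper42.RD Pool.Agent.Helper11.LE Pool.Agent.Helper11.PP
open Pool.Agent.Helper38.FD (Chr CutsOut LeopoldtFor IsOrdinary isGalois_of_cutsOut
  free_of_splits splits_of_free ordv_of_unram exists_cutsOut exists_faithful fix_sup pow_card_desc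
  Restricts)
open Pool.Agent.Helper42.PP (LocS)
open Pool.Agent.Helper42.PP1 (SitW NTV)
open Pool.Agent.Helper42.PB (SitB SitBs)
open Pool.Agent.Helper11.PB (MomC BdB MOMB MOMB1)
open Pool.Agent.Helper22.PP (ram_sup le_of_fix)

/-- All the primes split completely in `⊥`. -/
theorem splits_bot {K : Type} [Field K] [NumberField K]
    [NumberField (⊥ : IntermediateField K (AlgebraicClosure K))] (v : HeightOneSpectrum (𝓞 K)) :
    ∃ w : HeightOneSpectrum (𝓞 (⊥ : IntermediateField K (AlgebraicClosure K))),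
      Above w v ∧ FreeP K w := by
  obtain ⟨w, hw⟩ := Pool.Agent.Helper22.PP.exists_above
    (M' := (⊥ : IntermediateField K (AlgebraicClosure K))) v
  refine ⟨w, hw, fun g _ => ?_⟩
  ext x
  obtain ⟨y, hy⟩ := IntermediateField.mem_bot.1 x.2
  have h : x = algebraMap K _ y := Subtype.ext hy.symm
  rw [h, g.commutes]
  rfl

/-- One class, `χ₀ = 1`, from a moment theorem (`Q` is a property of the set of the bad classes). -/
theorem cls0 (hKU : B_KUM) (h3 : B_KU3) (hGL : B_GL0)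
    (p : ℕ) [hpF : Fact p.Prime] (K : Type) [Field K] [NumberField K]
    (ιinf : AlgebraicClosure K →+* ℂ) (ιp : AlgebraicClosure K →+* ℂ_[p]) (Lg : IwasawaLog p ℂ_[p])
    (hμ : ¬ ∃ ξ : K, IsPrimitiveRoot ξ p)
    (K₁ : IntermediateField K (AlgebraicClosure K)) [NumberField K₁] (ε₁ : K₁)
    (hC : Cyc p K K₁ ε₁) (εk : ℂ_[p]ˣ) (hεk : IsPrimitiveRoot εk p)
    (nf : ClP p K₁ → IntermediateField K (AlgebraicClosure K))
    (cf : ClP p K₁ → Chr K (AlgebraicClosure K) ℂ_[p])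
    (n1 : ∀ c ∈ BSet p K ε₁, nf c ∈ CycN p K ∧
      ∀ a : (K₁)ˣ, clp p a = c → Gen p (K₁.val : K₁ →+* AlgebraicClosure K) a (nf c))
    (n5 : ∀ c ∈ BSet p K ε₁, CutsOut (cf c) (nf c) ∧ ∀ a : (K₁)ˣ, clp p a = c →
      ∀ s : AlgebraicClosure K, s ^ p = (K₁.val : K₁ →+* AlgebraicClosure K) (a : K₁) →
      ∀ g : AlgebraicClosure K ≃ₐ[K] AlgebraicClosure K,
        (∀ x : K₁, g ((K₁.val : K₁ →+* AlgebraicClosure K) x) =
          (K₁.val : K₁ →+* AlgebraicClosure K) x) → ∀ i : ℕ,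
        g s = (K₁.val : K₁ →+* AlgebraicClosure K) ε₁ ^ i * s → cf c g = εk ^ i)
    (S : Set (K →+* ℂ)) (hcl : PlaceClosed (TSet ιinf ιp S))
    (F₀ : IntermediateField K (AlgebraicClosure K)) (ψ₀ : Chr K (AlgebraicClosure K) ℂ_[p])
    (hψ : CutsOut ψ₀ F₀) (hF : ∃ l : ℕ, finrank K F₀ = p ^ l)
    (hspl : ∀ v : HeightOneSpectrum (𝓞 K), (p : 𝓞 K) ∈ v.asIdeal →
      SplitsIn (finrank K F₀) F₀ v) (Q : Set (ClP p K₁) → Prop)
    (hMB : ∀ (J M₂ : IntermediateField K (AlgebraicClosure K)) [NumberField J] [NumberField M₂]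
      [Algebra K₁ M₂] [Algebra J M₂] (a₀ : (M₂)ˣ),
      SitBs p K K K₁ K₁ J M₂ ε₁ (1 : K ≃ₐ[K] K) (X - 1) a₀ →
      Q (BdB Lg (TSet ιinf ιp S) (X - 1 : (ZMod p)[X]) (1 : K ≃ₐ[K] K) a₀)) :
    ∃ Bd : Set (ClP p K₁), Q Bd ∧
      ∀ c ∈ ASet p K ε₁,
        (∃ v : HeightOneSpectrum (𝓞 K), RamIn (nf c) v ∧ ¬ RamIn F₀ v) → c ∉ Bd →
        GoodB ιinf ιp Lg S ⊥ F₀ 1 ψ₀ (nf c, cf c) := by
  classical
  have hp : p.Prime := hpF.out
  have hgK : IsGalois K K₁ := hC.gal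
  have hSit := Pool.Agent.Helper42.PP1.sitW_one p K K₁ ε₁ hC.prim hC.gen
  -- the field `J`
  obtain ⟨J, hfJ, hcJ, hJF, hdJ, -, -⟩ := exists_J p hψ hF
  have hnJ : NumberField J := NumberField.of_module_finite K J
  obtain ⟨l₀, hl₀⟩ := id hF
  have hfF : FiniteDimensional K F₀ := FiniteDimensional.of_finrank_pos (by
    rw [hl₀]; exact pow_pos hp.pos l₀)
  have hnF : NumberField F₀ := NumberField.of_module_finite K F₀
  have hgF : IsGalois K F₀ := isGalois_of_cutsOut hψ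
  have hgJ : IsGalois K J := isGalois_of_cutsOut hcJ
  have hfK₁ : FiniteDimensional K K₁ := Module.Finite.of_restrictScalars_finite ℚ K K₁
  obtain ⟨M₂, hM₂⟩ : ∃ M₂ : IntermediateField K (AlgebraicClosure K), M₂ = K₁ ⊔ J := ⟨_, rfl⟩
  have hfM₂ : FiniteDimensional K M₂ := by
    rw [hM₂]; exact IntermediateField.finiteDimensional_sup K₁ J
  have hnM₂ : NumberField M₂ := NumberField.of_module_finite K M₂
  have hle2 : K₁ ≤ M₂ := by rw [hM₂]; exact le_sup_left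
  have hleJ : J ≤ M₂ := by rw [hM₂]; exact le_sup_right
  let A2 : Algebra K₁ M₂ := (IntermediateField.inclusion hle2).toRingHom.toAlgebra
  let A4 : Algebra J M₂ := (IntermediateField.inclusion hleJ).toRingHom.toAlgebra
  obtain ⟨a₀, s₀, hB, m0, p0, r0⟩ := hKU p K K K₁ K₁ ε₁ (1 : K ≃ₐ[K] K) (X - 1) hSit
    (K₁.val : K₁ →+* AlgebraicClosure K) K₁ (fun x => rfl)
    (fun y => ⟨fun hy => ⟨⟨y, hy⟩, rfl⟩, by rintro ⟨x, rfl⟩; exact x.2⟩) εk hεk ψ₀ F₀ hψ hF hspl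
    J M₂ (fun x => rfl) (fun x => rfl) (fun x => rfl) (fun x => rfl) hcJ hM₂
  have hcopK : (finrank K K₁).Coprime p := by
    have h1 := Pool.Agent.Helper14.RD.finrank_dvd_pred p K K₁ ε₁ hC.prim hC.gen
    exact Nat.Coprime.coprime_dvd_left h1 ((Nat.coprime_self_sub_left
      (Fact.out : p.Prime).one_le).2 (Nat.coprime_one_left p))
  refine ⟨_, hMB J M₂ a₀ hB, ?_⟩
  intro c hc hv hcB E ψ hComp hcutE
  obtain ⟨v₀, hv1, hv2⟩ := hv
  obtain ⟨hc1, a, hac, hom, hni⟩ := hc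
  have hcBS : c ∈ BSet p K ε₁ := ⟨hc1, a, hac, hom⟩
  obtain ⟨hNc, hgen⟩ := n1 c hcBS
  obtain ⟨hcut, hrel⟩ := n5 c hcBS
  have hgN : IsGalois K (nf c) := hNc.2
  have hfN : FiniteDimensional K (nf c) := FiniteDimensional.of_finrank_pos (by
    rw [hNc.1]; exact hp.pos)
  have hnN : NumberField (nf c) := NumberField.of_module_finite K (nf c)
  have hgE : IsGalois K E := isGalois_of_cutsOut hcutE
  obtain ⟨lE, hlE⟩ := hComp.deg
  have hfE : FiniteDimensional K E := FiniteDimensional.of_finrank_pos (by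
    rw [hlE]; exact pow_pos hp.pos lE)
  have hnE : NumberField E := NumberField.of_module_finite K E
  have D : Dat p K₁ K₁ J M₂ F₀ (nf c) ε₁ εk ψ₀ (cf c) a₀ s₀ a v₀ :=
    { KM := fun x => rfl
      le1 := le_rfl
      eq2 := hM₂
      leJ := hJF
      prim := hC.prim
      primk := hεk
      cop := hcopK
      cut0 := hψ
      cutJ := hcJ
      cutN := hcut
      degN := hNc.1
      deg0 := hF
      mem0 := m0
      pow0 := p0
      rel0 := fun g hg i hi => r0 g hg i hi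
      gen := hgen a hac
      rel := fun s hs g hg i hi => hrel a hac s hs g (fun x => hg _ x.2) i hi
      ram := hv1
      nram := hv2 }
  have hnB : NumberField (⊥ : IntermediateField K (AlgebraicClosure K)) :=
    NumberField.of_module_finite K _
  have hgB : IsGalois K (⊥ : IntermediateField K (AlgebraicClosure K)) := inferInstance
  obtain ⟨c1, c2, c3, c4⟩ := comp_props hComp
  obtain ⟨g, hg1, hg2⟩ := D.exg E (c4 v₀ hv1)
  obtain ⟨q1, q2, q3⟩ := D.psi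
  have hψg : (ψ₀ * cf c) g ≠ 1 := by
    rw [MonoidHom.mul_apply, (hψ g).2 fun x hx => hg1 x ((le_sup_left : F₀ ≤ F₀ ⊔ E) hx), one_mul]
    exact hg2
  have hsplJ : ∀ v : HeightOneSpectrum (𝓞 K), (p : 𝓞 K) ∈ v.asIdeal →
      ∀ V : HeightOneSpectrum (𝓞 J), Above V v → FreeP K V := by
    intro v hv V hV
    apply hB.splJ V
    have e : ((p : 𝓞 J) : J) = p := map_natCast (algebraMap (𝓞 J) J) p
    rw [← e]
    refine (V.valuation_lt_one_iff_mem (K := J) (p : 𝓞 J)).2 ?_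
    have h9 : (p : 𝓞 K) ∈ V.asIdeal.comap (algebraMap (𝓞 K) (𝓞 J)) := by
      rw [show V.asIdeal.comap (algebraMap (𝓞 K) (𝓞 J)) = v.asIdeal from hV]
      exact hv
    rw [Ideal.mem_comap, map_natCast] at h9
    exact h9
  have hom2 : OmType p K (algebraMap K₁ M₂ ε₁)
      ((a₀ * Units.map (algebraMap K₁ M₂ : K₁ →* M₂) a : (M₂)ˣ) : M₂) := by
    have t3 : IsScalarTower K K₁ M₂ := IsScalarTower.of_algebraMap_eq fun x => rfl
    exact om_both hp hC.prim a.ne_zero hB.om hom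
  have hfin := hGL p K ιinf ιp Lg S hcl hμ K₁ J M₂ hM₂ hcopK hdJ hsplJ (ψ₀ * cf c) ψ q1 q2 q3
    (algebraMap K₁ M₂ ε₁) (a₀ * Units.map (algebraMap K₁ M₂ : K₁ →* M₂) a)
    (hC.prim.map_of_injective (algebraMap K₁ M₂).injective) ε₁.2
    (fun g hg => hC.gen g (hg ε₁ rfl)) hom2
    (nice_both a₀ a hB.powp hni)
    (D.npw g (fun x hx => hg1 x ((le_sup_left : F₀ ≤ F₀ ⊔ E) hx)) hg2)
    (fun s hs g hg h1 => D.aut s hs g hg h1)
    (by
      intro x hx
      by_contra hxp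
      exact hcB ⟨x, a, hac, hx, hxp⟩)
    E hcutE ⟨lE, hlE⟩ ⟨g, ?_, hψg⟩ c1 (fun v hv => c2 v (D.tame h3 v hv))
    (fun v => c3 v (splits_bot v))
  · have e : (1 : Chr K (AlgebraicClosure K) ℂ_[p]) * ψ₀ = ψ₀ := one_mul ψ₀
    rw [e]
    exact hfin
  · intro x hx
    exact hg1 x ((sup_le_sup_right hJF E) hx)

end Pool.Agent.Helper77.PPB
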