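import Pool.Agent.Helper77.PPB.Goals2
import Pool.Agent.Helper38.FD.Split
import Pool.Agent.Helper22.PP.DPRD
import Pool.Agent.Helper95.PP.DCMP
import Pool.Agent.Helper63.PP.DNLS

/-!
# Project PPB (MP_fc6b1e_nt): the common part of the proof of `B_DEN`
-/

namespace Pool.Agent.Helper77.PPB

open NumberField Polynomial Module IsDedekindDomain TensorProduct Pool.Agent.Helper51.SigLeo
open Pool.Agent.Helper51.RP Pool.Agent.Helper42.RD Pool.Agent.Helper11.LE Pool.Agent.Helper11.PP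
open Pool.Agent.Helper38.FD (Chr CutsOut LeopoldtFor IsOrdinary isGalois_of_cutsOut
  free_of_splits splits_of_free ordv_of_unram exists_cutsOut exists_faithful fix_sup pow_card_desc
  Restricts)
open Pool.Agent.Helper42.PP (LocS)
open Pool.Agent.Helper22.PP (ram_sup le_of_fix)

/-! ### Elements of type `ω` -/

theorem om_both {p : ℕ} (hp : p.Prime) {K K₁ M₂ : Type} [Field K] [Field K₁] [Field M₂]
    [Algebra K K₁] [Algebra K M₂] [Algebra K₁ M₂] [IsScalarTower K K₁ M₂] [Normal K K₁] {ε : K₁}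
    (hε : IsPrimitiveRoot ε p) {a₀ : M₂} {a : K₁} (ha0 : a ≠ 0)
    (h0 : OmType p K (algebraMap K₁ M₂ ε) a₀) (ha : OmType p K ε a) :
    OmType p K (algebraMap K₁ M₂ ε) (a₀ * algebraMap K₁ M₂ a) := by
  intro τ
  obtain ⟨n, c, e1, e2⟩ := h0 τ
  set σ : K₁ ≃ₐ[K] K₁ := τ.restrictNormal K₁ with hσ
  have hc : ∀ x : K₁, algebraMap K₁ M₂ (σ x) = τ (algebraMap K₁ M₂ x) := fun x =>
    τ.restrictNormal_commutes K₁ x
  obtain ⟨m, c', f1, f2⟩ := ha σ
  have hε0 : ε ≠ 0 := hε.ne_zero hp.ne_zero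
  have h1 : ε ^ n = ε ^ m := by
    apply (algebraMap K₁ M₂).injective
    rw [map_pow, ← e1, ← hc, f1]
  have h3 : ε ^ ((m : ℤ) - n) = 1 := by
    rw [zpow_sub₀ hε0, zpow_natCast, zpow_natCast, h1]
    exact div_self (pow_ne_zero _ hε0)
  obtain ⟨k, hk⟩ := (hε.zpow_eq_one_iff_dvd _).1 h3
  have h4 : a ^ m = a ^ n * (a ^ k) ^ p := by
    have h5 : (m : ℤ) = n + k * p := by rw [mul_comm k, ← hk]; ring
    rw [← zpow_natCast a m, h5, zpow_add₀ ha0, zpow_mul, zpow_natCast, zpow_natCast]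
  refine ⟨n, c * algebraMap K₁ M₂ (a ^ k * c'), e1, ?_⟩
  rw [map_mul, e2, ← hc, f2, h4, mul_pow, mul_pow, map_mul, map_mul, map_pow, map_pow, map_pow,
    map_mul, mul_pow]
  ring

/-! ### The condition above `p` -/

theorem nice_both {p : ℕ} [Fact p.Prime] {K₁ M₂ : Type} [Field K₁] [NumberField K₁] [Field M₂]
    [NumberField M₂] [Algebra K₁ M₂] (a₀ : M₂ˣ) (a : K₁ˣ)
    (h0 : LocS p {W : HeightOneSpectrum (𝓞 M₂) | W.valuation M₂ (p : M₂) < 1} a₀)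
    (ha : NiceU p a) : NiceU p (a₀ * Units.map (algebraMap K₁ M₂ : K₁ →* M₂) a) := by
  have h1 : NiceU p a₀ := by
    rw [Pool.Agent.Helper63.PP.d_nls]
    convert h0 using 2
    ext W
    have e : ((p : 𝓞 M₂) : M₂) = p := map_natCast (algebraMap (𝓞 M₂) M₂) p
    show (p : 𝓞 M₂) ∈ W.asIdeal ↔ W.valuation M₂ (p : M₂) < 1
    rw [← W.valuation_lt_one_iff_mem (K := M₂)]
    show W.valuation M₂ ((p : 𝓞 M₂) : M₂) < 1 ↔ _
    rw [e]
  obtain ⟨b, y, hb, hby⟩ := h1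
  obtain ⟨b', y', hb', hby'⟩ := ha
  refine ⟨b * algebraMap (𝓞 K₁) (𝓞 M₂) b', y * Units.map (algebraMap K₁ M₂ : K₁ →* M₂) y', ?_, ?_⟩
  · have h2 : (p : 𝓞 M₂) ^ 3 ∣ algebraMap (𝓞 K₁) (𝓞 M₂) b' - 1 := by
      obtain ⟨d, hd⟩ := hb'
      refine ⟨algebraMap (𝓞 K₁) (𝓞 M₂) d, ?_⟩
      rw [← map_one (algebraMap (𝓞 K₁) (𝓞 M₂)), ← map_sub, hd, map_mul, map_pow, map_natCast]
    have h3 : b * algebraMap (𝓞 K₁) (𝓞 M₂) b' - 1 =
        (b - 1) * algebraMap (𝓞 K₁) (𝓞 M₂) b' + (algebraMap (𝓞 K₁) (𝓞 M₂) b' - 1) := by ring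
    rw [h3]
    exact dvd_add (hb.mul_right _) h2
  · have h4 : ((algebraMap (𝓞 K₁) (𝓞 M₂) b' : 𝓞 M₂) : M₂) = algebraMap K₁ M₂ (b' : K₁) := rfl
    have h5 : ((b * algebraMap (𝓞 K₁) (𝓞 M₂) b' : 𝓞 M₂) : M₂) =
        (b : M₂) * ((algebraMap (𝓞 K₁) (𝓞 M₂) b' : 𝓞 M₂) : M₂) := by push_cast; rfl
    rw [h5, h4, hby, hby', Units.val_mul, Units.val_mul, Units.coe_map, Units.coe_map, map_mul,
      map_pow]
    simp only [MonoidHom.coe_coe]
    ring

/-! ### Characters -/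

section chr

variable {K Ω k : Type} [Field K] [Field Ω] [Algebra K Ω] [NormedField k]

/-- The field cut out by a character is unique. -/
theorem cutsOut_unique [IsGalois K Ω] {χ : Chr K Ω k} {H H' : IntermediateField K Ω}
    (h : CutsOut χ H) (h' : CutsOut χ H') : H = H' := by
  refine le_antisymm (le_of_fix fun g hg => (h g).1 ((h' g).2 hg))
    (le_of_fix fun g hg => (h' g).1 ((h g).2 hg))

/-- A power prime to the order has the same field. -/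
theorem cutsOut_pow [IsGalois K Ω] {χ : Chr K Ω k} {H : IntermediateField K Ω}
    [FiniteDimensional K H] (h : CutsOut χ H) {n : ℕ} (hn : (finrank K H).Coprime n) :
    CutsOut (χ ^ n) H := by
  intro g
  rw [← h g, MonoidHom.pow_apply]
  constructor
  · intro h1
    have d1 := orderOf_dvd_of_pow_eq_one h1
    have d2 := orderOf_dvd_of_pow_eq_one (pow_card_desc h g)
    have h3 := Nat.dvd_gcd d2 d1
    rw [hn] at h3
    exact orderOf_eq_one_iff.1 (Nat.dvd_one.1 h3)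
  · intro h1
    rw [h1, one_pow]

theorem pow_eq_one_of [IsGalois K Ω] {χ : Chr K Ω k} {H : IntermediateField K Ω}
    [FiniteDimensional K H] (h : CutsOut χ H) : χ ^ finrank K H = 1 := by
  ext g
  rw [MonoidHom.pow_apply, pow_card_desc h g]
  rfl

end chr

/-! ### Kummer theory -/

theorem root_rel {F : Type} [Field F] {p : ℕ} (hp : p ≠ 0) {ε : F} (hε : IsPrimitiveRoot ε p)
    {s t : F} (hs : s ≠ 0) (h : t ^ p = s ^ p) : ∃ i : ℕ, t = ε ^ i * s := by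
  have h1 : (t / s) ^ p = 1 := by
    rw [div_pow, h, div_self (pow_ne_zero _ hs)]
  have : NeZero p := ⟨hp⟩
  obtain ⟨i, -, hi⟩ := hε.eq_pow_of_pow_eq_one h1
  exact ⟨i, by rw [hi, div_mul_cancel₀ _ hs]⟩

/-! ### The data of a class -/

/-- The data of a class `c`, `a` of the class `c`, `N = nf c`, `φ = cf c`, and of the base character `ψ₀`. -/
structure Dat (p : ℕ) [Fact p.Prime] {K : Type} [Field K] [NumberField K]
    (K₁ M₁ J M₂ F₀ N : IntermediateField K (AlgebraicClosure K)) [Algebra K₁ M₂] (ε₁ : K₁)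
    (εk : ℂ_[p]ˣ) (ψ₀ φ : Chr K (AlgebraicClosure K) ℂ_[p]) (a₀ : (M₂)ˣ)
    (s₀ : AlgebraicClosure K) (a : (K₁)ˣ) (v₀ : HeightOneSpectrum (𝓞 K)) : Prop where
  KM : ∀ x : K₁, ((algebraMap K₁ M₂ x : M₂) : AlgebraicClosure K) = x
  le1 : K₁ ≤ M₁
  eq2 : M₂ = M₁ ⊔ J
  leJ : J ≤ F₀
  prim : IsPrimitiveRoot ε₁ p
  primk : IsPrimitiveRoot εk p
  cop : (finrank K M₁).Coprime p
  cut0 : CutsOut ψ₀ F₀
  cutJ : CutsOut (ψ₀ ^ p) J
  cutN : CutsOut φ N
  degN : finrank K N = p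
  deg0 : ∃ l : ℕ, finrank K F₀ = p ^ l
  mem0 : s₀ ∈ M₂ ⊔ F₀
  pow0 : s₀ ^ p = ((a₀ : M₂) : AlgebraicClosure K)
  rel0 : ∀ g : AlgebraicClosure K ≃ₐ[K] AlgebraicClosure K, (∀ x ∈ M₂, g x = x) → ∀ i : ℕ,
    g s₀ = (ε₁ : AlgebraicClosure K) ^ i * s₀ → ψ₀ g = εk ^ i
  gen : Gen p (K₁.val : K₁ →+* AlgebraicClosure K) a N
  rel : ∀ s : AlgebraicClosure K, s ^ p = ((a : K₁) : AlgebraicClosure K) →
    ∀ g : AlgebraicClosure K ≃ₐ[K] AlgebraicClosure K, (∀ x ∈ K₁, g x = x) → ∀ i : ℕ,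
      g s = (ε₁ : AlgebraicClosure K) ^ i * s → φ g = εk ^ i
  ram : RamIn N v₀
  nram : ¬ RamIn F₀ v₀

section dat

variable {p : ℕ} [hpF : Fact p.Prime] {K : Type} [Field K] [NumberField K]
  {K₁ M₁ J M₂ F₀ N : IntermediateField K (AlgebraicClosure K)} [Algebra K₁ M₂] {ε₁ : K₁}
  {εk : ℂ_[p]ˣ} {ψ₀ φ : Chr K (AlgebraicClosure K) ℂ_[p]} {a₀ : (M₂)ˣ}
  {s₀ : AlgebraicClosure K} {a : (K₁)ˣ} {v₀ : HeightOneSpectrum (𝓞 K)}

theorem Dat.le2 (D : Dat p K₁ M₁ J M₂ F₀ N ε₁ εk ψ₀ φ a₀ s₀ a v₀) : K₁ ≤ M₂ := by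
  rw [D.eq2]; exact D.le1.trans le_sup_left

theorem Dat.primΩ (D : Dat p K₁ M₁ J M₂ F₀ N ε₁ εk ψ₀ φ a₀ s₀ a v₀) :
    IsPrimitiveRoot (ε₁ : AlgebraicClosure K) p :=
  D.prim.map_of_injective (f := K₁.val) K₁.val.injective

/-- The Kummer relation for the product. -/
theorem Dat.root (D : Dat p K₁ M₁ J M₂ F₀ N ε₁ εk ψ₀ φ a₀ s₀ a v₀) {s₁ : AlgebraicClosure K}
    (hs₁ : s₁ ^ p = ((a : K₁) : AlgebraicClosure K))
    (g : AlgebraicClosure K ≃ₐ[K] AlgebraicClosure K) (hg : ∀ x ∈ M₂, g x = x) :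
    ∃ i l : ℕ, g s₀ = (ε₁ : AlgebraicClosure K) ^ i * s₀ ∧
      g s₁ = (ε₁ : AlgebraicClosure K) ^ l * s₁ ∧ ψ₀ g = εk ^ i ∧ φ g = εk ^ l := by
  have hp : p.Prime := hpF.out
  have h0 : s₀ ≠ 0 := by
    rintro rfl
    have := D.pow0
    rw [zero_pow hp.ne_zero] at this
    exact a₀.ne_zero (Subtype.ext this.symm)
  have h1 : s₁ ≠ 0 := by
    rintro rfl
    rw [zero_pow hp.ne_zero] at hs₁
    exact a.ne_zero (Subtype.ext hs₁.symm)
  have e0 : (g s₀) ^ p = s₀ ^ p := by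
    rw [← map_pow, D.pow0]
    exact hg _ (a₀ : M₂).2
  have e1 : (g s₁) ^ p = s₁ ^ p := by
    rw [← map_pow, hs₁]
    exact hg _ (D.le2 (a : K₁).2)
  obtain ⟨i, hi⟩ := root_rel hp.ne_zero D.primΩ h0 e0
  obtain ⟨l, hl⟩ := root_rel hp.ne_zero D.primΩ h1 e1
  exact ⟨i, l, hi, hl, D.rel0 g hg i hi, D.rel s₁ hs₁ g (fun x hx => hg x (D.le2 hx)) l hl⟩

theorem Dat.fixε (D : Dat p K₁ M₁ J M₂ F₀ N ε₁ εk ψ₀ φ a₀ s₀ a v₀)
    (g : AlgebraicClosure K ≃ₐ[K] AlgebraicClosure K) (hg : ∀ x ∈ M₂, g x = x) :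
    g (ε₁ : AlgebraicClosure K) = ε₁ := hg _ (D.le2 ε₁.2)

theorem Dat.val (D : Dat p K₁ M₁ J M₂ F₀ N ε₁ εk ψ₀ φ a₀ s₀ a v₀) :
    (((a₀ * Units.map (algebraMap K₁ M₂ : K₁ →* M₂) a : (M₂)ˣ) : M₂) : AlgebraicClosure K) =
      ((a₀ : M₂) : AlgebraicClosure K) * ((a : K₁) : AlgebraicClosure K) := by
  rw [← D.KM (a : K₁)]
  rfl

/-- The condition on the automorphisms. -/
theorem Dat.aut (D : Dat p K₁ M₁ J M₂ F₀ N ε₁ εk ψ₀ φ a₀ s₀ a v₀) (s : AlgebraicClosure K)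
    (hs : s ^ p = (((a₀ * Units.map (algebraMap K₁ M₂ : K₁ →* M₂) a : (M₂)ˣ) : M₂) :
      AlgebraicClosure K))
    (g : AlgebraicClosure K ≃ₐ[K] AlgebraicClosure K) (hg : ∀ x ∈ M₂, g x = x)
    (h1 : (ψ₀ * φ) g = 1) : g s = s := by
  have hp : p.Prime := hpF.out
  obtain ⟨s₁, hs₁⟩ := IsAlgClosed.exists_pow_nat_eq ((a : K₁) : AlgebraicClosure K) (n := p) hp.pos
  obtain ⟨i, l, e0, e1, f0, f1⟩ := D.root hs₁ g hg
  have h2 : εk ^ (i + l) = 1 := by rw [pow_add, ← f0, ← f1]; exact h1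
  have h3 : p ∣ i + l := (D.primk.pow_eq_one_iff_dvd _).1 h2
  have h4 : (ε₁ : AlgebraicClosure K) ^ (i + l) = 1 := (D.primΩ.pow_eq_one_iff_dvd _).2 h3
  have h5 : g (s₀ * s₁) = s₀ * s₁ := by
    rw [map_mul, e0, e1]
    calc _ = (ε₁ : AlgebraicClosure K) ^ (i + l) * (s₀ * s₁) := by rw [pow_add]; ring
      _ = _ := by rw [h4, one_mul]
  have h6 : s ^ p = (s₀ * s₁) ^ p := by rw [hs, mul_pow, D.pow0, hs₁, D.val]
  have h7 : s₀ * s₁ ≠ 0 := by
    intro h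
    rw [h, zero_pow hp.ne_zero] at h6
    have h8 := D.val
    rw [← hs, h6] at h8
    rcases mul_eq_zero.1 h8.symm with h9 | h9
    · exact a₀.ne_zero (Subtype.ext h9)
    · exact a.ne_zero (Subtype.ext h9)
  obtain ⟨t, ht⟩ := root_rel hp.ne_zero D.primΩ h7 h6
  rw [ht, map_mul, map_pow, D.fixε g hg, h5]

/-- The product is not a `p`-th power. -/
theorem Dat.npw (D : Dat p K₁ M₁ J M₂ F₀ N ε₁ εk ψ₀ φ a₀ s₀ a v₀) [FiniteDimensional K M₁]
    [IsGalois K M₁] (g : AlgebraicClosure K ≃ₐ[K] AlgebraicClosure K) (hg : ∀ x ∈ F₀, g x = x)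
    (hφ : φ g ≠ 1) : ¬ Pw p (a₀ * Units.map (algebraMap K₁ M₂ : K₁ →* M₂) a) := by
  have hp : p.Prime := hpF.out
  rintro ⟨y, hy⟩
  set h : AlgebraicClosure K ≃ₐ[K] AlgebraicClosure K := g ^ finrank K M₁ with hh
  have hM₁ : ∀ x ∈ M₁, h x = x := by
    intro x hx
    have h1 : AlgEquiv.restrictNormalHom M₁ h = 1 := by
      rw [hh, map_pow, ← IsGalois.card_aut_eq_finrank K M₁]
      exact pow_card_eq_one'
    have h2 := h.restrictNormal_commutes M₁ ⟨x, hx⟩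
    have h3 : h.restrictNormal M₁ = 1 := h1
    rw [h3] at h2
    exact h2.symm
  have hpow : ∀ (n : ℕ), ∀ x ∈ F₀, (g ^ n) x = x := by
    intro n
    induction n with
    | zero => intro x _; rfl
    | succ n ih =>
      intro x hx
      rw [pow_succ, AlgEquiv.mul_apply, hg x hx, ih x hx]
  have hF₀ : ∀ x ∈ F₀, h x = x := hpow _
  have hM₂ : ∀ x ∈ M₂, h x = x := by
    rw [D.eq2]
    exact fix_sup h hM₁ fun x hx => hF₀ x (D.leJ hx)
  have hψ : ψ₀ h = 1 := (D.cut0 h).2 hF₀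
  have hφp : (φ g) ^ p = 1 := by
    have : FiniteDimensional K N := FiniteDimensional.of_finrank_pos (by rw [D.degN]; exact hp.pos)
    have h1 := pow_card_desc D.cutN g
    rwa [D.degN] at h1
  have hφh : φ h ≠ 1 := by
    intro h1
    rw [hh, map_pow] at h1
    have h2 := Nat.dvd_gcd (orderOf_dvd_of_pow_eq_one h1) (orderOf_dvd_of_pow_eq_one hφp)
    rw [D.cop] at h2
    exact hφ (orderOf_eq_one_iff.1 (Nat.dvd_one.1 h2))
  apply hφh
  obtain ⟨s₁, hs₁⟩ := IsAlgClosed.exists_pow_nat_eq ((a : K₁) : AlgebraicClosure K) (n := p) hp.pos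
  obtain ⟨i, l, e0, e1, f0, f1⟩ := D.root hs₁ h hM₂
  have h6 : (s₀ * s₁) ^ p = ((y : M₂) : AlgebraicClosure K) ^ p := by
    rw [mul_pow, D.pow0, hs₁, ← D.val, hy]
    push_cast
    rfl
  have hy0 : ((y : M₂) : AlgebraicClosure K) ≠ 0 := fun h0 => y.ne_zero (Subtype.ext h0)
  obtain ⟨t, ht⟩ := root_rel hp.ne_zero D.primΩ hy0 h6
  have h7 : h (s₀ * s₁) = s₀ * s₁ := by
    rw [ht, map_mul, map_pow, D.fixε h hM₂, hM₂ _ (y : M₂).2]
  have h8 : s₀ * s₁ ≠ 0 := by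
    rw [ht]
    exact mul_ne_zero (pow_ne_zero _ (D.primΩ.ne_zero hp.ne_zero)) hy0
  have h9 : (ε₁ : AlgebraicClosure K) ^ (i + l) = 1 := by
    have h10 : (ε₁ : AlgebraicClosure K) ^ (i + l) * (s₀ * s₁) = 1 * (s₀ * s₁) := by
      rw [one_mul, pow_add]
      nth_rewrite 2 [← h7]
      rw [map_mul, e0, e1]
      ring
    exact mul_right_cancel₀ h8 h10
  have h11 : p ∣ i := (D.primk.pow_eq_one_iff_dvd _).1 (by rw [← f0, hψ])
  have h12 : p ∣ i + l := (D.primΩ.pow_eq_one_iff_dvd _).1 h9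
  rw [f1]
  exact (D.primk.pow_eq_one_iff_dvd _).2 ((Nat.dvd_add_right h11).1 h12)

/-- The `p`-th roots of `a` are in the compositum of `M₂` and `N`. -/
theorem Dat.mem1 (D : Dat p K₁ M₁ J M₂ F₀ N ε₁ εk ψ₀ φ a₀ s₀ a v₀) (s : AlgebraicClosure K)
    (hs : s ^ p = ((a : K₁) : AlgebraicClosure K)) : s ∈ M₂ ⊔ N := by
  have h1 : IntermediateField.adjoin K {s} ≤ M₂ ⊔ N := by
    refine le_of_fix fun g hg => ?_
    have h2 : g s = s := D.gen s hs g (fun y hy => hg y ((le_sup_right : N ≤ M₂ ⊔ N) hy))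
      (fun x => hg _ ((le_sup_left : M₂ ≤ M₂ ⊔ N) (D.le2 x.2)))
    have h3 : IntermediateField.adjoin K {s} ≤
        IntermediateField.fixedField (Subgroup.zpowers g) := by
      rw [IntermediateField.adjoin_le_iff]
      rintro x rfl
      rw [SetLike.mem_coe, IntermediateField.mem_fixedField_iff]
      intro f hf
      obtain ⟨n, rfl⟩ := hf
      have h4 : g ∈ MulAction.stabilizer (AlgebraicClosure K ≃ₐ[K] AlgebraicClosure K) x := h2
      exact Subgroup.zpow_mem _ h4 n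
    intro y hy
    have h4 := h3 hy
    rw [IntermediateField.mem_fixedField_iff] at h4
    exact h4 g (Subgroup.mem_zpowers g)
  exact h1 (IntermediateField.mem_adjoin_simple_self K s)

theorem ordv_mulU {F : Type} [Field F] [NumberField F] (w : HeightOneSpectrum (𝓞 F)) (x y : Fˣ) :
    ordv w ((x * y : Fˣ) : F) = ordv w (x : F) + ordv w (y : F) := by
  unfold ordv
  rw [Units.val_mul, map_mul, WithZero.log_mul ((Valuation.ne_zero_iff _).2 x.ne_zero)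
    ((Valuation.ne_zero_iff _).2 y.ne_zero), neg_add]

/-- The primes above which the valuation of the product is not a multiple of `p`. -/
theorem Dat.tame (h3 : B_KU3) (D : Dat p K₁ M₁ J M₂ F₀ N ε₁ εk ψ₀ φ a₀ s₀ a v₀)
    [NumberField M₂] [NumberField F₀] [NumberField N] [IsGalois K F₀] [IsGalois K N]
    (v : HeightOneSpectrum (𝓞 K))
    (h : ∃ W : HeightOneSpectrum (𝓞 M₂), Above W v ∧ ¬ (p : ℤ) ∣
      ordv W ((a₀ * Units.map (algebraMap K₁ M₂ : K₁ →* M₂) a : (M₂)ˣ) : M₂)) :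
    RamIn N v ∨ RamIn F₀ v := by
  have hp : p.Prime := hpF.out
  obtain ⟨W, hW, hd⟩ := h
  by_contra hcon
  push Not at hcon
  apply hd
  rw [ordv_mulU]
  obtain ⟨s₁, hs₁⟩ := IsAlgClosed.exists_pow_nat_eq ((a : K₁) : AlgebraicClosure K) (n := p) hp.pos
  refine dvd_add (h3 p K M₂ F₀ a₀ s₀ D.pow0 D.mem0 v hcon.2 W hW)
    (h3 p K M₂ N (Units.map (algebraMap K₁ M₂ : K₁ →* M₂) a) s₁ ?_ (D.mem1 s₁ hs₁) v hcon.1 W hW)
  rw [hs₁]
  exact (D.KM (a : K₁)).symm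

/-- A prime which splits completely is not ramified. -/
theorem unram_of_splits {E : IntermediateField K (AlgebraicClosure K)} [NumberField E]
    [IsGalois K E] (v : HeightOneSpectrum (𝓞 K)) (h : SplitsIn (finrank K E) E v) :
    ¬ RamIn E v := by
  rintro ⟨V, hV, hle⟩
  have h0 : FreeP K V := free_of_splits v h V hV
  have h1 := Pool.Agent.Helper2.RL.ef_free V h0
  have hb : Pool.Agent.Helper40.RS.bel K V = v := Pool.Agent.Helper40.RD.bel_of_above hV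
  subst hb
  have h5 : V.asIdeal.ramificationIdx (𝓞 K) = 1 := Nat.eq_one_of_mul_eq_one_right h1
  have h6 := (Pool.Agent.Helper58.PP.map_le_iff K V).1 hle
  rw [Pool.Agent.Helper58.PP.ee, Ideal.ramificationIdx'_eq_ramificationIdx _ _
    (Pool.Agent.Helper40.RS.bel K V).ne_bot, h5] at h6
  omega

/-- There is an automorphism over `F₀ E` which is not trivial on `N`. -/
theorem Dat.exg (D : Dat p K₁ M₁ J M₂ F₀ N ε₁ εk ψ₀ φ a₀ s₀ a v₀)
    (E : IntermediateField K (AlgebraicClosure K)) [NumberField F₀] [NumberField N] [NumberField E]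
    [IsGalois K F₀] [IsGalois K E] (hE : ¬ RamIn E v₀) :
    ∃ g : AlgebraicClosure K ≃ₐ[K] AlgebraicClosure K, (∀ x ∈ F₀ ⊔ E, g x = x) ∧ φ g ≠ 1 := by
  by_contra hcon
  push Not at hcon
  have hle : N ≤ F₀ ⊔ E := le_of_fix fun g hg => (D.cutN g).1 (hcon g hg)
  have hf1 : FiniteDimensional K F₀ := Module.Finite.of_restrictScalars_finite ℚ K F₀
  have hf2 : FiniteDimensional K E := Module.Finite.of_restrictScalars_finite ℚ K E
  have hf3 : FiniteDimensional K (F₀ ⊔ E : IntermediateField K (AlgebraicClosure K)) :=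
    IntermediateField.finiteDimensional_sup F₀ E
  have hn3 : NumberField (F₀ ⊔ E : IntermediateField K (AlgebraicClosure K)) :=
    NumberField.of_module_finite K _
  let A1 : Algebra F₀ (F₀ ⊔ E : IntermediateField K (AlgebraicClosure K)) :=
    (IntermediateField.inclusion (le_sup_left : F₀ ≤ F₀ ⊔ E)).toRingHom.toAlgebra
  let A2 : Algebra E (F₀ ⊔ E : IntermediateField K (AlgebraicClosure K)) :=
    (IntermediateField.inclusion (le_sup_right : E ≤ F₀ ⊔ E)).toRingHom.toAlgebra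
  let A3 : Algebra N (F₀ ⊔ E : IntermediateField K (AlgebraicClosure K)) :=
    (IntermediateField.inclusion hle).toRingHom.toAlgebra
  have t1 : IsScalarTower K F₀ (F₀ ⊔ E : IntermediateField K (AlgebraicClosure K)) :=
    IsScalarTower.of_algebraMap_eq fun x => rfl
  have t2 : IsScalarTower K E (F₀ ⊔ E : IntermediateField K (AlgebraicClosure K)) :=
    IsScalarTower.of_algebraMap_eq fun x => rfl
  have t3 : IsScalarTower K N (F₀ ⊔ E : IntermediateField K (AlgebraicClosure K)) :=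
    IsScalarTower.of_algebraMap_eq fun x => rfl
  have hg : IsGalois K (F₀ ⊔ E : IntermediateField K (AlgebraicClosure K)) := inferInstance
  rcases ram_sup (K := K) (N := F₀) (N' := E) (N'' := N)
    (L := (F₀ ⊔ E : IntermediateField K (AlgebraicClosure K))) (by
      intro g g1 g2
      apply Pool.Agent.Helper35.RD.eq_one_of_sup F₀ E g
      · intro x hx
        exact g1 ⟨x, hx⟩
      · intro x hx
        exact g2 ⟨x, hx⟩) v₀ D.ram with h | h
  · exact D.nram h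
  · exact hE h

end dat

end Pool.Agent.Helper77.PPB
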