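import Pool.Agent.Helper77.PPB.Asm2
import Pool.Agent.Helper77.PPB.DENN

/-!
# Project PPB, ND (MP_fc6b1e_nt): assembly, natural density
-/

namespace Pool.Agent.Helper77.PPB

open Pool.Agent.Helper38.ND (N_ASM MOMBN MOMB1N)

/-- The density theorem for general base characters, natural density, from the moment theorems. -/
theorem a_denN (hMB : MOMBN) (hMB1 : MOMB1N) (hMR : MOMRN) (hNT2 : B_NTV2) (hASM : N_ASM) :
    B_DENN :=
  b_denN hMB hMB1 hMR x_kum Pool.Agent.Helper74.PPB.b_swt Pool.Agent.Helper58.PPB.b_ntv hNT2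
    Pool.Agent.Helper82.PPB.b_ku3 x_gl1 x_gl0 Pool.Agent.Helper77.PPL.d_map
    Pool.Agent.Helper39.PPB.b_chr hASM Pool.Agent.Helper22.RP.s_phi Pool.Agent.Helper11.RP.s_nsp
    Pool.Agent.Helper20.RD.e_frb

end Pool.Agent.Helper77.PPB
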