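import Pool.Agent.Helper77.PPB.Core
import Pool.Agent.Helper77.PPL.DENF
import Pool.Agent.Helper22.RP.PHI
import Pool.Agent.Helper11.RP.NSP
import Pool.Agent.Helper20.RD.FRB
import Pool.Agent.Helper14.RD.TOW

/-!
# Project PPB (MP_fc6b1e_nt): one class, `χ₀ ≠ 1`
-/

namespace Pool.Agent.Helper77.PPB

open NumberField Polynomial Module IsDedekindDomain TensorProduct Pool.Agent.Helper51.SigLeo
open Pool.Agent.Helper51.RP Pool.Agent.Helper42.RD Pool.Agent.Helper11.LE Pool.Agent.Helper11.PP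
open Pool.Agent.Helper38.FD (Chr CutsOut LeopoldtFor IsOrdinary isGalois_of_cutsOut
  free_of_splits splits_of_free ordv_of_unram exists_cutsOut exists_faithful fix_sup pow_card_desc
  Restricts)
open Pool.Agent.Helper42.PP (LocS)
open Pool.Agent.Helper42.PP1 (SitW NTV)
open Pool.Agent.Helper42.PB (SitB SitBs)
open Pool.Agent.Helper11.PB (MomC BdB MOMB MOMB1)
open Pool.Agent.Helper22.PP (ram_sup le_of_fix)

theorem momC_mono {p : ℕ} {K : Type} [Field K] [NumberField K] {K₁ : Type} [Field K₁]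
    [NumberField K₁] [Algebra K K₁] {ε : K₁} {Bd : Set (ClP p K₁)} {θ θ' : ℝ} (h : θ ≤ θ')
    (hm : MomC p K ε Bd θ) : MomC p K ε Bd θ' := by
  obtain ⟨h1, h2, h3, h4, h5⟩ := hm
  refine ⟨h1, h2, h3, h4, fun η hη => ?_⟩
  filter_upwards [h5 η hη] with X hX
  refine hX.trans (mul_le_mul_of_nonneg_right (by linarith) (tsum_nonneg fun _ =>
    (Real.exp_pos _).le))

/-- The field `J` of `ψ₀^p`. -/
theorem exists_J (p : ℕ) [hpF : Fact p.Prime] {K : Type} [Field K] [NumberField K]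
    {F₀ : IntermediateField K (AlgebraicClosure K)} {ψ₀ : Chr K (AlgebraicClosure K) ℂ_[p]}
    (hψ : CutsOut ψ₀ F₀) (hF : ∃ l : ℕ, finrank K F₀ = p ^ l) :
    ∃ J : IntermediateField K (AlgebraicClosure K), FiniteDimensional K J ∧
      CutsOut (ψ₀ ^ p) J ∧ J ≤ F₀ ∧ (∃ l : ℕ, finrank K J = p ^ l) ∧
      (finrank K F₀ ≤ p ^ 2 → finrank K J ≤ p) ∧ (p ^ 2 ≤ finrank K F₀ → J ≠ ⊥) := by
  have hp : p.Prime := hpF.out
  obtain ⟨l, hl⟩ := hF
  have hfF : FiniteDimensional K F₀ := FiniteDimensional.of_finrank_pos (by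
    rw [hl]; exact pow_pos hp.pos l)
  have hgF := isGalois_of_cutsOut hψ
  have h1 : ∀ g : AlgebraicClosure K ≃ₐ[K] AlgebraicClosure K, (∀ x ∈ F₀, g x = x) →
      (ψ₀ ^ p) g = 1 := by
    intro g hg
    rw [MonoidHom.pow_apply, (hψ g).2 hg, one_pow]
  obtain ⟨J, hfJ, hJ⟩ := exists_cutsOut (ψ₀ ^ p) F₀ h1
  have hJF : J ≤ F₀ := le_of_fix fun g hg => (hJ g).1 (h1 g hg)
  have hdvd : finrank K J ∣ finrank K F₀ := by
    let A1 : Algebra J F₀ := (IntermediateField.inclusion hJF).toRingHom.toAlgebra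
    have t1 : IsScalarTower K J F₀ := IsScalarTower.of_algebraMap_eq fun x => rfl
    exact ⟨_, (Module.finrank_mul_finrank K J F₀).symm⟩
  obtain ⟨l', -, hl'⟩ := (Nat.dvd_prime_pow hp).1 (show finrank K J ∣ p ^ l from hl ▸ hdvd)
  obtain ⟨χ', hinj, hχ'⟩ := exists_faithful hψ
  have hinj' : Function.Injective ((Units.coeHom ℂ_[p]).comp χ') := by
    intro x y hxy
    apply hinj
    exact Units.ext hxy
  have hcyc : IsCyclic (F₀ ≃ₐ[K] F₀) := isCyclic_of_injective_ringHom _ hinj'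
  obtain ⟨τ, hτ⟩ := IsCyclic.exists_generator (α := (F₀ ≃ₐ[K] F₀))
  have hτo : orderOf τ = finrank K F₀ := by
    rw [orderOf_eq_card_of_forall_mem_zpowers hτ, IsGalois.card_aut_eq_finrank]
  obtain ⟨τ', hτ'⟩ := Pool.Agent.Helper38.FD.exists_lift (H := F₀) τ
  refine ⟨J, hfJ, hJ, hJF, ⟨l', hl'⟩, ?_, ?_⟩
  · intro hle
    rcases eq_or_ne J F₀ with h | h
    · -- `J = F₀`: then `ψ₀ = 1`
      have h2 : (χ' τ) ^ p = 1 → χ' τ = 1 := by
        intro h3
        have h4 : (ψ₀ ^ p) τ' = 1 := by rw [MonoidHom.pow_apply, hχ' τ' τ hτ', h3]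
        have h5 := (hJ τ').1 h4
        rw [h] at h5
        rw [← hχ' τ' τ hτ']
        exact (hψ τ').2 h5
      have h6 : τ ^ p ^ l = 1 := by rw [← hl, ← hτo]; exact pow_orderOf_eq_one τ
      have h7 : ∀ m : ℕ, (χ' τ) ^ p ^ m = 1 → χ' τ = 1 := by
        intro m
        induction m with
        | zero => intro h8; simpa using h8
        | succ m ih =>
          intro h8
          apply ih
          -- the `p^m`-th power
          have h9 : ((χ' (τ ^ p ^ m))) ^ p = 1 := by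
            rw [map_pow, ← pow_mul, ← pow_succ]; exact h8
          have h10 : (ψ₀ ^ p) (τ' ^ p ^ m) = 1 := by
            rw [MonoidHom.pow_apply, map_pow, hχ' τ' τ hτ', ← map_pow, h9]
          have h11 := (hJ _).1 h10
          rw [h] at h11
          rw [← hχ' τ' τ hτ', ← map_pow]
          exact (hψ _).2 h11
      have h8 : χ' τ = 1 := h7 l (by rw [← map_pow, h6, map_one])
      have h9 : τ = 1 := hinj (by rw [h8, map_one])
      rw [h, ← hτo, h9, orderOf_one]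
      exact hp.one_le
    · -- `[F₀ : J] ≥ p`
      let A1 : Algebra J F₀ := (IntermediateField.inclusion hJF).toRingHom.toAlgebra
      have t1 : IsScalarTower K J F₀ := IsScalarTower.of_algebraMap_eq fun x => rfl
      have h2 := Module.finrank_mul_finrank K J F₀
      have h3 : finrank J F₀ ∣ p ^ l := by rw [← hl, ← h2]; exact dvd_mul_left _ _
      obtain ⟨b, -, hb⟩ := (Nat.dvd_prime_pow hp).1 h3
      have hb0 : b ≠ 0 := by
        rintro rfl
        rw [pow_zero] at hb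
        rw [hb, mul_one] at h2
        exact h (IntermediateField.eq_of_le_of_finrank_eq hJF h2)
      have h4 : p ≤ finrank J F₀ := by
        rw [hb]
        exact Nat.le_self_pow hb0 p
      have h5 : finrank K J * p ≤ p * p := by
        rw [← pow_two]
        exact (Nat.mul_le_mul_left _ h4).trans (by rw [h2]; exact hle)
      exact Nat.le_of_mul_le_mul_right h5 hp.pos
  · rintro hle rfl
    have h2 : (χ' τ) ^ p = 1 := by
      rw [← hχ' τ' τ hτ', ← MonoidHom.pow_apply]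
      refine (hJ τ').2 ?_
      intro x hx
      obtain ⟨y, rfl⟩ := IntermediateField.mem_bot.1 hx
      exact τ'.commutes y
    have h3 : τ ^ p = 1 := hinj (by rw [map_pow, h2, map_one])
    have h4 := Nat.le_of_dvd hp.pos (orderOf_dvd_of_pow_eq_one h3)
    rw [hτo] at h4
    have h5 := hle.trans h4
    have h6 : p ^ 1 < p ^ 2 := Nat.pow_lt_pow_right hp.one_lt (by norm_num)
    rw [pow_one] at h6
    omega

section psi

variable {p : ℕ} [hpF : Fact p.Prime] {K : Type} [Field K] [NumberField K]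
  {K₁ M₁ J M₂ F₀ N : IntermediateField K (AlgebraicClosure K)} [Algebra K₁ M₂] {ε₁ : K₁}
  {εk : ℂ_[p]ˣ} {ψ₀ φ : Chr K (AlgebraicClosure K) ℂ_[p]} {a₀ : (M₂)ˣ}
  {s₀ : AlgebraicClosure K} {a : (K₁)ˣ} {v₀ : HeightOneSpectrum (𝓞 K)}

/-- The properties of `ψ₁ = ψ₀ φ`. -/
theorem Dat.psi (D : Dat p K₁ M₁ J M₂ F₀ N ε₁ εk ψ₀ φ a₀ s₀ a v₀) :
    (∃ F₁ : IntermediateField K (AlgebraicClosure K), FiniteDimensional K F₁ ∧
      CutsOut (ψ₀ * φ) F₁) ∧
    (∃ l : ℕ, (ψ₀ * φ) ^ p ^ l = 1) ∧ (∀ g, (∀ x ∈ J, g x = x) → (ψ₀ * φ) g ^ p = 1) := by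
  have hp : p.Prime := hpF.out
  obtain ⟨l, hl⟩ := D.deg0
  have f1 : FiniteDimensional K F₀ := FiniteDimensional.of_finrank_pos (by
    rw [hl]; exact pow_pos hp.pos l)
  have f2 : FiniteDimensional K N := FiniteDimensional.of_finrank_pos (by
    rw [D.degN]; exact hp.pos)
  have f3 : FiniteDimensional K (F₀ ⊔ N : IntermediateField K (AlgebraicClosure K)) :=
    IntermediateField.finiteDimensional_sup F₀ N
  have e1 : ψ₀ ^ p ^ l = 1 := by
    have := pow_eq_one_of D.cut0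
    rwa [hl] at this
  have e2 : φ ^ p = 1 := by
    have h := pow_eq_one_of D.cutN
    ext g
    have h2 := pow_card_desc D.cutN g
    rw [D.degN] at h2
    rw [MonoidHom.pow_apply, h2]
    rfl
  refine ⟨exists_cutsOut (ψ₀ * φ) (F₀ ⊔ N) ?_, ⟨l + 1, ?_⟩, ?_⟩
  · intro g hg
    rw [MonoidHom.mul_apply, (D.cut0 g).2 fun x hx => hg x ((le_sup_left : F₀ ≤ F₀ ⊔ N) hx),
      (D.cutN g).2 fun x hx => hg x ((le_sup_right : N ≤ F₀ ⊔ N) hx), one_mul]
  · ext g
    have h1 : ψ₀ g ^ p ^ l = 1 := by rw [← MonoidHom.pow_apply, e1, MonoidHom.one_apply]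
    have h2 : φ g ^ p = 1 := by rw [← MonoidHom.pow_apply, e2, MonoidHom.one_apply]
    have h3 : ((ψ₀ * φ) ^ p ^ (l + 1)) g = 1 := by
      rw [MonoidHom.pow_apply, MonoidHom.mul_apply, mul_pow, pow_succ, pow_mul, h1, one_pow,
        one_mul, mul_comm, pow_mul, h2, one_pow]
    rw [h3]
    rfl
  · intro g hg
    have h3 := (D.cutJ g).2 hg
    rw [MonoidHom.pow_apply] at h3
    rw [MonoidHom.mul_apply, mul_pow, h3, one_mul, ← MonoidHom.pow_apply, e2, MonoidHom.one_apply]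

end psi

/-- The common properties of the companions. -/
theorem comp_props {p : ℕ} {K : Type} [Field K] [NumberField K]
    {M F₀ N E : IntermediateField K (AlgebraicClosure K)} [NumberField M] [IsGalois K M]
    [NumberField E] [IsGalois K E] (hC : CompB p M F₀ N E) :
    (∀ v : HeightOneSpectrum (𝓞 K), (p : 𝓞 K) ∈ v.asIdeal →
      ∀ V : HeightOneSpectrum (𝓞 E), Above V v → FreeP K V) ∧
    (∀ v : HeightOneSpectrum (𝓞 K), RamIn N v ∨ RamIn F₀ v →
      ∀ V : HeightOneSpectrum (𝓞 E), Above V v → FreeP K V) ∧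
    (∀ v : HeightOneSpectrum (𝓞 K),
      (∃ w : HeightOneSpectrum (𝓞 M), Above w v ∧ FreeP K w) →
      ∀ V : HeightOneSpectrum (𝓞 E), Above V v →
        ∀ x : K, ordv V (algebraMap K E x) = ordv v x) ∧
    (∀ v : HeightOneSpectrum (𝓞 K), RamIn N v → ¬ RamIn E v) := by
  refine ⟨fun v hv V hV => free_of_splits v (hC.split v (Or.inl hv)) V hV,
    fun v hv V hV => free_of_splits v (hC.split v (Or.inr hv)) V hV, ?_,
    fun v hv => unram_of_splits v (hC.split v (Or.inr (Or.inl hv)))⟩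
  rintro v ⟨w, hw, hf⟩ V hV x
  exact ordv_of_unram v (hC.unr v (splits_of_free v w hw hf)) V hV x

/-- The degree of `M₂` over `K₁`. -/
theorem one_lt_deg {p : ℕ} [hpF : Fact p.Prime] {K : Type} [Field K] [NumberField K]
    {M K₁ M₁ J M₂ : IntermediateField K (AlgebraicClosure K)} [FiniteDimensional K M₂]
    [Algebra K₁ M₂] (hK : ∀ x : K₁, ((algebraMap K₁ M₂ x : M₂) : AlgebraicClosure K) = x)
    (h1 : M ≤ M₁) (h2 : K₁ ≤ M₁) (h3 : M₂ = M₁ ⊔ J) (hcop : (finrank K K₁).Coprime p)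
    (hJ : ∃ l : ℕ, finrank K J = p ^ l) (h4 : ¬ M ≤ K₁ ∨ J ≠ ⊥) : 1 < finrank K₁ M₂ := by
  have hp : p.Prime := hpF.out
  have hle : K₁ ≤ M₂ := by rw [h3]; exact h2.trans le_sup_left
  have t1 : IsScalarTower K K₁ M₂ := IsScalarTower.of_algebraMap_eq fun x => by
    apply Subtype.ext
    rw [hK]
    rfl
  have f1 : FiniteDimensional K₁ M₂ := FiniteDimensional.right K K₁ M₂
  have hpos : 0 < finrank K₁ M₂ := finrank_pos
  by_contra hcon
  have h5 : finrank K₁ M₂ = 1 := by omega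
  have h6 := Module.finrank_mul_finrank K K₁ M₂
  rw [h5, mul_one] at h6
  have h7 : K₁ = M₂ := IntermediateField.eq_of_le_of_finrank_eq hle h6
  rcases h4 with h4 | h4
  · apply h4
    rw [h7, h3]
    exact h1.trans le_sup_left
  · apply h4
    have hJK : J ≤ K₁ := by rw [h7, h3]; exact le_sup_right
    have f2 : FiniteDimensional K K₁ := by rw [h7]; infer_instance
    let A1 : Algebra J K₁ := (IntermediateField.inclusion hJK).toRingHom.toAlgebra
    have t2 : IsScalarTower K J K₁ := IsScalarTower.of_algebraMap_eq fun x => rfl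
    have h8 : finrank K J ∣ finrank K K₁ := ⟨_, (Module.finrank_mul_finrank K J K₁).symm⟩
    obtain ⟨l, hl⟩ := hJ
    have h9 : (p ^ l).Coprime p := by
      rw [← hl]; exact hcop.coprime_dvd_left h8
    have h10 : l = 0 := by
      by_contra h11
      have h12 : p ∣ p ^ l := dvd_pow_self p h11
      have h13 := Nat.dvd_gcd h12 (dvd_refl p)
      rw [h9] at h13
      exact hp.one_lt.ne' (Nat.dvd_one.1 h13)
    rw [h10, pow_zero] at hl
    exact IntermediateField.finrank_eq_one_iff.1 hl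

/-- The facts available for the application of a moment theorem. -/
structure Bun (p : ℕ) [Fact p.Prime] {K : Type} [Field K] [NumberField K]
    (K₁ M F₀ M₁ J M₂ : IntermediateField K (AlgebraicClosure K)) [NumberField K₁] [NumberField M]
    [NumberField M₁] [NumberField J] [NumberField M₂] [Algebra M M₁] [Algebra K₁ M₁] [Algebra M M₂]
    [Algebra K₁ M₂] [Algebra M₁ M₂] [Algebra J M₂] (ε₁ : K₁)
    (χM : (M ≃ₐ[K] M) →* ℂ_[p]ˣ) (δ : M ≃ₐ[K] M) (Φ : ℤ_[p][X]) (P : (ZMod p)[X]) (a₀ : (M₂)ˣ) :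
    Prop where
  v1 : ∀ x : M, ((algebraMap M M₁ x : M₁) : AlgebraicClosure K) = x
  v2 : ∀ x : K₁, ((algebraMap K₁ M₁ x : M₁) : AlgebraicClosure K) = x
  w2 : ∀ x : K₁, ((algebraMap K₁ M₂ x : M₂) : AlgebraicClosure K) = x
  leM : M ≤ M₁
  leK : K₁ ≤ M₁
  eq2 : M₂ = M₁ ⊔ J
  copK : (finrank K K₁).Coprime p
  degJ : ∃ l : ℕ, finrank K J = p ^ l
  neJ : p ^ 2 ≤ finrank K F₀ → J ≠ ⊥
  sit : SitBs p K M K₁ M₁ J M₂ ε₁ δ P a₀
  ord : orderOf δ = finrank K M
  phi : PhiData p (finrank K M) ((χM δ : ℂ_[p]ˣ) : ℂ_[p]) Φ P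
  tor : TorOK P δ
  ntv : NTV p M₁ ε₁ δ P

/-- One class, `χ₀ ≠ 1`, from a moment theorem (`Q` is a property of the set of the bad classes). -/
theorem cls1 (hKU : B_KUM) (hSW : B_SWT) (hNT : B_NTV) (h3 : B_KU3) (hGL : B_GL1)
    (hPH : S_PHI) (hNS : S_NSP) (hFR : Pool.Agent.Helper76.RD.E_FRB)
    (p : ℕ) [hpF : Fact p.Prime] (K : Type) [Field K] [NumberField K]
    (ιinf : AlgebraicClosure K →+* ℂ) (ιp : AlgebraicClosure K →+* ℂ_[p]) (Lg : IwasawaLog p ℂ_[p])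
    (K₁ : IntermediateField K (AlgebraicClosure K)) [NumberField K₁] (ε : AlgebraicClosure K)
    (hε : IsPrimitiveRoot ε p) (hK₁ : K₁ = IntermediateField.adjoin K {ε}) (ε₁ : K₁)
    (hε₁ : (ε₁ : AlgebraicClosure K) = ε) (εk : ℂ_[p]ˣ) (hεk : IsPrimitiveRoot εk p)
    (nf : ClP p K₁ → IntermediateField K (AlgebraicClosure K))
    (cf : ClP p K₁ → Chr K (AlgebraicClosure K) ℂ_[p])
    (n1 : ∀ c ∈ BSet p K ε₁, nf c ∈ CycN p K ∧
      ∀ a : (K₁)ˣ, clp p a = c → Gen p (K₁.val : K₁ →+* AlgebraicClosure K) a (nf c))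
    (n5 : ∀ c ∈ BSet p K ε₁, CutsOut (cf c) (nf c) ∧ ∀ a : (K₁)ˣ, clp p a = c →
      ∀ s : AlgebraicClosure K, s ^ p = (K₁.val : K₁ →+* AlgebraicClosure K) (a : K₁) →
      ∀ g : AlgebraicClosure K ≃ₐ[K] AlgebraicClosure K,
        (∀ x : K₁, g ((K₁.val : K₁ →+* AlgebraicClosure K) x) =
          (K₁.val : K₁ →+* AlgebraicClosure K) x) → ∀ i : ℕ,
        g s = (K₁.val : K₁ →+* AlgebraicClosure K) ε₁ ^ i * s → cf c g = εk ^ i)
    (S : Set (K →+* ℂ)) (hcl : PlaceClosed (TSet ιinf ιp S))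
    (M F₀ : IntermediateField K (AlgebraicClosure K)) (χ₀ ψ₀ : Chr K (AlgebraicClosure K) ℂ_[p])
    [FiniteDimensional K M] (hχ : CutsOut χ₀ M) (hcop : (finrank K M).Coprime p)
    (hω : ∃ (g : AlgebraicClosure K ≃ₐ[K] AlgebraicClosure K) (r : ℕ),
      (∀ ξ : AlgebraicClosure K, ξ ^ p = 1 → g ξ = ξ ^ r) ∧
      ‖((χ₀ g : ℂ_[p]ˣ) : ℂ_[p]) - r‖ = 1)
    (hne : M ≠ ⊥)
    (hψ : CutsOut ψ₀ F₀) (hF : ∃ l : ℕ, finrank K F₀ = p ^ l)
    (hspl : ∀ v : HeightOneSpectrum (𝓞 K), (p : 𝓞 K) ∈ v.asIdeal →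
      SplitsIn (finrank K F₀) F₀ v) (Q : Set (ClP p K₁) → Prop)
    (hMB : ∀ (M₁ J M₂ : IntermediateField K (AlgebraicClosure K)) [NumberField M]
      [NumberField M₁] [NumberField J] [NumberField M₂] [Algebra M M₁] [Algebra K₁ M₁]
      [Algebra M M₂] [Algebra K₁ M₂] [Algebra M₁ M₂] [Algebra J M₂] [IsGalois K M]
      (χM : (M ≃ₐ[K] M) →* ℂ_[p]ˣ) (δ : M ≃ₐ[K] M) (Φ : ℤ_[p][X]) (P : (ZMod p)[X])
      (a₀ : (M₂)ˣ), (∀ g, χ₀ g = χM (AlgEquiv.restrictNormalHom M g)) →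
      Bun p K₁ M F₀ M₁ J M₂ ε₁ χM δ Φ P a₀ →
      Q (BdB Lg (TSet ιinf ιp S) P δ a₀)) :
    ∃ Bd : Set (ClP p K₁), Q Bd ∧
      ∀ c ∈ ASet p K ε₁,
        (∃ v : HeightOneSpectrum (𝓞 K), RamIn (nf c) v ∧ ¬ RamIn F₀ v) → c ∉ Bd → ∀ l : ℕ,
        GoodB ιinf ιp Lg S M F₀ (χ₀ ^ p ^ l) ψ₀ (nf c, cf c) := by
  classical
  have hp : p.Prime := hpF.out
  have hgM : IsGalois K M := isGalois_of_cutsOut hχ
  have hnM : NumberField M := NumberField.of_module_finite K M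
  obtain ⟨χM, hinj, hχM'⟩ := exists_faithful hχ
  have hres : ∀ (X : IntermediateField K (AlgebraicClosure K)) [IsGalois K X]
      (g : AlgebraicClosure K ≃ₐ[K] AlgebraicClosure K),
      Restricts (algebraMap X (AlgebraicClosure K)) g (AlgEquiv.restrictNormalHom X g) :=
    fun X _ g x ↦ (AlgEquiv.restrictNormal_commutes g X x).symm
  have hχM : ∀ g, χ₀ g = χM (AlgEquiv.restrictNormalHom M g) := fun g => hχM' g _ (hres M g)
  have hinj' : Function.Injective ((Units.coeHom ℂ_[p]).comp χM) := by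
    intro x y hxy
    apply hinj
    exact Units.ext hxy
  have hcyc : IsCyclic (M ≃ₐ[K] M) := isCyclic_of_injective_ringHom _ hinj'
  obtain ⟨δ, hδ⟩ := IsCyclic.exists_generator (α := (M ≃ₐ[K] M))
  have horder : orderOf δ = finrank K M := by
    rw [orderOf_eq_card_of_forall_mem_zpowers hδ, IsGalois.card_aut_eq_finrank]
  have hm0 : 0 < finrank K M := finrank_pos
  have hprim : IsPrimitiveRoot ((χM δ : ℂ_[p]ˣ) : ℂ_[p]) (finrank K M) := by
    have h4 : orderOf ((χM δ : ℂ_[p]ˣ) : ℂ_[p]) = finrank K M := by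
      rw [← horder]
      exact orderOf_injective ((Units.coeHom ℂ_[p]).comp χM) hinj' δ
    rw [← h4]
    exact IsPrimitiveRoot.orderOf _
  have hlt : 1 < finrank K M := by
    by_contra hle
    have h9 : finrank K M = 1 := by omega
    exact hne (IntermediateField.finrank_eq_one_iff.1 h9)
  obtain ⟨Φ, P, hPhi⟩ := hPH p ℂ_[p] (finrank K M) ((χM δ : ℂ_[p]ˣ) : ℂ_[p]) hcop hlt hprim
  have hnsp := hNS p ℂ_[p] K M (finrank K M) δ _ Φ P hPhi horder rfl
  -- the tower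
  obtain ⟨K₁', M₁, _, hnM₁, _, _, ε₁', t1, t2, v1, v2, e1, e2, e3, hC, hSit⟩ :=
    hSW p K M hcop ε hε δ P horder hPhi.irr hPhi.dvdP hnsp
  obtain rfl : K₁' = K₁ := by rw [e2, hK₁]
  obtain rfl : ε₁' = ε₁ := Subtype.ext (by rw [e1, hε₁])
  have hle1 : K₁' ≤ M₁ := by rw [e3]; exact le_sup_right
  have hleM : M ≤ M₁ := by rw [e3]; exact le_sup_left
  -- the field `J`
  obtain ⟨J, hfJ, hcJ, hJF, hdJ, -, hJne⟩ := exists_J p hψ hF
  have hnJ : NumberField J := NumberField.of_module_finite K J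
  obtain ⟨l₀, hl₀⟩ := id hF
  have hfF : FiniteDimensional K F₀ := FiniteDimensional.of_finrank_pos (by
    rw [hl₀]; exact pow_pos hp.pos l₀)
  have hnF : NumberField F₀ := NumberField.of_module_finite K F₀
  have hgF : IsGalois K F₀ := isGalois_of_cutsOut hψ
  have hgJ : IsGalois K J := isGalois_of_cutsOut hcJ
  have hgM₁ : IsGalois K M₁ := hSit.gMK
  have hfM₁ : FiniteDimensional K M₁ := Module.Finite.of_restrictScalars_finite ℚ K M₁
  obtain ⟨M₂, hM₂⟩ : ∃ M₂ : IntermediateField K (AlgebraicClosure K), M₂ = M₁ ⊔ J := ⟨_, rfl⟩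
  have hfM₂ : FiniteDimensional K M₂ := by
    rw [hM₂]; exact IntermediateField.finiteDimensional_sup M₁ J
  have hnM₂ : NumberField M₂ := NumberField.of_module_finite K M₂
  have hle2 : M₁ ≤ M₂ := by rw [hM₂]; exact le_sup_left
  have hleJ : J ≤ M₂ := by rw [hM₂]; exact le_sup_right
  let A1 : Algebra M M₂ := (IntermediateField.inclusion (hleM.trans hle2)).toRingHom.toAlgebra
  let A2 : Algebra K₁' M₂ := (IntermediateField.inclusion (hle1.trans hle2)).toRingHom.toAlgebra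
  let A3 : Algebra M₁ M₂ := (IntermediateField.inclusion hle2).toRingHom.toAlgebra
  let A4 : Algebra J M₂ := (IntermediateField.inclusion hleJ).toRingHom.toAlgebra
  obtain ⟨a₀, s₀, hB, m0, p0, r0⟩ := hKU p K M K₁' M₁ ε₁' δ P hSit
    (M₁.val : M₁ →+* AlgebraicClosure K) M₁ (fun x => rfl)
    (fun y => ⟨fun hy => ⟨⟨y, hy⟩, rfl⟩, by rintro ⟨x, rfl⟩; exact x.2⟩) εk hεk ψ₀ F₀ hψ hF hspl
    J M₂ (fun x => (v1 x).symm) (fun x => (v2 x).symm) (fun x => rfl) (fun x => rfl) hcJ hM₂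
  have hval₁ : (M₁.val : M₁ →+* AlgebraicClosure K) (algebraMap K₁' M₁ ε₁') = ε₁' := v2 ε₁'
  obtain ⟨hTor, hNTV⟩ := hNT p K M K₁' M₁ v1 v2 ε₁' δ P hSit χM Φ horder hPhi (by
    obtain ⟨g, r, h4, h5⟩ := hω
    exact ⟨g, r, h4, by rw [← hχM g]; exact h5⟩)
  have hgK : IsGalois K K₁' := hSit.gK
  have hcopK : (finrank K K₁').Coprime p := by
    have h1 := Pool.Agent.Helper14.RD.finrank_dvd_pred p K K₁' ε₁' hC.prim hC.gen
    exact Nat.Coprime.coprime_dvd_left h1 ((Nat.coprime_self_sub_left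
      (Fact.out : p.Prime).one_le).2 (Nat.coprime_one_left p))
  have hcopM₁ : (finrank K M₁).Coprime p := by
    have h1 := Module.finrank_mul_finrank K K₁' M₁
    rw [← h1]
    exact Nat.Coprime.mul_left hcopK hSit.c2
  have hbun : Bun p K₁' M F₀ M₁ J M₂ ε₁' χM δ Φ P a₀ :=
    { v1 := v1, v2 := v2, w2 := fun x => rfl, leM := hleM, leK := hle1, eq2 := hM₂
      copK := hcopK, degJ := hdJ, neJ := hJne, sit := hB, ord := horder, phi := hPhi
      tor := hTor, ntv := hNTV }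
  have hmom := hMB M₁ J M₂ χM δ Φ P a₀ hχM hbun
  refine ⟨_, hmom, ?_⟩
  intro c hc hv hcB l E ψ hComp hcutE
  obtain ⟨v₀, hv1, hv2⟩ := hv
  obtain ⟨hc1, a, hac, hom, hni⟩ := hc
  have hcBS : c ∈ BSet p K ε₁' := ⟨hc1, a, hac, hom⟩
  obtain ⟨hNc, hgen⟩ := n1 c hcBS
  obtain ⟨hcut, hrel⟩ := n5 c hcBS
  have hgN : IsGalois K (nf c) := hNc.2
  have hfN : FiniteDimensional K (nf c) := FiniteDimensional.of_finrank_pos (by
    rw [hNc.1]; exact hp.pos)
  have hnN : NumberField (nf c) := NumberField.of_module_finite K (nf c)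
  have hgE : IsGalois K E := isGalois_of_cutsOut hcutE
  obtain ⟨lE, hlE⟩ := hComp.deg
  have hfE : FiniteDimensional K E := FiniteDimensional.of_finrank_pos (by
    rw [hlE]; exact pow_pos hp.pos lE)
  have hnE : NumberField E := NumberField.of_module_finite K E
  have D : Dat p K₁' M₁ J M₂ F₀ (nf c) ε₁' εk ψ₀ (cf c) a₀ s₀ a v₀ :=
    { KM := fun x => rfl
      le1 := hle1
      eq2 := hM₂
      leJ := hJF
      prim := hC.prim
      primk := hεk
      cop := hcopM₁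
      cut0 := hψ
      cutJ := hcJ
      cutN := hcut
      degN := hNc.1
      deg0 := hF
      mem0 := m0
      pow0 := p0
      rel0 := by
        intro g hg i hi
        exact r0 g hg i (by rw [hval₁]; exact hi)
      gen := hgen a hac
      rel := fun s hs g hg i hi => hrel a hac s hs g (fun x => hg _ x.2) i hi
      ram := hv1
      nram := hv2 }
  obtain ⟨c1, c2, c3, c4⟩ := comp_props hComp
  obtain ⟨g, hg1, hg2⟩ := D.exg E (c4 v₀ hv1)
  obtain ⟨q1, q2, q3⟩ := D.psi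
  have hψg : (ψ₀ * cf c) g ≠ 1 := by
    rw [MonoidHom.mul_apply, (hψ g).2 fun x hx => hg1 x ((le_sup_left : F₀ ≤ F₀ ⊔ E) hx), one_mul]
    exact hg2
  have hsplJ : ∀ v : HeightOneSpectrum (𝓞 K), (p : 𝓞 K) ∈ v.asIdeal →
      ∀ V : HeightOneSpectrum (𝓞 J), Above V v → FreeP K V := by
    intro v hv V hV
    apply hB.splJ V
    have e : ((p : 𝓞 J) : J) = p := map_natCast (algebraMap (𝓞 J) J) p
    rw [← e]
    refine (V.valuation_lt_one_iff_mem (K := J) (p : 𝓞 J)).2 ?_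
    have h9 : (p : 𝓞 K) ∈ V.asIdeal.comap (algebraMap (𝓞 K) (𝓞 J)) := by
      rw [show V.asIdeal.comap (algebraMap (𝓞 K) (𝓞 J)) = v.asIdeal from hV]
      exact hv
    rw [Ideal.mem_comap, map_natCast] at h9
    exact h9
  -- the character
  have hχl : ∀ g, (χ₀ ^ p ^ l) g = (χM ^ p ^ l) (AlgEquiv.restrictNormalHom M g) := by
    intro g
    rw [MonoidHom.pow_apply, MonoidHom.pow_apply, hχM]
  have hcardM : Nat.card (M ≃ₐ[K] M) = finrank K M := IsGalois.card_aut_eq_finrank K M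
  have hinjl : Function.Injective (χM ^ p ^ l) := by
    rw [injective_iff_map_eq_one]
    intro x hx
    rw [MonoidHom.pow_apply, ← map_pow] at hx
    have h5 : x ^ p ^ l = 1 := hinj (by rw [hx, map_one])
    have h6 : x ^ finrank K M = 1 := by rw [← hcardM]; exact pow_card_eq_one'
    have h7 := Nat.dvd_gcd (orderOf_dvd_of_pow_eq_one h6) (orderOf_dvd_of_pow_eq_one h5)
    rw [(hcop.pow_right l : (finrank K M).gcd (p ^ l) = 1)] at h7
    exact orderOf_eq_one_iff.1 (Nat.dvd_one.1 h7)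
  have hPhil : PhiData p (finrank K M) (((χM ^ p ^ l) δ : ℂ_[p]ˣ) : ℂ_[p]) Φ P := by
    rw [MonoidHom.pow_apply, Units.val_pow_eq_pow_val]
    exact Pool.Agent.Helper74.RD.phi_pow hFR hPhi l
  have hom2 : OmType p K (algebraMap K₁' M₂ ε₁')
      ((a₀ * Units.map (algebraMap K₁' M₂ : K₁' →* M₂) a : (M₂)ˣ) : M₂) := by
    have t3 : IsScalarTower K K₁' M₂ := IsScalarTower.of_algebraMap_eq fun x => rfl
    exact om_both hp hC.prim a.ne_zero hB.om hom
  have hfin := hGL p K ιinf ιp Lg S hcl M M₁ J M₂ (fun x => rfl) hleM hM₂ hcopM₁ hdJ hsplJ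
    (χM ^ p ^ l) hinjl δ Φ P horder hPhil hTor hnsp (χ₀ ^ p ^ l) (ψ₀ * cf c) ψ hχl q1 q2 q3
    (algebraMap K₁' M₂ ε₁') (a₀ * Units.map (algebraMap K₁' M₂ : K₁' →* M₂) a)
    (hC.prim.map_of_injective (algebraMap K₁' M₂).injective) (hle1 ε₁'.2) hom2
    (nice_both a₀ a hB.powp hni)
    (D.npw g (fun x hx => hg1 x ((le_sup_left : F₀ ≤ F₀ ⊔ E) hx)) hg2)
    (fun s hs g hg h1 => D.aut s hs g hg h1)
    (by
      intro x hx
      by_contra hxp
      exact hcB ⟨x, a, hac, hx, hxp⟩)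
    E hcutE ⟨lE, hlE⟩ ⟨g, ?_, hψg⟩ c1 (fun v hv => c2 v (D.tame h3 v hv)) c3
  · rw [mul_assoc (χ₀ ^ p ^ l) ψ₀ (cf c)]
    exact hfin
  · intro x hx
    exact hg1 x ((sup_le_sup_right hJF E) hx)

end Pool.Agent.Helper77.PPB
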