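import Pool.Agent.Helper77.PPO.Goals2
import Pool.Agent.Helper38.FD.Defs
import Pool.Agent.Helper11.PB.Goals

/-!
# Project PPB (MP_fc6b1e_nt, density theorem for general base characters): the algebraic side

The base character is `χ₀ ψ₀`, `χ₀` of order prime to `p` (field `M`), `ψ₀` of order a power of `p` (field
`F₀`, in which the primes above `p` split completely). `J` is the field of `ψ₀^p`, `M₂ = M₁ J`, `M₁ = M(ε)`,
`ψ₁ = ψ₀ φ`, `φ` of order `p`; `α = a₀ a ∈ M₂` is the Kummer generator of `ψ₁`. The twisted Selmer group of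
`χ₀ ψ₁` is `Sel L (above T) P δ α`: elements of `Mˣ`, local conditions at the primes of `M₂`. `E` is a companion
field, `ψ` a character of `Gal(E/K)`, `L₀ = J E`, `M' = M L₀`, `M₂' = M₂ E`.
-/

namespace Pool.Agent.Helper77.PPB

open NumberField Polynomial Module IsDedekindDomain TensorProduct Pool.Agent.Helper51.SigLeo
open Pool.Agent.Helper51.RP Pool.Agent.Helper42.RD Pool.Agent.Helper11.LE Pool.Agent.Helper11.PP
open Pool.Agent.Helper77.RL (Sqr SplitAt)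
open Pool.Agent.Helper38.FD (Chr CutsOut LeopoldtFor IsOrdinary)
open Pool.Agent.Helper77.PPO (SelO)

/-- The conditions at the primes for the extension `M₂'/M₂` and `α ∈ M₂`: above a prime `W` at which the
valuation of `α` is not a multiple of `p` there is a prime of `M₂'` with the same completion; above the
other primes `W` there is one which is unramified over `W`, or the prime of `M` below `W` has a nontrivial
decomposition group over `K`. -/
structure CondW (p : ℕ) (K M M₂ M₂' : Type) [Field K] [Field M] [NumberField M] [Field M₂]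
    [NumberField M₂] [Field M₂'] [NumberField M₂'] [Algebra K M] [Algebra M M₂] [Algebra M₂ M₂']
    (α : M₂) : Prop where
  tame : ∀ W : HeightOneSpectrum (𝓞 M₂), ¬ (p : ℤ) ∣ ordv W α →
    ∃ W' : HeightOneSpectrum (𝓞 M₂'), Above W' W ∧
      (∀ x : M₂, ordv W' (algebraMap M₂ M₂' x) = ordv W x) ∧
      ∀ y : 𝓞 M₂', ∃ x : 𝓞 M₂, y - algebraMap (𝓞 M₂) (𝓞 M₂') x ∈ W'.asIdeal
  dvd : ∀ W : HeightOneSpectrum (𝓞 M₂), (p : ℤ) ∣ ordv W α →
    (∃ W' : HeightOneSpectrum (𝓞 M₂'), Above W' W ∧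
      ∀ x : M₂, ordv W' (algebraMap M₂ M₂' x) = ordv W x) ∨
    ∃ w : HeightOneSpectrum (𝓞 M), Above W w ∧ ¬ FreeP K w

/-- **B_TOR** (roots of unity in an extension of `p`-power degree).

PROOF. Let `i` be as in `TorOK P δ`. The `ξ ∈ M'` with `ξ^(p^n) = 1` for some `n` form a finite cyclic group of order
`p^b` (`M'` is a number field). If `b = 0` the same `i` works. Let `b ≥ 1`, `ξ₀` a generator, `δ' ξ₀ = ξ₀^(i')`,
`ξ₁ = ξ₀^(p^(b-1))`, a primitive `p`-th root of unity. `M(ξ₁) ⊆ M'` has degree over `M` dividing `p^n` and at most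
`p - 1` (`ξ₁` is a root of `(X^p - 1)/(X - 1)`), and the degree of `ξ₁` divides the power of `p`: it is `1`, so `ξ₁` is
the image of an element of `M`. So `δ' ξ₁ = ξ₁^i`, and `= ξ₁^(i')`: `i' ≡ i mod p`, `P(i') = P(i) ≠ 0` in `ZMod p`, and
`δ' ξ = ξ^(i')` for all these `ξ`, powers of `ξ₀`. -/
def B_TOR : Prop :=
  ∀ (p : ℕ) [Fact p.Prime] (K M L M' : Type) [Field K] [Field M] [Field L] [Field M']
    [NumberField M'] [Algebra K M] [Algebra M M'] [Algebra L M'] (n : ℕ), finrank M M' = p ^ n →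
  ∀ (δ : M ≃ₐ[K] M) (δ' : M' ≃ₐ[L] M') (P : (ZMod p)[X]),
    (∀ x : M, δ' (algebraMap M M' x) = algebraMap M M' (δ x)) → TorOK P δ → TorOK P δ'

/-- **B_TRV** (abstract lifting). `M' = M L`, `L/K` Galois of degree `p^n` with trivial decomposition groups at the
places of `T`. If the twisted Selmer group of `α` over `M` (conditions at the primes of `M₂`) is trivial, so is
the one over `M'` (conditions at the primes of `M₂'`).

PROOF (from `RL.L_FIX`, `RL.L_DES`, `RL.L_LSD`, `RL.L_SQR`; compare `O_TRV`, `Pool/Agent/Helper86/PPO/OTRV.lean`, and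
`O_SUB`, `Pool/Agent/Helper48/PPO/OSUB.lean`). Let `δ₁ : M' ≃ₐ[K] M'` be `δL`. `LData p m n δ δ₁`: `L_SQR`;
`δL` commutes with `g ∈ Gal(M'/M)` and `δL^m = 1`, because `δL g δL⁻¹ g⁻¹` and `δL^m` are trivial on `M` and on `L`
(see `L_TRV`, `Helper77/RL/Goals2.lean`). (0) Let `V ⊆ M'ˣ` be the set of the `x` satisfying `Sel` for `M'`. It is a
subgroup which contains the `p`-th powers (`pol P δL` is a homomorphism; `LocAt`, `LocSig`: see `O_SUB`). It is
stable under `g ∈ Gal(M'/M)`: `pol P δL` commutes with `g`; *loc*: let `f`, `c` be given by `hst` for `g`. For a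
prime `W'` of `M₂'` let `W''` be the prime with `W''.valuation y = W'.valuation (f y)`. `x ∈ V` satisfies
`LocAt p W'' α x`, and `f α = α c^p`, so `g x` satisfies `LocAt p W' (α c^p) (g x)` and `LocAt p W' α (g x)` (`LocAt`
depends only on the class of `α` modulo `p`-th powers: `ord_{W'}(α c^p) ≡ ord_{W'}(α)`, and
`x (α* c^p)^i y^p = x α*^i (c^i y)^p`, `c ≠ 0`). *sig*: `above (above T)` is stable under `τ ↦ τ ∘ g`.
(1) Suppose that `V` contains an `x` which is not a `p`-th power. `L_FIX` (`M`, `M'`) gives such an `x` with `g(x)/x`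
a `p`-th power for all `g ∈ Gal(M'/M)`, and `L_DES` gives `x₀ ∈ Mˣ` with `P(δ) x₀` a `p`-th power in `Mˣ` and
`x/x₀` a `p`-th power in `M'ˣ`; so `x₀ ∈ V`, and `x₀` is not a `p`-th power in `Mˣ`. We show `Sel` for `x₀` over
`M`, a contradiction. *pol*: clear. *sig*: `L_LSD` with `SplitAt` for all `σ ∈ T`. *loc*: let `W` be a prime of
`M₂`. (a) `p ∣ ord_W(α)`: if there is `W'` with `ord_{W'} = ord_W` on `M₂` then `p ∣ ord_{W'}(α)`, so
`p ∣ ord_{W'}(x₀) = ord_W(x₀)`. Otherwise `p ∣ ord_w(x₀)` by `hnsp`, and `ord_W(x₀)` is a multiple of `ord_w(x₀)`.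
(b) `p ∤ ord_W(α)`: with `W'` from `tame` `p ∤ ord_{W'}(α)`, so `LocPow p W' z` with `z = x₀ α*^i ∈ M₂ˣ`, and
`LocPow p W z` follows as in the proof of `RL.L_LIFT` (*tame*; in Lean `Pool/Agent/Helper49/RL/LIFT.lean`). -/
def B_TRV : Prop :=
  ∀ (p : ℕ) [Fact p.Prime] (k : Type) [NormedField k] [NormedAlgebra ℚ_[p] k]
    [IsUltrametricDist k], Nonempty (AlgebraicClosure ℚ →+* k) →
  ∀ (Lg : IwasawaLog p k) (n m : ℕ) (K M L M' M₂ M₂' : Type) [Field K] [NumberField K] [Field M]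
    [NumberField M] [Field L] [NumberField L] [Field M'] [NumberField M'] [Field M₂]
    [NumberField M₂] [Field M₂'] [NumberField M₂'] [Algebra K M] [Algebra K L] [Algebra K M']
    [Algebra M M'] [Algebra L M'] [IsScalarTower K M M'] [IsScalarTower K L M'] [Algebra M M₂]
    [Algebra M M₂'] [Algebra M₂ M₂'] [Algebra M' M₂'] [IsScalarTower M M₂ M₂']
    [IsScalarTower M M' M₂'], Sqr p n K M L M' →
  ∀ (δ : M ≃ₐ[K] M) (δL : M' ≃ₐ[L] M') (P : (ZMod p)[X]), Irreducible P → δ ^ m = 1 →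
    (∀ x : M, δL (algebraMap M M' x) = algebraMap M M' (δ x)) → TorOK P δL →
    (∀ w : HeightOneSpectrum (𝓞 M), ¬ FreeP K w → ∀ x : Mˣ, Pw p (pol P δ x) →
      (p : ℤ) ∣ ordv w (x : M)) →
  ∀ (T : Set (K →+* k)),
    (∀ τ' : M' →+* k, τ'.comp (algebraMap K M') ∈ T → SplitAt M τ') →
  ∀ α : M₂, α ≠ 0 →
    (∀ g : M' ≃ₐ[M] M', ∃ (f : M₂' ≃+* M₂') (c : M₂'),
      (∀ x : M', f (algebraMap M' M₂' x) = algebraMap M' M₂' (g x)) ∧
      f (algebraMap M₂ M₂' α) = algebraMap M₂ M₂' α * c ^ p) →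
    CondW p K M M₂ M₂' α → (∀ x : Mˣ, Sel Lg (above T) P δ α x → Pw p x) →
  ∀ x : M'ˣ, Sel Lg (above (above T : Set (L →+* k))) P δL (algebraMap M₂ M₂' α) x → Pw p x

/-- **B_PRM** (the conditions at the primes for `M₂' = M₂ E`).

PROOF. Let `W` be a prime of `M₂`, `W'` a prime of `M₂'` above `W`, `V`, `v` the primes of `E`, `K` below `W'`, `w`
the prime of `M` below `W`. `Gal(M₂'/M₂)` embeds in `Gal(E/K)` (`M₂'/K`, `M₂'/M₂` are Galois). (1) If `p ∤ ord_W(α)`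
then `V` has trivial decomposition group over `K`: if `g ∈ Gal(M₂'/M₂)` preserves the valuation of `W'`, its
restriction to `E` preserves that of `V`, so it is trivial, and `g = 1`: `FreeP M₂ W'`, so `e = f = 1` for
`W'/W` (`ef_free`, `residue_surj` in `Pool/Agent/Helper2/RL/EF1.lean`; see the end of that file for `ordv`).
(2) If `p ∣ ord_W(α)` and `FreeP K w`: `ord_V = ord_v` on `K`, so `v` is unramified in `E` and the inertia group of
`V` in `Gal(E/K)` is trivial (`inertia_iff`, `Pool/Agent/Helper22/PP/DPRD.lean`); an element of the inertia group of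
`W'` in `Gal(M₂'/M₂)` restricts to one of `V`, so it is trivial; so `W'` is unramified over `W` and
`ord_{W'} = ord_W` on `M₂` (`ord_ee`, `Pool/Agent/Helper58/PP/DTAM.lean`; see `ordv_of_unram` in
`Pool/Agent/Helper38/FD/Split.lean`). (3) Otherwise the second alternative of `dvd` holds with `w`. -/
def B_PRM : Prop :=
  ∀ (p : ℕ) [Fact p.Prime] (K M M₂ E M₂' : Type) [Field K] [NumberField K] [Field M] [NumberField M]
    [Field M₂] [NumberField M₂] [Field E] [NumberField E] [Field M₂'] [NumberField M₂']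
    [Algebra K M] [Algebra K M₂] [Algebra M M₂] [IsScalarTower K M M₂] [Algebra K E]
    [Algebra K M₂'] [Algebra M₂ M₂'] [Algebra E M₂'] [IsScalarTower K M₂ M₂']
    [IsScalarTower K E M₂'] [IsGalois K M] [IsGalois K E] [IsGalois K M₂'],
    (∀ g : M₂' ≃ₐ[K] M₂', (∀ x : M₂, g (algebraMap M₂ M₂' x) = algebraMap M₂ M₂' x) →
      (∀ y : E, g (algebraMap E M₂' y) = algebraMap E M₂' y) → g = 1) →
  ∀ α : M₂,
    (∀ v : HeightOneSpectrum (𝓞 K),
      (∃ W : HeightOneSpectrum (𝓞 M₂), Above W v ∧ ¬ (p : ℤ) ∣ ordv W α) →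
      ∀ V : HeightOneSpectrum (𝓞 E), Above V v → FreeP K V) →
    (∀ v : HeightOneSpectrum (𝓞 K),
      (∃ w : HeightOneSpectrum (𝓞 M), Above w v ∧ FreeP K w) →
      ∀ V : HeightOneSpectrum (𝓞 E), Above V v → ∀ x : K, ordv V (algebraMap K E x) = ordv v x) →
  CondW p K M M₂ M₂' α

/-- **B_SPA** (the places above `p` are split in `M' = M J E` over `M`).

PROOF. Let `g ∈ Gal(M'/M)` preserve the norms of `τ' : M' → ℂ_p`. `J/K` and `E/K` are Galois; the restriction `g_J`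
of `g` to `J` preserves the norms of `τ'|_J`. Let `V` be the prime of `J` given by `x ∈ V ↔ ‖τ' x‖ < 1`, `x ∈ 𝓞_J` (it
is a nonzero prime ideal: it contains `p`, and not `1`), and `v` the prime of `K` below, which contains `p`.
`x ∈ V ↔ g_J x ∈ V`, so `V.valuation (g_J y) = V.valuation y` for all `y ∈ J` (the prime `V'` with
`V'.valuation y = V.valuation (g_J y)` has the same ideal; see `Pool/Agent/Helper56/RL/ADM.lean` and
`Pool/Agent/Helper4/RL/TYP.lean`). So `g_J = 1` by `FreeP K V`. The same for `E`. So `g` is trivial on `M`, `J`, `E`. -/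
def B_SPA : Prop :=
  ∀ (p : ℕ) [Fact p.Prime] (K M J E M' : Type) [Field K] [NumberField K] [Field M] [Field J]
    [NumberField J] [Field E] [NumberField E] [Field M'] [NumberField M'] [Algebra K M]
    [Algebra K J] [Algebra K E] [Algebra K M'] [Algebra M M'] [Algebra J M'] [Algebra E M']
    [IsScalarTower K M M'] [IsScalarTower K J M'] [IsScalarTower K E M'] [IsGalois K J]
    [IsGalois K E],
    (∀ g : M' ≃ₐ[K] M', (∀ x : M, g (algebraMap M M' x) = algebraMap M M' x) →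
      (∀ x : J, g (algebraMap J M' x) = algebraMap J M' x) →
      (∀ x : E, g (algebraMap E M' x) = algebraMap E M' x) → g = 1) →
    (∀ v : HeightOneSpectrum (𝓞 K), (p : 𝓞 K) ∈ v.asIdeal →
      ∀ V : HeightOneSpectrum (𝓞 J), Above V v → FreeP K V) →
    (∀ v : HeightOneSpectrum (𝓞 K), (p : 𝓞 K) ∈ v.asIdeal →
      ∀ V : HeightOneSpectrum (𝓞 E), Above V v → FreeP K V) →
  ∀ τ' : M' →+* ℂ_[p], SplitAt M τ'

/-- **B_STB** (the hypothesis `hst` of `B_TRV`). `M' = M L`, `M₂' = M₁ L`, `M ⊆ M₁ ⊆ M₂ ⊆ M₂'`.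

PROOF (from `RL.L_SQR`). Let `g ∈ Gal(M'/M)`, `g₀` its restriction to `L` (Galois over `K`). By `L_SQR` for
`K ⊆ M₁, L ⊆ M₂'` there is `f ∈ Gal(M₂'/K)` which is trivial on `M₁` and equal to `g₀` on `L`. The restriction of `f`
to `M'` (Galois over `K`) agrees with `g` on `M` (both trivial) and on `L`, so it is `g` (`Sqr.gen`). Let `τ` be the
restriction of `f` to `M₂` (Galois over `K`). `τ ε = ε` because `ε` comes from `M₁`. `OmType`: `τ ε = ε^i`, so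
`i ≡ 1 mod p` (`i ≥ 1`, since `ε ≠ 1`), `i = 1 + p j`, `j : ℕ`, and `τ α = α^i c^p = α (α^j c)^p`. -/
def B_STB : Prop :=
  ∀ (p : ℕ) [Fact p.Prime] (n : ℕ) (K M M₁ L M' M₂ M₂' : Type) [Field K] [NumberField K] [Field M]
    [Field M₁] [Field L] [Field M'] [Field M₂] [Field M₂'] [NumberField M'] [NumberField M₂']
    [Algebra K M] [Algebra K M₁] [Algebra K L] [Algebra K M'] [Algebra K M₂] [Algebra K M₂']
    [Algebra M M'] [Algebra L M'] [Algebra M M₁] [Algebra M₁ M₂] [Algebra M₁ M₂'] [Algebra L M₂']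
    [Algebra M₂ M₂'] [Algebra M' M₂'] [Algebra M M₂'] [IsScalarTower K M M']
    [IsScalarTower K L M'] [IsScalarTower K M₁ M₂'] [IsScalarTower K L M₂']
    [IsScalarTower K M₂ M₂'] [IsScalarTower K M' M₂'] [IsScalarTower M M₁ M₂']
    [IsScalarTower M M' M₂'] [IsScalarTower L M' M₂'] [IsScalarTower M₁ M₂ M₂'] [IsGalois K M₂],
    Sqr p n K M L M' → Sqr p n K M₁ L M₂' →
  ∀ (ε : M₁) (α : M₂), IsPrimitiveRoot ε p → OmType p K (algebraMap M₁ M₂ ε) α →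
  ∀ g : M' ≃ₐ[M] M', ∃ (f : M₂' ≃+* M₂') (c : M₂'),
    (∀ x : M', f (algebraMap M' M₂' x) = algebraMap M' M₂' (g x)) ∧
    f (algebraMap M₂ M₂' α) = algebraMap M₂ M₂' α * c ^ p

/-- **B_NIN** (the Kummer generator is not in `M₂' = M₁ L₀`). `M₂ = M₁ J`, `J ⊆ L₀`.

PROOF. `M₁`, `J`, `L₀` are Galois over `K`. Let `F₁` be the field of `ψ₁` (finite over `K`, Galois). `s ∈ M₂ ⊔ F₁`
(`Ω/(M₂ ⊔ F₁)` is Galois; an automorphism which fixes `M₂ ⊔ F₁` has `ψ₁ g = 1` and fixes `s`). `[M₂ ⊔ F₁ : M₂]` divides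
`p`: its Galois group embeds by `ψ₁` in the `p`-th roots of unity, as `ψ₁ g^p = 1` for `g` fixing `J`. As `s ∉ M₂`,
`M₂ ⊔ F₁ = M₂(s)`. Suppose `s ∈ M₁ ⊔ L₀`; then `F₁ ⊆ M₂ ⊔ F₁ ⊆ M₁ ⊔ L₀`. Let `g` fix `L₀`. Let `c = [M₁ : K]`; `g^c`
fixes `M₁` and `L₀` (`Gal(M₁/K)` has order `c`), so it fixes `F₁` and `ψ₁(g)^c = 1`; also `ψ₁(g)^(p^l) = 1`, so
`ψ₁ g = 1` as `c` is prime to `p`. This contradicts the last hypothesis. -/
def B_NIN : Prop :=
  ∀ (p : ℕ) [Fact p.Prime] (K : Type) [Field K] [NumberField K]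
    (M₁ J L₀ M₂ : IntermediateField K (AlgebraicClosure K)) [NumberField M₁] [NumberField J]
    [NumberField L₀] [IsGalois K M₁] [IsGalois K J] [IsGalois K L₀], M₂ = M₁ ⊔ J → J ≤ L₀ →
    (finrank K M₁).Coprime p →
  ∀ ψ₁ : Chr K (AlgebraicClosure K) ℂ_[p],
    (∃ F₁ : IntermediateField K (AlgebraicClosure K), FiniteDimensional K F₁ ∧ CutsOut ψ₁ F₁) →
    (∃ l : ℕ, ψ₁ ^ p ^ l = 1) → (∀ g, (∀ x ∈ J, g x = x) → ψ₁ g ^ p = 1) →
  ∀ s : AlgebraicClosure K, s ^ p ∈ M₂ → s ∉ M₂ →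
    (∀ g : AlgebraicClosure K ≃ₐ[K] AlgebraicClosure K, (∀ x ∈ M₂, g x = x) → ψ₁ g = 1 →
      g s = s) →
    (∃ g : AlgebraicClosure K ≃ₐ[K] AlgebraicClosure K, (∀ x ∈ L₀, g x = x) ∧ ψ₁ g ≠ 1) →
  s ∉ M₁ ⊔ L₀

/-- **B_CO1** (the core, `χ₀ ≠ 1`; compare `RL.L_GOO`). `L ⊆ F` are Galois over `K` of degrees `p^n` and `p^(n+1)`,
`M' = M L ⊆ M₂`, `M₂(s) = M₂ F`, `s^p = a ∈ 𝓞_{M₂}`, `a ≡ 1 mod p³`, and the twisted Selmer group of `a` for `M'/L`
is trivial. Then the `Σ`-Leopoldt statement holds for all the characters `χ₀ η`, `η` a character of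
`Gal(F/K)` which is not trivial on `Gal(F/L)`.

PROOF (from `RP.S_P1`, `B_TOR`; it is the proof of `RL.L_GOO`, `Pool/Agent/Helper13/RL/GOO.lean`, with `F` in the
place of `L ⊔ N`, `M₂` in the place of `F₁ = E ⊔ L`, and `hSel'` given). Let `m = [M : K]`, `H~ = M ⊔ F`,
`H₁~ = M₂ ⊔ F`. `[M' : K] = m p^n`, `[H~ : K] = m p^(n+1)` (coprime degrees), so `[H~ : M'] = p`. `s ∈ H₁~` (`Ω/H₁~` is
Galois, hypothesis on the automorphisms), `s ∉ M₂`. `[H₁~ : M₂]` divides `[F : L] = p` (`F/L` is Galois of degree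
`p` and `L ⊆ M₂`), and it is not `1`, so it is `p`. There is `gK ∈ Gal(Ω/M₂)` with `gK s = ε s`
(`Pool.Agent.Helper13.RL.exists_gK`); it is trivial on `M'` and `L`, and not trivial on `F` (otherwise
`gK s = s`). Its restriction to `F` generates `Gal(F/L)`, of order `p`; so its restriction `γ` to `H~` has order
`p`. Let `d ∈ Gal(Ω/K)` extend `δ` and be trivial on `F` (coprime degrees), `δ'` its restriction to `H~`; its
restriction to `M'` is `δL`, because `δL` is trivial on `L` and extends `δ`. They have order `m`, and `γ`, `δ'`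
commute (on `M` and on `F`). So `HData` holds with `K := L`, `M := M'`, `H := H~`, `M₁ := M₂`, `H₁ := H₁~`,
`T := above T`; `TorOK P δ'` by `B_TOR` for `H~/M`, of degree `p^(n+1)`. *Conclusion.* As in `L_GOO`: `Hf ⊆ H~`; with
`z = eChi x` and its image `z~` in `k ⊗ 𝓞_{H~}ˣ`: `γ z~ = η(gK|_F) z~`, `η(gK|_F)` is a primitive `p`-th root of unity
(`gK|_F` generates `Gal(F/L)`, of order `p`, on which `η` is not trivial), `δ' z~ = χ₀(δ) z~`; `S_P1` gives
`z~ = 0`. -/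
def B_CO1 : Prop :=
  ∀ (p : ℕ) [Fact p.Prime] (K : Type) [Field K] [NumberField K]
    (ιinf : AlgebraicClosure K →+* ℂ) (ιp : AlgebraicClosure K →+* ℂ_[p]) (Lg : IwasawaLog p ℂ_[p])
    (S : Set (K →+* ℂ)), PlaceClosed (TSet ιinf ιp S) →
  ∀ (M : IntermediateField K (AlgebraicClosure K)) [NumberField M] [IsGalois K M]
    (χ₀ : (M ≃ₐ[K] M) →* ℂ_[p]ˣ), Function.Injective χ₀ → (finrank K M).Coprime p →
  ∀ (δ : M ≃ₐ[K] M) (Φ : ℤ_[p][X]) (P : (ZMod p)[X]), orderOf δ = finrank K M →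
    PhiData p (finrank K M) ((χ₀ δ : ℂ_[p]ˣ) : ℂ_[p]) Φ P → TorOK P δ →
  ∀ (n : ℕ) (L F M' M₂ : IntermediateField K (AlgebraicClosure K)) [NumberField L] [NumberField M']
    [NumberField M₂] [IsGalois K L] [IsGalois K F] [Algebra M M'] [Algebra L M'] [Algebra M' M₂],
    (∀ x : M, ((algebraMap M M' x : M') : AlgebraicClosure K) = x) →
    (∀ x : L, ((algebraMap L M' x : M') : AlgebraicClosure K) = x) →
    (∀ x : M', ((algebraMap M' M₂ x : M₂) : AlgebraicClosure K) = x) →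
    L ≤ F → finrank K L = p ^ n → finrank K F = p ^ (n + 1) → M' = M ⊔ L →
    IsGalois M' M₂ → (finrank M' M₂).Coprime p →
  ∀ (δL : M' ≃ₐ[L] M'), (∀ x : M, δL (algebraMap M M' x) = algebraMap M M' (δ x)) →
  ∀ (ε : M₂) (a : 𝓞 M₂), IsPrimitiveRoot ε p → a ≠ 0 → (p : 𝓞 M₂) ^ 3 ∣ a - 1 →
  ∀ s : AlgebraicClosure K, s ^ p = ((a : M₂) : AlgebraicClosure K) → s ∉ M₂ →
    (∀ g : AlgebraicClosure K ≃ₐ[K] AlgebraicClosure K, (∀ y ∈ F, g y = y) →
      (∀ y ∈ M₂, g y = y) → g s = s) →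
    (∀ x : (M')ˣ, Sel Lg (above (above (TSet ιinf ιp S) : Set (L →+* ℂ_[p])) :
      Set (M' →+* ℂ_[p])) P δL (a : M₂) x → Pw p x) →
  ∀ (H : IntermediateField K (AlgebraicClosure K)) [FiniteDimensional K H] [Normal K H]
    (χ : (H ≃ₐ[K] H) →* ℂ_[p]ˣ) (η : (F ≃ₐ[K] F) →* ℂ_[p]ˣ), Function.Injective χ →
    (∃ g : F ≃ₐ[K] F, (∀ x : F, (x : AlgebraicClosure K) ∈ L → g x = x) ∧ η g ≠ 1) →
    (∀ g : AlgebraicClosure K ≃ₐ[K] AlgebraicClosure K, χ (AlgEquiv.restrictNormalHom H g) =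
      χ₀ (AlgEquiv.restrictNormalHom M g) * η (AlgEquiv.restrictNormalHom F g)) →
  InjectiveOn (finrank K H) χ unitsHom (logSigma ιinf ιp S Lg)

/-- **B_CO0** (the core, `χ₀ = 1`; compare `PPO.O_GOL`). `L ⊆ F` are Galois over `K` of degrees `p^n` and `p^(n+1)`,
`M₂ = L(ε)`, `M₂(s) = M₂ F`, `s^p = a ∈ 𝓞_{M₂}`, `a ≡ 1 mod p³` of type `ω` over `L`, and the twisted Selmer group of
`a` over `L` is trivial. Then the `Σ`-Leopoldt statement holds for all the characters `η` of `Gal(F/K)` which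
are not trivial on `Gal(F/L)`.

PROOF (from `PPO.d_p1`, a theorem; it is the second part of the proof of `O_GOL`,
`Pool/Agent/Helper94/PPO/OGOL.lean`). `H₁ = M₂ ⊔ F`, `[H₁ : M₂] = p` and `gK` as in `B_CO1`, `γ` the restriction of
`gK` to `F`, `γ₁` the one to `H₁`. `HD p L F M₂ H₁ γ γ₁ ε a s` holds (`cop`: `[M₂ : L]` is prime to `p` by
`LE.L_CYC`). *Conclusion*: `H ⊆ F`, `γ z~ = η(γ) z~`, `η(γ)` is a primitive `p`-th root of unity, and `d_p1` for the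
base field `L` and `above T` gives `z~ = 0`. -/
def B_CO0 : Prop :=
  ∀ (p : ℕ) [Fact p.Prime] (K : Type) [Field K] [NumberField K]
    (ιinf : AlgebraicClosure K →+* ℂ) (ιp : AlgebraicClosure K →+* ℂ_[p]) (Lg : IwasawaLog p ℂ_[p])
    (S : Set (K →+* ℂ)), PlaceClosed (TSet ιinf ιp S) →
  ∀ (n : ℕ) (L F M₂ : IntermediateField K (AlgebraicClosure K)) [NumberField L] [NumberField M₂]
    [IsGalois K L] [IsGalois K F] [Algebra L M₂],
    (∀ x : L, ((algebraMap L M₂ x : M₂) : AlgebraicClosure K) = x) →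
    L ≤ F → finrank K L = p ^ n → finrank K F = p ^ (n + 1) →
  ∀ (ε : M₂) (a : 𝓞 M₂), Cyc p L M₂ ε → OmType p L ε (a : M₂) → a ≠ 0 → (p : 𝓞 M₂) ^ 3 ∣ a - 1 →
  ∀ s : AlgebraicClosure K, s ^ p = ((a : M₂) : AlgebraicClosure K) → s ∉ M₂ →
    (∀ g : AlgebraicClosure K ≃ₐ[K] AlgebraicClosure K, (∀ y ∈ F, g y = y) →
      (∀ y ∈ M₂, g y = y) → g s = s) →
    (∀ x : (L)ˣ, SelO Lg (above (TSet ιinf ιp S) : Set (L →+* ℂ_[p])) (a : M₂) x → Pw p x) →
  ∀ (H : IntermediateField K (AlgebraicClosure K)) [FiniteDimensional K H] [Normal K H]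
    (χ : (H ≃ₐ[K] H) →* ℂ_[p]ˣ) (η : (F ≃ₐ[K] F) →* ℂ_[p]ˣ), Function.Injective χ →
    (∃ g : F ≃ₐ[K] F, (∀ x : F, (x : AlgebraicClosure K) ∈ L → g x = x) ∧ η g ≠ 1) →
    (∀ g : AlgebraicClosure K ≃ₐ[K] AlgebraicClosure K, χ (AlgEquiv.restrictNormalHom H g) =
      η (AlgEquiv.restrictNormalHom F g)) →
  InjectiveOn (finrank K H) χ unitsHom (logSigma ιinf ιp S Lg)

/-- **B_GL1** (trivial twisted Selmer group implies the `Σ`-Leopoldt statement, `χ₀ ≠ 1`). `ψ₁` is a character of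
`p`-power order with `ψ₁^p = 1` on `Gal(Ω/J)`, `α ∈ M₂ = M₁ J` its Kummer generator, `E` a companion: `E/K` is Galois
of `p`-power degree, the primes above `p` and the primes `v` above which there is a prime `W` of `M₂` with
`p ∤ ord_W(α)` split completely in `E`, the primes which split completely in `M` are unramified in `E`. If the
twisted Selmer group of `α` is trivial then the statement holds for `χ₀ ψ₁ ψ`, `ψ` a character which cuts out `E`,
provided that `ψ₁` is not trivial on `Gal(Ω/J E)`.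

PROOF (from `B_TRV`, `B_PRM`, `B_SPA`, `B_NIN`, `B_STB`, `B_TOR`, `B_CO1`, `RL.L_SQR`). All fields are subfields of `Ω`.
*Fields.* `L₀ = J ⊔ E`, Galois over `K` of degree `p^n` (a divisor of `[J : K] [E : K]`). `F₁` the field of `ψ₁`,
`F = L₀ ⊔ F₁`, Galois over `K`. `[F : L₀] = p`: `Gal(F/L₀)` embeds in `ℂ_pˣ` by `ψ₁`, `ψ₁^p = 1` on it, so its order
divides `p`, and it is not trivial. `M' = M ⊔ L₀`, `M₂' = M₂ ⊔ E = M₁ ⊔ L₀`. `Sqr p n K M L₀ M'` and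
`Sqr p n K M₁ L₀ M₂'` hold (`sqr_sup'` in `Pool/Agent/Helper13/RL`). So `[M₂' : L₀] = [M₁ : K]`, `[M' : L₀] = [M : K]`
(`L_SQR`), `[M₂' : M']` divides `[M₁ : K]`: it is prime to `p`; `M₂'/M'` is Galois (`M₂'/K` is).
*The element.* Let `b = α y^p ∈ 𝓞_{M₂}`, `b ≡ 1 mod p³` (`NiceU`), `s^p = b`. `Sel` for `b` and for `α` are
equivalent (`LocAt` depends only on the class modulo `p`-th powers), and the hypotheses on `α` (type `ω`, not a
`p`-th power, condition on the automorphisms, the primes with `p ∤ ord_W`) hold for `b`. `s ∉ M₂`, and `s ∉ M₂'` by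
`B_NIN`. *Stability* (`hst` of `B_TRV`): `B_STB`. *Primes*: `CondW` by `B_PRM` for `M₂' = M₂ E`. `SplitAt M τ'`:
`B_SPA`. Let `δL ∈ Gal(M'/L₀)` extend `δ` (`L_SQR`), `TorOK P δL` by `B_TOR`. `B_TRV` (`m = [M : K]`) and `B_CO1` with
`η = ψ₁ ψ` as a character of `Gal(F/K)` (both are trivial on `Gal(Ω/F)`; `η = ψ₁` on `Gal(Ω/L₀)`).
*Conclusion.* The field `H` of `χ₀ ψ₁ ψ` is finite over `K` (`exists_cutsOut` in `Pool/Agent/Helper38/FD/Split.lean`),
the faithful character of `Gal(H/K)` by `exists_faithful` (`Pool/Agent/Helper38/FD/Twist.lean`), see the end of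
`good_of_twF`. -/
def B_GL1 : Prop :=
  ∀ (p : ℕ) [Fact p.Prime] (K : Type) [Field K] [NumberField K]
    (ιinf : AlgebraicClosure K →+* ℂ) (ιp : AlgebraicClosure K →+* ℂ_[p]) (Lg : IwasawaLog p ℂ_[p])
    (S : Set (K →+* ℂ)), PlaceClosed (TSet ιinf ιp S) →
  ∀ (M M₁ J M₂ : IntermediateField K (AlgebraicClosure K)) [NumberField M] [NumberField M₁]
    [NumberField J] [NumberField M₂] [IsGalois K M] [IsGalois K M₁] [IsGalois K J] [Algebra M M₂],
    (∀ x : M, ((algebraMap M M₂ x : M₂) : AlgebraicClosure K) = x) → M ≤ M₁ → M₂ = M₁ ⊔ J →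
    (finrank K M₁).Coprime p → (∃ l : ℕ, finrank K J = p ^ l) →
    (∀ v : HeightOneSpectrum (𝓞 K), (p : 𝓞 K) ∈ v.asIdeal →
      ∀ V : HeightOneSpectrum (𝓞 J), Above V v → FreeP K V) →
  ∀ (χM : (M ≃ₐ[K] M) →* ℂ_[p]ˣ), Function.Injective χM →
  ∀ (δ : M ≃ₐ[K] M) (Φ : ℤ_[p][X]) (P : (ZMod p)[X]), orderOf δ = finrank K M →
    PhiData p (finrank K M) ((χM δ : ℂ_[p]ˣ) : ℂ_[p]) Φ P → TorOK P δ →
    (∀ w : HeightOneSpectrum (𝓞 M), ¬ FreeP K w → ∀ x : (M)ˣ, Pw p (pol P δ x) →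
      (p : ℤ) ∣ ordv w (x : M)) →
  ∀ (χ₀ ψ₁ ψ : Chr K (AlgebraicClosure K) ℂ_[p]),
    (∀ g, χ₀ g = χM (AlgEquiv.restrictNormalHom M g)) →
    (∃ F₁ : IntermediateField K (AlgebraicClosure K), FiniteDimensional K F₁ ∧ CutsOut ψ₁ F₁) →
    (∃ l : ℕ, ψ₁ ^ p ^ l = 1) → (∀ g, (∀ x ∈ J, g x = x) → ψ₁ g ^ p = 1) →
  ∀ (ε : M₂) (α : (M₂)ˣ), IsPrimitiveRoot ε p → (ε : AlgebraicClosure K) ∈ M₁ →
    OmType p K ε (α : M₂) → NiceU p α → ¬ Pw p α →
    (∀ s : AlgebraicClosure K, s ^ p = ((α : M₂) : AlgebraicClosure K) →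
      ∀ g : AlgebraicClosure K ≃ₐ[K] AlgebraicClosure K, (∀ x ∈ M₂, g x = x) → ψ₁ g = 1 →
        g s = s) →
    (∀ x : (M)ˣ, Sel Lg (above (TSet ιinf ιp S)) P δ (α : M₂) x → Pw p x) →
  ∀ (E : IntermediateField K (AlgebraicClosure K)) [NumberField E] [IsGalois K E], CutsOut ψ E →
    (∃ l : ℕ, finrank K E = p ^ l) →
    (∃ g : AlgebraicClosure K ≃ₐ[K] AlgebraicClosure K, (∀ x ∈ J ⊔ E, g x = x) ∧ ψ₁ g ≠ 1) →
    (∀ v : HeightOneSpectrum (𝓞 K), (p : 𝓞 K) ∈ v.asIdeal →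
      ∀ V : HeightOneSpectrum (𝓞 E), Above V v → FreeP K V) →
    (∀ v : HeightOneSpectrum (𝓞 K),
      (∃ W : HeightOneSpectrum (𝓞 M₂), Above W v ∧ ¬ (p : ℤ) ∣ ordv W (α : M₂)) →
      ∀ V : HeightOneSpectrum (𝓞 E), Above V v → FreeP K V) →
    (∀ v : HeightOneSpectrum (𝓞 K),
      (∃ w : HeightOneSpectrum (𝓞 M), Above w v ∧ FreeP K w) →
      ∀ V : HeightOneSpectrum (𝓞 E), Above V v → ∀ x : K, ordv V (algebraMap K E x) = ordv v x) →
  LeopoldtFor ιinf ιp Lg S (χ₀ * ψ₁ * ψ)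

/-- **B_GL0** (as `B_GL1`, for `χ₀ = 1`, `M = K`). `M₁ = K(ε)`; the companion `E` is unramified everywhere.

PROOF (from `B_TRV`, `B_PRM`, `B_SPA`, `B_NIN`, `B_STB`, `B_TOR`, `B_CO0`, `RL.L_SQR`). As `B_GL1`, with `M := K`,
`M' := L₀`, `δ = 1`, `δL = 1`, `m = 1`, `P = X - 1`. `FreeP K w` holds for all primes `w` of `K` (only the trivial
automorphism). `pol (X - 1) 1 x = x^p` for all `x` (see `pol_one`, `Pool/Agent/Helper94/PP1`), so `Sel` and `SelO` are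
equivalent. `TorOK (X - 1) (1 : K ≃ₐ[K] K)` with `i = 0`: if `ξ^(p^n) = 1` in `K` then `ξ = 1`, because `K` contains
no primitive `p`-th root of unity. `Cyc p L₀ M₂' ε`: an automorphism of `M₂' = M₁ ⊔ L₀` over `L₀` which fixes `ε`
is trivial on `M₁` (hypothesis) and on `L₀`. `OmType p L₀ ε b`: restriction to `M₂`. `χ₀ = 1`: `η = ψ₁ ψ`. -/
def B_GL0 : Prop :=
  ∀ (p : ℕ) [Fact p.Prime] (K : Type) [Field K] [NumberField K]
    (ιinf : AlgebraicClosure K →+* ℂ) (ιp : AlgebraicClosure K →+* ℂ_[p]) (Lg : IwasawaLog p ℂ_[p])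
    (S : Set (K →+* ℂ)), PlaceClosed (TSet ιinf ιp S) → (¬ ∃ ξ : K, IsPrimitiveRoot ξ p) →
  ∀ (M₁ J M₂ : IntermediateField K (AlgebraicClosure K)) [NumberField M₁]
    [NumberField J] [NumberField M₂] [IsGalois K M₁] [IsGalois K J],
    M₂ = M₁ ⊔ J → (finrank K M₁).Coprime p → (∃ l : ℕ, finrank K J = p ^ l) →
    (∀ v : HeightOneSpectrum (𝓞 K), (p : 𝓞 K) ∈ v.asIdeal →
      ∀ V : HeightOneSpectrum (𝓞 J), Above V v → FreeP K V) →
  ∀ (ψ₁ ψ : Chr K (AlgebraicClosure K) ℂ_[p]),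
    (∃ F₁ : IntermediateField K (AlgebraicClosure K), FiniteDimensional K F₁ ∧ CutsOut ψ₁ F₁) →
    (∃ l : ℕ, ψ₁ ^ p ^ l = 1) → (∀ g, (∀ x ∈ J, g x = x) → ψ₁ g ^ p = 1) →
  ∀ (ε : M₂) (α : (M₂)ˣ), IsPrimitiveRoot ε p → (ε : AlgebraicClosure K) ∈ M₁ →
    (∀ g : M₁ ≃ₐ[K] M₁, (∀ x : M₁, (x : AlgebraicClosure K) = ε → g x = x) → g = 1) →
    OmType p K ε (α : M₂) → NiceU p α → ¬ Pw p α →
    (∀ s : AlgebraicClosure K, s ^ p = ((α : M₂) : AlgebraicClosure K) →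
      ∀ g : AlgebraicClosure K ≃ₐ[K] AlgebraicClosure K, (∀ x ∈ M₂, g x = x) → ψ₁ g = 1 →
        g s = s) →
    (∀ x : Kˣ, Sel Lg (above (TSet ιinf ιp S)) (X - 1 : (ZMod p)[X]) (1 : K ≃ₐ[K] K) (α : M₂) x →
      Pw p x) →
  ∀ (E : IntermediateField K (AlgebraicClosure K)) [NumberField E] [IsGalois K E], CutsOut ψ E →
    (∃ l : ℕ, finrank K E = p ^ l) →
    (∃ g : AlgebraicClosure K ≃ₐ[K] AlgebraicClosure K, (∀ x ∈ J ⊔ E, g x = x) ∧ ψ₁ g ≠ 1) →
    (∀ v : HeightOneSpectrum (𝓞 K), (p : 𝓞 K) ∈ v.asIdeal →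
      ∀ V : HeightOneSpectrum (𝓞 E), Above V v → FreeP K V) →
    (∀ v : HeightOneSpectrum (𝓞 K),
      (∃ W : HeightOneSpectrum (𝓞 M₂), Above W v ∧ ¬ (p : ℤ) ∣ ordv W (α : M₂)) →
      ∀ V : HeightOneSpectrum (𝓞 E), Above V v → FreeP K V) →
    (∀ v : HeightOneSpectrum (𝓞 K),
      ∀ V : HeightOneSpectrum (𝓞 E), Above V v → ∀ x : K, ordv V (algebraMap K E x) = ordv v x) →
  LeopoldtFor ιinf ιp Lg S (ψ₁ * ψ)

end Pool.Agent.Helper77.PPB
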